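import Pool.Agent.X280.HG.Law
import Pool.Agent.X280.UC.Main
import Pool.Agent.X280.BP.GaussFam

/-!
# The normal law for sums of local data with bounded fourth moments
-/

set_option autoImplicit false
set_option linter.unusedSectionVars false

namespace Pool.Agent.X280.HG

open Finset hiding val
open Filter Topology Pool.Agent.Y722.HS Pool.Agent.X280.BP Pool.Agent.X280.UC MeasureTheory
  ProbabilityTheory

variable {ι : Type} [Fintype ι] [DecidableEq ι]

open Classical in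
/-- Truncation at `A`. -/
noncomputable def trunc (A x : ℝ) : ℝ := if |x| ≤ A then x else 0

open Classical in
/-- The indicator of `|x| > A`. -/
noncomputable def big (A x : ℝ) : ℝ := if |x| ≤ A then 0 else 1

theorem big_nonneg (A x : ℝ) : 0 ≤ big A x := by
  unfold big; split_ifs <;> norm_num

theorem trunc_abs {A : ℝ} (hA : 0 ≤ A) (x : ℝ) : |trunc A x| ≤ A := by
  unfold trunc
  split_ifs with h
  · exact h
  · simpa using hA

theorem big_le {A : ℝ} (hA : 0 < A) (x : ℝ) : big A x ≤ x ^ 4 / A ^ 4 := by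
  unfold big
  split_ifs with h
  · positivity
  · push Not at h
    rw [le_div_iff₀ (by positivity), one_mul]
    have : A ^ 4 ≤ |x| ^ 4 := pow_le_pow_left₀ hA.le h.le 4
    rwa [show |x| ^ 4 = x ^ 4 by rw [pow_abs, abs_of_nonneg (by positivity)]] at this

theorem trunc_diff {A : ℝ} (hA : 0 < A) (x : ℝ) : |trunc A x - x| ≤ x ^ 4 / A ^ 3 := by
  unfold trunc
  split_ifs with h
  · rw [sub_self, abs_zero]; positivity
  · push Not at h
    rw [zero_sub, abs_neg, le_div_iff₀ (by positivity)]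
    have h1 : A ^ 3 ≤ |x| ^ 3 := pow_le_pow_left₀ hA.le h.le 3
    calc |x| * A ^ 3 ≤ |x| * |x| ^ 3 := by gcongr
      _ = |x| ^ 4 := by ring
      _ = x ^ 4 := by rw [pow_abs, abs_of_nonneg (by positivity)]

theorem trunc_sq {A : ℝ} (hA : 0 < A) (x : ℝ) : |trunc A x ^ 2 - x ^ 2| ≤ x ^ 4 / A ^ 2 := by
  unfold trunc
  split_ifs with h
  · rw [sub_self, abs_zero]; positivity
  · push Not at h
    rw [zero_pow (by norm_num), zero_sub, abs_neg, abs_of_nonneg (sq_nonneg x),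
      le_div_iff₀ (by positivity)]
    have h1 : A ^ 2 ≤ |x| ^ 2 := pow_le_pow_left₀ hA.le h.le 2
    rw [sq_abs] at h1
    calc x ^ 2 * A ^ 2 ≤ x ^ 2 * x ^ 2 := by gcongr
      _ = x ^ 4 := by ring

theorem abs_EM_le_EM (p : ℕ) [NeZero p] (f g : (ι → ZMod p) → ℝ) (h : ∀ c, |f c| ≤ g c) :
    |EM p f| ≤ EM p g := by
  unfold EM
  have hM : (0 : ℝ) < p := by exact_mod_cast Nat.pos_of_ne_zero (NeZero.ne p)
  have hpos : (0 : ℝ) < (p : ℝ) ^ Fintype.card ι := by positivity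
  rw [abs_div, abs_of_pos hpos]
  gcongr
  exact (Finset.abs_sum_le_sum_abs _ _).trans (Finset.sum_le_sum fun c _ => h c)

/-- Local data with moments. -/
structure LD (U : ∀ p : ℕ, (ι → ZMod p) → ℝ) (μ μ2 C : ℝ) : Prop where
  C0 : 0 ≤ C
  m1 : ∀ p : ℕ, p.Prime → ∀ [NeZero p], |EM p (U p) - μ| ≤ C / p
  m2 : ∀ p : ℕ, p.Prime → ∀ [NeZero p], |EM p (fun c => U p c ^ 2) - μ2| ≤ C / p
  m4 : ∀ p : ℕ, p.Prime → ∀ [NeZero p], EM p (fun c => U p c ^ 4) ≤ C

variable {U : ∀ p : ℕ, (ι → ZMod p) → ℝ} {μ μ2 C : ℝ}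

/-- The mean of the truncated variable. -/
noncomputable def mT (U : ∀ p : ℕ, (ι → ZMod p) → ℝ) (A : ℝ) (p : ℕ) : ℝ :=
  if h : p = 0 then 0 else (haveI : NeZero p := ⟨h⟩; EM p (fun c => trunc A (U p c)))

theorem mT_eq (U : ∀ p : ℕ, (ι → ZMod p) → ℝ) (A : ℝ) (p : ℕ) [NeZero p] :
    mT U A p = EM p (fun c => trunc A (U p c)) := by
  unfold mT
  rw [dif_neg (NeZero.ne p)]

theorem LD.mean (h : LD U μ μ2 C) {A : ℝ} (hA : 1 ≤ A) (p : ℕ) (hp : p.Prime) :
    |mT U A p - μ| ≤ C * (1 / p + 1 / A ^ 3) := by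
  have : NeZero p := ⟨hp.ne_zero⟩
  have hA0 : 0 < A := by linarith
  rw [mT_eq]
  have h1 := h.m1 p hp
  have h2 : |EM p (fun c => trunc A (U p c)) - EM p (U p)| ≤ C / A ^ 3 := by
    rw [← EM_sub']
    refine (abs_EM_le_EM p _ (fun c => 1 / A ^ 3 * U p c ^ 4) fun c =>
      (trunc_diff hA0 _).trans (le_of_eq (by ring))).trans ?_
    rw [EM_mul']
    have := h.m4 p hp
    calc 1 / A ^ 3 * EM p (fun c => U p c ^ 4) ≤ 1 / A ^ 3 * C := by gcongr
      _ = _ := by ring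
  have e : EM p (fun c => trunc A (U p c)) - μ =
      (EM p (fun c => trunc A (U p c)) - EM p (U p)) + (EM p (U p) - μ) := by ring
  rw [e]
  calc _ ≤ _ := abs_add_le _ _
    _ ≤ C / A ^ 3 + C / p := add_le_add h2 h1
    _ = _ := by ring

theorem LD.sq (h : LD U μ μ2 C) {A : ℝ} (hA : 1 ≤ A) (p : ℕ) (hp : p.Prime) [NeZero p] :
    |EM p (fun c => trunc A (U p c) ^ 2) - μ2| ≤ C * (1 / p + 1 / A ^ 2) := by
  have hA0 : 0 < A := by linarith
  have h1 := h.m2 p hp
  have h2 : |EM p (fun c => trunc A (U p c) ^ 2) - EM p (fun c => U p c ^ 2)| ≤ C / A ^ 2 := by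
    rw [← EM_sub']
    refine (abs_EM_le_EM p _ (fun c => 1 / A ^ 2 * U p c ^ 4) fun c =>
      (trunc_sq hA0 _).trans (le_of_eq (by ring))).trans ?_
    rw [EM_mul']
    have := h.m4 p hp
    calc 1 / A ^ 2 * EM p (fun c => U p c ^ 4) ≤ 1 / A ^ 2 * C := by gcongr
      _ = _ := by ring
  have e : EM p (fun c => trunc A (U p c) ^ 2) - μ2 =
      (EM p (fun c => trunc A (U p c) ^ 2) - EM p (fun c => U p c ^ 2)) +
      (EM p (fun c => U p c ^ 2) - μ2) := by ring
  rw [e]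
  calc _ ≤ _ := abs_add_le _ _
    _ ≤ C / A ^ 2 + C / p := add_le_add h2 h1
    _ = _ := by ring

/-- The truncated centred data with weights. -/
noncomputable def ZT (U : ∀ p : ℕ, (ι → ZMod p) → ℝ) (A : ℝ) (w : ℕ → ℝ) (p : ℕ)
    (c : ι → ZMod p) : ℝ := w p * (trunc A (U p c) - mT U A p)

theorem ZT_mean (A : ℝ) (w : ℕ → ℝ) (p : ℕ) [NeZero p] : EM p (ZT U A w p) = 0 := by
  have e : ZT U A w p = fun c => w p * (trunc A (U p c) - mT U A p) := rfl
  rw [e, EM_mul', EM_sub', EM_const', ← mT_eq, sub_self, mul_zero]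

theorem ZT_abs {A : ℝ} (hA : 0 ≤ A) (w : ℕ → ℝ) (p : ℕ) [NeZero p] (hw : |w p| ≤ 1)
    (c : ι → ZMod p) : |ZT U A w p c| ≤ 2 * A := by
  unfold ZT
  rw [abs_mul]
  have h1 : |trunc A (U p c) - mT U A p| ≤ 2 * A := by
    have h2 : |mT U A p| ≤ A := by
      rw [mT_eq]
      have h3 := abs_EM_le_EM p (fun c => trunc A (U p c)) (fun _ => A) fun c => trunc_abs hA _
      rwa [EM_const'] at h3
    exact (abs_sub _ _).trans (by have := trunc_abs hA (U p c); linarith)
  calc |w p| * |trunc A (U p c) - mT U A p| ≤ 1 * (2 * A) := by gcongr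
    _ = _ := one_mul _

theorem ZT_var (h : LD U μ μ2 C) {A : ℝ} (hA : 1 ≤ A) (w : ℕ → ℝ) (p : ℕ) (hp : p.Prime)
    (hw : |w p| ≤ 1) :
    |vv (ZT U A w) p - (μ2 - μ ^ 2) * w p ^ 2| ≤
      (C + C * (2 * |μ| + 2 * C)) * (1 / p + 1 / A ^ 2) := by
  have : NeZero p := ⟨hp.ne_zero⟩
  have hC := h.C0
  have hp1 : (1 : ℝ) ≤ p := by exact_mod_cast hp.one_lt.le
  have hp0 : (0 : ℝ) < p := by linarith
  have hA0 : 0 < A := by linarith
  set m := mT U A p with hm
  set s := EM p (fun c => trunc A (U p c) ^ 2) with hs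
  have e : vv (ZT U A w) p = w p ^ 2 * (s - m ^ 2) := by
    rw [vv_eq]
    have e1 : (fun c => ZT U A w p c ^ 2) = fun c =>
        w p ^ 2 * ((trunc A (U p c) ^ 2 + (-2 * m) * trunc A (U p c)) + m ^ 2) := by
      funext c
      unfold ZT
      rw [← hm]
      ring
    rw [e1, EM_mul', EM_add', EM_add', EM_mul', EM_const', ← mT_eq, ← hm, ← hs]
    ring
  have h1 := h.sq hA p hp
  rw [← hs] at h1
  have h2 := h.mean hA p hp
  rw [← hm] at h2
  have hA3 : 1 / A ^ 3 ≤ 1 / A ^ 2 := by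
    apply one_div_le_one_div_of_le (by positivity)
    exact pow_le_pow_right₀ hA (by norm_num)
  have hq0 : 0 ≤ 1 / (p : ℝ) + 1 / A ^ 2 := by positivity
  have h3 : |m - μ| ≤ C * (1 / p + 1 / A ^ 2) := by
    refine h2.trans ?_
    gcongr
  have h4 : |m - μ| ≤ 2 * C := by
    refine h3.trans ?_
    have h5 : 1 / (p : ℝ) ≤ 1 := by rw [div_le_one hp0]; exact hp1
    have h6 : 1 / A ^ 2 ≤ 1 := by
      rw [div_le_one (by positivity)]
      exact one_le_pow₀ hA
    calc C * (1 / p + 1 / A ^ 2) ≤ C * (1 + 1) := by gcongr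
      _ = 2 * C := by ring
  have h7 : |m + μ| ≤ 2 * |μ| + 2 * C := by
    have e2 : m + μ = (m - μ) + 2 * μ := by ring
    rw [e2]
    refine (abs_add_le _ _).trans ?_
    rw [abs_mul, abs_of_pos (by norm_num : (0 : ℝ) < 2)]
    linarith
  have h8 : |m ^ 2 - μ ^ 2| ≤ C * (1 / p + 1 / A ^ 2) * (2 * |μ| + 2 * C) := by
    have e3 : m ^ 2 - μ ^ 2 = (m - μ) * (m + μ) := by ring
    rw [e3, abs_mul]
    exact mul_le_mul h3 h7 (abs_nonneg _) (by positivity)
  rw [e]
  have e4 : w p ^ 2 * (s - m ^ 2) - (μ2 - μ ^ 2) * w p ^ 2 =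
      w p ^ 2 * ((s - μ2) - (m ^ 2 - μ ^ 2)) := by ring
  have hw2 : w p ^ 2 ≤ 1 := by rw [← sq_abs]; exact pow_le_one₀ (abs_nonneg _) hw
  rw [e4, abs_mul, abs_of_nonneg (sq_nonneg _)]
  calc w p ^ 2 * |(s - μ2) - (m ^ 2 - μ ^ 2)| ≤ 1 * (|s - μ2| + |m ^ 2 - μ ^ 2|) := by
        gcongr
        exact abs_sub _ _
    _ ≤ 1 * (C * (1 / p + 1 / A ^ 2) + C * (1 / p + 1 / A ^ 2) * (2 * |μ| + 2 * C)) := by gcongr
    _ = _ := by ring

theorem ineq1 {a : ℝ} (h : 1 ≤ a) : 2 + 8 * a + a ^ 2 ≤ 11 * a ^ 2 := by nlinarith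

theorem ok_of (h : LD U μ μ2 C) {v δ κ C' a σ N W : ℝ} {k : ℕ} (hv : μ2 - μ ^ 2 = v) (hv0 : 0 < v)
    (hδ : 0 < δ) (hκ0 : 0 < κ) (hC' : C + C * (2 * |μ| + 2 * C) = C')
    (hC'0 : 0 ≤ C')
    (ha1 : 1 ≤ a) (P : Finset ℕ) (w : ℕ → ℝ) (y H : ℕ) (hN : (P.card : ℝ) = N) (ha8 : a ^ 8 = N)
    (p1 : 2 * ((k : ℝ) + 1) ≤ κ * a) (p2 : 11 * C' * ((k : ℝ) + 1) ≤ v * δ * a)
    (p3 : 11 * C * ((k : ℝ) + 1) ≤ κ * a) (p4 : 2 ^ Fintype.card ι * C * ((k : ℝ) + 1) ≤ a)
    (hP : ∀ p ∈ P, p.Prime ∧ p ≤ y) (hw : ∀ p ∈ P, |w p| ≤ 1) (hW : ∑ p ∈ P, w p ^ 2 = W)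
    (hWN : δ * N ≤ W)
    (hσ0 : 0 < σ) (hσ2 : σ ^ 2 = v * W) (hσa : κ * a ^ 4 ≤ σ)
    (hky : k ≤ y) (hyH : y ^ k ≤ H) (hyH1 : y ≤ H) (hsuminv : ∑ p ∈ P, (1 : ℝ) / p ≤ 2 + 8 * a) :
    (⟨P, y, H, ZT U (a ^ 3) w, fun c => (∑ p ∈ P, w p * (U p (red p c) - μ)) / σ, σ⟩ :
      Dat2 ι).Ok k := by
  classical
  have hC := h.C0
  have hk0 : (0 : ℝ) < (k : ℝ) + 1 := by positivity
  have hap : 0 < a := by linarith
  obtain ⟨A, hA⟩ : ∃ A : ℝ, A = a ^ 3 := ⟨_, rfl⟩
  rw [← hA]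
  have hA1 : 1 ≤ A := by rw [hA]; exact one_le_pow₀ ha1
  have hA0 : 0 < A := by linarith
  have hκa : 0 < κ * a ^ 4 := by positivity
  exact
    { prime := fun p hp => (hP p hp).1
      le := fun p hp => (hP p hp).2
      pos := hσ0
      bound := fun p hp c => by
        have : NeZero p := ⟨(hP p hp).1.ne_zero⟩
        refine (ZT_abs hA0.le w p (hw p hp) c).trans ?_
        rw [le_div_iff₀ hk0]
        calc 2 * A * (k + 1) = (2 * (k + 1)) * a ^ 3 := by rw [hA]; ring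
          _ ≤ (κ * a) * a ^ 3 := by gcongr
          _ = κ * a ^ 4 := by ring
          _ ≤ σ := hσa
      mean := fun p _ _ => ZT_mean A w p
      var := by
        show |VP (ZT U A w) P - σ ^ 2| ≤ σ ^ 2 / (k + 1)
        have e1 : VP (ZT U A w) P - σ ^ 2 = ∑ p ∈ P, (vv (ZT U A w) p - v * w p ^ 2) := by
          rw [hσ2, Finset.sum_sub_distrib, ← Finset.mul_sum, hW]
          rfl
        rw [e1]
        have h1 : |∑ p ∈ P, (vv (ZT U A w) p - v * w p ^ 2)| ≤ C' * (2 + 8 * a + a ^ 2) := by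
          refine (Finset.abs_sum_le_sum_abs _ _).trans ?_
          calc ∑ p ∈ P, |vv (ZT U A w) p - v * w p ^ 2|
              ≤ ∑ p ∈ P, C' * (1 / p + 1 / A ^ 2) :=
                Finset.sum_le_sum fun p hp => by
                  have h3 := ZT_var h hA1 w p (hP p hp).1 (hw p hp)
                  rwa [hv, hC'] at h3
            _ = C' * (∑ p ∈ P, (1 : ℝ) / p + N * (1 / A ^ 2)) := by
                rw [← Finset.mul_sum, Finset.sum_add_distrib, Finset.sum_const, nsmul_eq_mul, hN]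
            _ ≤ C' * (2 + 8 * a + a ^ 2) := by
                have e2 : N * (1 / A ^ 2) = a ^ 2 := by
                  rw [← ha8, hA]; field_simp
                rw [e2]
                gcongr
        refine h1.trans ?_
        rw [le_div_iff₀ hk0]
        have h2 : 2 + 8 * a + a ^ 2 ≤ 11 * a ^ 2 := ineq1 ha1
        calc C' * (2 + 8 * a + a ^ 2) * (k + 1) ≤ C' * (11 * a ^ 2) * (k + 1) := by gcongr
          _ = (11 * C' * (k + 1)) * a ^ 2 := by ring
          _ ≤ (v * δ * a) * a ^ 2 := by gcongr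
          _ = v * δ * a ^ 3 := by ring
          _ ≤ v * δ * a ^ 8 := by
              have : a ^ 3 ≤ a ^ 8 := pow_le_pow_right₀ ha1 (by norm_num)
              gcongr
          _ = v * (δ * N) := by rw [ha8]; ring
          _ ≤ v * W := by gcongr
          _ = σ ^ 2 := hσ2.symm
      size := by
        show k ≤ y
        omega
      high := hyH
      near := by
        obtain ⟨Q, hQ⟩ : ∃ Q : (ι → ℤ) → ℝ, Q = fun c => (∑ p ∈ P, w p * (U p (red p c) - μ)) / σ :=
          ⟨_, rfl⟩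
        show EB H (far (fun c => (∑ p ∈ P, w p * (U p (red p c) - μ)) / σ)
          (fun c => SP (ZT U A w) P c / σ) (1 / (k + 1))) ≤ 1 / (k + 1)
        rw [← hQ]
        have h1 : ∀ c, far Q (fun c => SP (ZT U A w) P c / σ) (1 / (k + 1)) c ≤
            ∑ p ∈ P, big A (U p (red p c)) := by
          intro c
          by_cases hall : ∀ p ∈ P, |U p (red p c)| ≤ A
          · unfold far
            rw [if_pos]
            · exact Finset.sum_nonneg fun p _ => big_nonneg _ _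
            · have e2 : Q c - SP (ZT U A w) P c / σ = (∑ p ∈ P, w p * (mT U A p - μ)) / σ := by
                rw [hQ]
                simp only []
                unfold SP
                rw [← sub_div, ← Finset.sum_sub_distrib]
                congr 1
                refine Finset.sum_congr rfl fun p hp => ?_
                unfold ZT trunc
                rw [if_pos (hall p hp)]
                ring
              rw [e2, abs_div, abs_of_pos hσ0, div_le_div_iff₀ hσ0 hk0, one_mul]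
              have h2 : |∑ p ∈ P, w p * (mT U A p - μ)| ≤ C * (3 + 8 * a) := by
                refine (Finset.abs_sum_le_sum_abs _ _).trans ?_
                calc ∑ p ∈ P, |w p * (mT U A p - μ)| ≤ ∑ p ∈ P, C * (1 / p + 1 / A ^ 3) := by
                      refine Finset.sum_le_sum fun p hp => ?_
                      rw [abs_mul]
                      have h3 := h.mean hA1 p (hP p hp).1
                      calc |w p| * |mT U A p - μ| ≤ 1 * (C * (1 / p + 1 / A ^ 3)) :=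
                            mul_le_mul (hw p hp) h3 (abs_nonneg _) zero_le_one
                        _ = _ := one_mul _
                  _ = C * (∑ p ∈ P, (1 : ℝ) / p + N * (1 / A ^ 3)) := by
                      rw [← Finset.mul_sum, Finset.sum_add_distrib, Finset.sum_const, nsmul_eq_mul,
                        hN]
                  _ ≤ C * (3 + 8 * a) := by
                      have e3 : N * (1 / A ^ 3) ≤ 1 := by
                        rw [mul_one_div, div_le_one (by positivity), ← ha8, hA, ← pow_mul]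
                        exact pow_le_pow_right₀ ha1 (by norm_num)
                      refine mul_le_mul_of_nonneg_left ?_ hC
                      linarith
              have h4 : 3 + 8 * a ≤ 11 * a := by linarith
              calc |∑ p ∈ P, w p * (mT U A p - μ)| * (k + 1) ≤ C * (3 + 8 * a) * (k + 1) := by gcongr
                _ ≤ C * (11 * a) * (k + 1) := by gcongr
                _ = (11 * C * (k + 1)) * a := by ring
                _ ≤ (κ * a) * a := by gcongr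
                _ = κ * a ^ 2 := by ring
                _ ≤ κ * a ^ 4 := by
                    have : a ^ 2 ≤ a ^ 4 := pow_le_pow_right₀ ha1 (by norm_num)
                    gcongr
                _ ≤ σ := hσa
          · push Not at hall
            obtain ⟨q, hq, hqA⟩ := hall
            have h2 : far Q (fun c => SP (ZT U A w) P c / σ) (1 / (k + 1)) c ≤ 1 := by
              unfold far; split_ifs <;> norm_num
            refine h2.trans ?_
            have h3 : big A (U q (red q c)) = 1 := by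
              unfold big
              rw [if_neg (not_le.mpr hqA)]
            rw [← h3]
            exact Finset.single_le_sum (f := fun p => big A (U p (red p c)))
              (fun p _ => big_nonneg _ _) hq
        refine (EB_mono H _ _ h1).trans ?_
        rw [EB_sum]
        have h5 : ∀ p ∈ P, EB H (fun c => big A (U p (red p c))) ≤
            2 ^ Fintype.card ι * (C / A ^ 4) := by
          intro p hp
          have : NeZero p := ⟨(hP p hp).1.ne_zero⟩
          have hpH : p ≤ 2 * H + 1 := by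
            have := (hP p hp).2
            omega
          refine (EB_le H p hpH (fun c => big A (U p c)) (fun c => big_nonneg _ _)).trans ?_
          gcongr
          have h6 : EM p (fun c => big A (U p c)) ≤ EM p (fun c => 1 / A ^ 4 * U p c ^ 4) :=
            EM_monoV p _ _ fun c => (big_le hA0 _).trans (le_of_eq (by ring))
          rw [EM_mul'] at h6
          have h7 := h.m4 p (hP p hp).1
          calc EM p (fun c => big A (U p c)) ≤ 1 / A ^ 4 * EM p (fun c => U p c ^ 4) := h6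
            _ ≤ 1 / A ^ 4 * C := by gcongr
            _ = C / A ^ 4 := by ring
        refine (Finset.sum_le_sum h5).trans ?_
        rw [Finset.sum_const, nsmul_eq_mul, hN]
        have e4 : N * (2 ^ Fintype.card ι * (C / A ^ 4)) = 2 ^ Fintype.card ι * C / a ^ 4 := by
          rw [← ha8, hA]
          field_simp
        rw [e4, div_le_div_iff₀ (by positivity) hk0, one_mul]
        refine p4.trans ?_
        exact le_self_pow₀ ha1 (by norm_num) }

theorem exists_root {N : ℝ} (hN0 : 0 ≤ N) : ∃ a : ℝ, 0 ≤ a ∧ a ^ 8 = N := by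
  refine ⟨√(√(√N)), Real.sqrt_nonneg _, ?_⟩
  have e1 : √(√(√N)) ^ 8 = ((√(√(√N)) ^ 2) ^ 2) ^ 2 := by ring
  rw [e1, Real.sq_sqrt (Real.sqrt_nonneg _), Real.sq_sqrt (Real.sqrt_nonneg _), Real.sq_sqrt hN0]

theorem exists_const {κ b : ℝ} (hκ : 0 < κ) (hb : 0 < b) (c1 c2 c3 c4 : ℝ) :
    ∃ a0 : ℝ, 1 ≤ a0 ∧ ∀ a, a0 ≤ a → c1 ≤ κ * a ∧ c2 ≤ b * a ∧ c3 ≤ κ * a ∧ c4 ≤ a := by
  have h1 : ∀ᶠ a : ℝ in atTop, c1 ≤ κ * a := (tendsto_id.const_mul_atTop hκ).eventually_ge_atTop _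
  have h2 : ∀ᶠ a : ℝ in atTop, c2 ≤ b * a := (tendsto_id.const_mul_atTop hb).eventually_ge_atTop _
  have h3 : ∀ᶠ a : ℝ in atTop, c3 ≤ κ * a := (tendsto_id.const_mul_atTop hκ).eventually_ge_atTop _
  have h4 : ∀ᶠ a : ℝ in atTop, c4 ≤ a := eventually_ge_atTop _
  obtain ⟨a0, ha0⟩ := eventually_atTop.1 (h1.and (h2.and (h3.and h4)))
  exact ⟨max 1 a0, le_max_left _ _, fun a ha => ha0 a ((le_max_right _ _).trans ha)⟩

/-- **The normal law for local data with bounded fourth moments.** -/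
theorem abs_law (h : LD U μ μ2 C) (hv : 0 < μ2 - μ ^ 2) {δ : ℝ} (hδ : 0 < δ) (u : ℝ) {ε : ℝ}
    (hε : 0 < ε) :
    ∃ K : ℕ, ∀ (P : Finset ℕ) (w : ℕ → ℝ) (y H : ℕ), (∀ p ∈ P, p.Prime ∧ p ≤ y) →
      (∀ p ∈ P, |w p| ≤ 1) → δ * P.card ≤ ∑ p ∈ P, w p ^ 2 → K ≤ P.card → y ^ K ≤ H →
      |(law H (fun c => (∑ p ∈ P, w p * (U p (red p c) - μ)) /
        √((μ2 - μ ^ 2) * ∑ p ∈ P, w p ^ 2))).real (Set.Iic u) -
          (gaussianReal 0 1).real (Set.Iic u)| ≤ ε := by
  classical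
  obtain ⟨k, hk⟩ := unif_law2 (ι := ι) u hε
  have hC := h.C0
  obtain ⟨v, hvd⟩ : ∃ v : ℝ, μ2 - μ ^ 2 = v := ⟨_, rfl⟩
  rw [hvd] at hv ⊢
  obtain ⟨κ, hκ⟩ : ∃ κ : ℝ, κ = √(v * δ) := ⟨_, rfl⟩
  have hκ0 : 0 < κ := by rw [hκ]; exact Real.sqrt_pos.2 (by positivity)
  have hκ2 : κ ^ 2 = v * δ := by rw [hκ]; exact Real.sq_sqrt (by positivity)
  obtain ⟨C', hC'⟩ : ∃ C' : ℝ, C + C * (2 * |μ| + 2 * C) = C' := ⟨_, rfl⟩
  have hC'0 : 0 ≤ C' := by rw [← hC']; positivity
  obtain ⟨a0, ha01, hac⟩ := exists_const hκ0 (show 0 < v * δ by positivity)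
    (2 * ((k : ℝ) + 1)) (11 * C' * ((k : ℝ) + 1)) (11 * C * ((k : ℝ) + 1))
    (2 ^ Fintype.card ι * C * ((k : ℝ) + 1))
  obtain ⟨K, hK⟩ := exists_nat_ge (a0 ^ 8)
  refine ⟨max K (k + 1), fun P w y H hP hw hvar hcard hH => ?_⟩
  obtain ⟨N, hN⟩ : ∃ N : ℝ, (P.card : ℝ) = N := ⟨_, rfl⟩
  rw [hN] at hvar
  have hKc : K ≤ P.card := (le_max_left K (k + 1)).trans hcard
  have hkc : k + 1 ≤ P.card := (le_max_right K (k + 1)).trans hcard
  have hKN : a0 ^ 8 ≤ N := by
    refine hK.trans ?_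
    rw [← hN]
    exact_mod_cast hKc
  have hN0 : 0 ≤ N := by rw [← hN]; exact Nat.cast_nonneg _
  obtain ⟨a, ha0', ha8⟩ := exists_root hN0
  have haa : a0 ≤ a := by
    rw [← ha8] at hKN
    exact le_of_pow_le_pow_left₀ (by norm_num) ha0' hKN
  have ha1 : 1 ≤ a := ha01.trans haa
  have hap : 0 < a := lt_of_lt_of_le one_pos ha1
  obtain ⟨p1, p2, p3, p4⟩ := hac a haa
  obtain ⟨W, hW⟩ : ∃ W : ℝ, ∑ p ∈ P, w p ^ 2 = W := ⟨_, rfl⟩
  rw [hW] at hvar ⊢
  have hW0 : 0 < W := lt_of_lt_of_le (by rw [← ha8]; positivity) hvar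
  obtain ⟨σ, hσ⟩ : ∃ σ : ℝ, √(v * W) = σ := ⟨_, rfl⟩
  rw [hσ]
  have hσ0 : 0 < σ := by rw [← hσ]; exact Real.sqrt_pos.2 (by positivity)
  have hσ2 : σ ^ 2 = v * W := by rw [← hσ]; exact Real.sq_sqrt (by positivity)
  have hσa : κ * a ^ 4 ≤ σ := by
    refine le_of_pow_le_pow_left₀ (n := 2) (by norm_num) hσ0.le ?_
    rw [mul_pow, hκ2, hσ2, ← pow_mul, ha8, mul_assoc]
    exact mul_le_mul_of_nonneg_left hvar hv.le
  have hlogN : Real.log N ≤ 8 * a := by
    rw [← ha8, Real.log_pow]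
    have h1 := Real.log_le_sub_one_of_pos hap
    push_cast
    linarith
  have hsuminv : ∑ p ∈ P, (1 : ℝ) / p ≤ 2 + 8 * a := by
    refine (sum_inv_le P fun p hp => (hP p hp).1.one_lt.le).trans ?_
    rw [hN]
    linarith
  have hy1 : k + 1 ≤ y := by
    have h1 : P ⊆ Finset.Icc 1 y := by
      intro p hp
      rw [Finset.mem_Icc]
      exact ⟨(hP p hp).1.pos, (hP p hp).2⟩
    have h2 := Finset.card_le_card h1
    rw [Nat.card_Icc] at h2
    omega
  have hyH : y ^ k ≤ H :=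
    (Nat.pow_le_pow_right (by omega) ((Nat.le_succ k).trans (le_max_right K (k + 1)))).trans hH
  have hyH1 : y ≤ H := by
    refine le_trans ?_ hH
    exact Nat.le_self_pow (by have := le_max_right K (k + 1); omega) y
  have hOk := ok_of h hvd hv hδ hκ0 hC' hC'0 ha1 P w y H hN ha8 p1 p2 p3 p4 hP hw hW hvar hσ0
    hσ2 hσa (by omega) hyH hyH1 hsuminv
  have hfin := hk ⟨P, y, H, ZT U (a ^ 3) w, fun c => (∑ p ∈ P, w p * (U p (red p c) - μ)) / σ, σ⟩ hOk
  clear hOk
  dsimp only at hfin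
  exact hfin

end Pool.Agent.X280.HG
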