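import Pool.Agent.X280.HG.Local
import Pool.Agent.X280.HG.Main

/-!
# Hypersurfaces of any dimension: the first moments of the normalised traces
-/

set_option autoImplicit false
set_option linter.unusedSectionVars false

namespace Pool.Agent.X280.HG

open Finset hiding val
open Pool.Agent.Y722.HS Pool.Agent.X280.BP Pool.Agent.X280.UC

/-- The normalised trace of a hypersurface of dimension `n` in `ℙ^{n+1}`. -/
noncomputable def at' (n d p : ℕ) (c : Mon (n + 1) d → ZMod p) : ℝ :=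
  ((cone c : ℝ) / (p - 1) - ∑ i ∈ range (n + 1), (p : ℝ) ^ i) / √((p : ℝ) ^ n)

theorem at_eq {n d p : ℕ} [hp : Fact p.Prime] (c : Mon (n + 1) d → ZMod p) :
    at' n d p c = SF univ c / √((p : ℝ) ^ n) + 1 / (p * √((p : ℝ) ^ n)) := by
  classical
  have hp0 : (0 : ℝ) < p := p_pos'
  have hs0 : 0 < √((p : ℝ) ^ n) := Real.sqrt_pos.2 (by positivity)
  have h1 : SF (univ : Finset (PS p (n + 1))) c = (cone c : ℝ) / (p - 1) -
      (∑ i ∈ range (n + 1 + 1), (p : ℝ) ^ i) / p := by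
    rw [cone_div, ← card_PS]
    unfold SF zi
    rw [Finset.sum_sub_distrib, Finset.sum_const, Finset.card_univ, nsmul_eq_mul]
    ring
  have h2 : (∑ i ∈ range (n + 1 + 1), (p : ℝ) ^ i) / p =
      ∑ i ∈ range (n + 1), (p : ℝ) ^ i + 1 / p := by
    rw [Finset.sum_range_succ', pow_zero, add_div]
    congr 1
    rw [Finset.sum_div]
    refine Finset.sum_congr rfl fun i _ => ?_
    rw [pow_succ]
    field_simp
  unfold at'
  rw [h1, h2]
  field_simp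
  ring

/-- The even moments of the main part. -/
theorem EM_sd (h : ℕ) : ∃ C : ℝ, 0 ≤ C ∧ ∀ (n d : ℕ), 1 ≤ n → 2 * h ≤ d + 1 → ∀ p : ℕ,
    ∀ [Fact p.Prime],
    |EM p (fun c : Mon (n + 1) d → ZMod p => (SF univ c / √((p : ℝ) ^ n)) ^ (2 * h)) - dd h| ≤
      C / p := by
  obtain ⟨C, hC0, hC⟩ := exists_asy (2 * h)
  refine ⟨C + |gm (2 * h)| * (2 * h : ℕ), by positivity, fun n d hn hj p hpf => ?_⟩
  have hp1 : (1 : ℝ) < p := by exact_mod_cast hpf.out.one_lt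
  have hp0 : (0 : ℝ) < p := by linarith
  obtain ⟨G, hG⟩ : ∃ G : ℕ, G = (univ : Finset (PS p (n + 1))).card := ⟨_, rfl⟩
  have hGc : (G : ℝ) = ∑ i ∈ range (n + 1 + 1), (p : ℝ) ^ i := by
    rw [hG, Finset.card_univ, card_PS]
  have hGp : (G : ℝ) * (p - 1) = (p : ℝ) ^ (n + 2) - 1 := by
    rw [hGc, geom_sum_mul]
  obtain ⟨R, hR⟩ : ∃ R : ℝ, R = (p : ℝ) ^ n := ⟨_, rfl⟩
  rw [← hR]
  have hR0 : 0 < R := by rw [hR]; positivity
  have hR1 : 1 ≤ R := by rw [hR]; exact one_le_pow₀ hp1.le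
  have hpR : (p : ℝ) ≤ R := by
    rw [hR]
    calc (p : ℝ) = (p : ℝ) ^ 1 := (pow_one _).symm
      _ ≤ _ := pow_le_pow_right₀ hp1.le hn
  have hGq : (G : ℝ) * ((1 / p) * (1 - 1 / p)) = R - 1 / (p : ℝ) ^ 2 := by
    have e : (G : ℝ) * ((1 / p) * (1 - 1 / p)) = (G * (p - 1)) / (p : ℝ) ^ 2 := by
      field_simp
    rw [e, hGp, hR, pow_add]
    field_simp
  have hGR : (G : ℝ) * ((1 / p) * (1 - 1 / p)) ≤ R := by
    rw [hGq]
    have : (0 : ℝ) ≤ 1 / (p : ℝ) ^ 2 := by positivity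
    linarith
  have h1 := hC (ez p) _ adm_ez G R hR1 hGR
  have e1 : EM p (fun c : Mon (n + 1) d → ZMod p => (SF univ c / √R) ^ (2 * h)) =
      ME (ez p) G (2 * h) / R ^ h := by
    have e2 : (fun c : Mon (n + 1) d → ZMod p => (SF univ c / √R) ^ (2 * h)) =
        fun c => (1 / R ^ h) * SF univ c ^ (2 * h) := by
      funext c
      rw [div_pow, pow_mul (√R), Real.sq_sqrt hR0.le]; ring
    rw [e2, EM_mul', EM_SF univ (2 * h) hj, hG]
    ring
  rw [e1]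
  obtain ⟨M, hM⟩ : ∃ M : ℝ, M = ME (ez p) G (2 * h) := ⟨_, rfl⟩
  rw [← hM] at h1 ⊢
  rw [if_pos ⟨h, by ring⟩, show 2 * h / 2 = h by omega] at h1
  obtain ⟨x, hx⟩ : ∃ x : ℝ, x = (G : ℝ) * ((1 / p) * (1 - 1 / p)) := ⟨_, rfl⟩
  rw [← hx] at h1 hGR hGq
  have hx0 : 0 ≤ x := by
    rw [hx]
    have : (0 : ℝ) ≤ 1 - 1 / p := by
      rw [sub_nonneg, div_le_one hp0]; exact hp1.le
    positivity
  have hRh : 0 < R ^ h := by positivity
  have b1 : |M / R ^ h - gm (2 * h) * (x / R) ^ h| ≤ C / p := by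
    have e4 : M / R ^ h - gm (2 * h) * (x / R) ^ h = (M - gm (2 * h) * x ^ h) / R ^ h := by
      rw [div_pow]; field_simp
    rw [e4, abs_div, abs_of_pos hRh, div_le_iff₀ hRh]
    have h5 : |M - gm (2 * h) * x ^ h| * p ≤ C * R ^ h := by
      refine le_trans ?_ h1
      gcongr
    rw [div_mul_eq_mul_div, le_div_iff₀ hp0]
    exact h5
  have b2 : |gm (2 * h) * (x / R) ^ h - gm (2 * h)| ≤ |gm (2 * h)| * (2 * h : ℕ) / p := by
    have e5 : gm (2 * h) * (x / R) ^ h - gm (2 * h) = gm (2 * h) * ((x / R) ^ h - 1) := by ring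
    rw [e5, abs_mul]
    suffices key : |(x / R) ^ h - 1| ≤ ((2 * h : ℕ) : ℝ) / p by
      calc |gm (2 * h)| * |(x / R) ^ h - 1| ≤ |gm (2 * h)| * (((2 * h : ℕ) : ℝ) / p) :=
            mul_le_mul_of_nonneg_left key (abs_nonneg _)
        _ = _ := by ring
    have hxR : x / R ≤ 1 := by rw [div_le_one hR0]; exact hGR
    have hxR0 : 0 ≤ x / R := by positivity
    have h6 : (x / R) ^ h ≤ 1 := pow_le_one₀ hxR0 hxR
    rw [abs_sub_comm, abs_of_nonneg (by linarith)]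
    have h7 := one_add_mul_le_pow (a := x / R - 1) (by linarith) h
    have e6 : 1 + (x / R - 1) = x / R := by ring
    rw [e6] at h7
    have e7 : 1 - x / R = 1 / (R * (p : ℝ) ^ 2) := by
      rw [hGq]
      field_simp
      ring
    have h8 : 1 / (R * (p : ℝ) ^ 2) ≤ 1 / p := by
      apply one_div_le_one_div_of_le hp0
      calc (p : ℝ) ≤ R := hpR
        _ = R * 1 := (mul_one R).symm
        _ ≤ R * (p : ℝ) ^ 2 := mul_le_mul_of_nonneg_left (one_le_pow₀ hp1.le) hR0.le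
    have h9 : (h : ℝ) * (1 - x / R) ≤ h * (1 / p) := by
      rw [e7]
      gcongr
    have h10 : (h : ℝ) * (1 / p) ≤ ((2 * h : ℕ) : ℝ) / p := by
      rw [mul_one_div]
      gcongr
      omega
    linarith
  have e8 : M / R ^ h - dd h = (M / R ^ h - gm (2 * h) * (x / R) ^ h) +
      (gm (2 * h) * (x / R) ^ h - gm (2 * h)) := by rw [gm_even]; ring
  rw [e8, add_div]
  exact (abs_add_le _ _).trans (add_le_add b1 b2)

/-- The mean of the main part. -/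
theorem EM_s1 {n d p : ℕ} [hp : Fact p.Prime] (t : ℝ) :
    EM p (fun c : Mon (n + 1) d → ZMod p => SF univ c / t) = 0 := by
  have e : (fun c : Mon (n + 1) d → ZMod p => SF univ c / t) = fun c =>
      (1 / t) * SF univ c ^ 1 := by
    funext c
    rw [pow_one]; ring
  rw [e, EM_mul', EM_SF univ 1 (by omega), (ME_one adm_ez _).2, mul_zero]

/-- **The first moments of the normalised traces.** -/
theorem EM_at : ∃ B : ℝ, 1 ≤ B ∧ ∀ (n d : ℕ), 1 ≤ n → 3 ≤ d → ∀ p : ℕ, ∀ [Fact p.Prime],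
    |EM p (fun c : Mon (n + 1) d → ZMod p => at' n d p c)| ≤ B / p ∧
    |EM p (fun c : Mon (n + 1) d → ZMod p => at' n d p c ^ 2) - 1| ≤ B / p ∧
    EM p (fun c : Mon (n + 1) d → ZMod p => at' n d p c ^ 4) ≤ B := by
  obtain ⟨C1, h10, h1⟩ := EM_sd 1
  obtain ⟨C2, h20, h2⟩ := EM_sd 2
  have hdd := dd_pos 2
  refine ⟨C1 + 8 * (C2 + dd 2 + 1) + 1, by linarith, fun n d hn hd p hpf => ?_⟩
  have hp1 : (1 : ℝ) < p := by exact_mod_cast hpf.out.one_lt
  have hp0 : (0 : ℝ) < p := by linarith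
  obtain ⟨δ, hδ⟩ : ∃ δ : ℝ, δ = 1 / (p * √((p : ℝ) ^ n)) := ⟨_, rfl⟩
  have hs1 : 1 ≤ √((p : ℝ) ^ n) := by
    rw [Real.one_le_sqrt]; exact one_le_pow₀ hp1.le
  have hδ0 : 0 ≤ δ := by rw [hδ]; positivity
  have hδp : δ ≤ 1 / p := by
    rw [hδ]
    apply one_div_le_one_div_of_le hp0
    calc (p : ℝ) = p * 1 := (mul_one _).symm
      _ ≤ p * √((p : ℝ) ^ n) := mul_le_mul_of_nonneg_left hs1 hp0.le
  have hip : 1 / (p : ℝ) ≤ 1 := by rw [div_le_one hp0]; exact hp1.le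
  have hδ1 : δ ≤ 1 := hδp.trans hip
  obtain ⟨s, hs⟩ : ∃ s : (Mon (n + 1) d → ZMod p) → ℝ, s = fun c => SF univ c / √((p : ℝ) ^ n) :=
    ⟨_, rfl⟩
  have hat : ∀ c : Mon (n + 1) d → ZMod p, at' n d p c = s c + δ := by
    intro c
    rw [at_eq, hs, hδ]
  have m1 : EM p s = 0 := by rw [hs]; exact EM_s1 _
  have m2 := h1 n d hn (by omega) p
  have m4 := h2 n d hn (by omega) p
  have e2 : (fun c : Mon (n + 1) d → ZMod p => (SF univ c / √((p : ℝ) ^ n)) ^ (2 * 1)) =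
      fun c => s c ^ 2 := by rw [hs]
  have e4 : (fun c : Mon (n + 1) d → ZMod p => (SF univ c / √((p : ℝ) ^ n)) ^ (2 * 2)) =
      fun c => s c ^ 4 := by rw [hs]
  have hdd1 : dd 1 = 1 := by simp [dd]
  rw [e2, hdd1] at m2
  rw [e4] at m4
  have hBp : ∀ x : ℝ, x ≤ C1 + 8 * (C2 + dd 2 + 1) + 1 →
      x / p ≤ (C1 + 8 * (C2 + dd 2 + 1) + 1) / p := by
    intro x hx
    gcongr
  simp only [hat]
  refine ⟨?_, ?_, ?_⟩
  · rw [EM_add', m1, EM_const', zero_add, abs_of_nonneg hδ0]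
    exact hδp.trans (hBp 1 (by linarith))
  · have e : (fun c : Mon (n + 1) d → ZMod p => (s c + δ) ^ 2) = fun c =>
        (s c ^ 2 + 2 * δ * s c) + δ ^ 2 := by
      funext c; ring
    rw [e, EM_add', EM_add', EM_mul', m1, EM_const', mul_zero, add_zero]
    have h5 : δ ^ 2 ≤ 1 / p := by
      refine le_trans ?_ hδp
      calc δ ^ 2 = δ * δ := by ring
        _ ≤ 1 * δ := by gcongr
        _ = δ := one_mul _
    have e6 : EM p (fun c => s c ^ 2) + δ ^ 2 - 1 = (EM p (fun c => s c ^ 2) - 1) + δ ^ 2 := by ring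
    rw [e6]
    refine (abs_add_le _ _).trans ?_
    rw [abs_of_nonneg (sq_nonneg δ)]
    calc |EM p (fun c => s c ^ 2) - 1| + δ ^ 2 ≤ C1 / p + 1 / p := add_le_add m2 h5
      _ = (C1 + 1) / p := by ring
      _ ≤ _ := hBp _ (by linarith)
  · have h6 : EM p (fun c => (s c + δ) ^ 4) ≤ EM p (fun c => 8 * s c ^ 4 + 8) := by
      refine EM_monoV p _ _ fun c => ?_
      have h7 : (s c + δ) ^ 2 ≤ 2 * (s c ^ 2 + δ ^ 2) := by nlinarith [sq_nonneg (s c - δ)]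
      have h8 : ((s c + δ) ^ 2) ^ 2 ≤ (2 * (s c ^ 2 + δ ^ 2)) ^ 2 :=
        pow_le_pow_left₀ (sq_nonneg _) h7 2
      have h9 : (2 * (s c ^ 2 + δ ^ 2)) ^ 2 ≤ 8 * (s c ^ 4 + δ ^ 4) := by
        nlinarith [sq_nonneg (s c ^ 2 - δ ^ 2)]
      have h10 : δ ^ 4 ≤ 1 := pow_le_one₀ hδ0 hδ1
      calc (s c + δ) ^ 4 = ((s c + δ) ^ 2) ^ 2 := by ring
        _ ≤ 8 * (s c ^ 4 + δ ^ 4) := h8.trans h9
        _ ≤ _ := by linarith
    rw [EM_add', EM_mul', EM_const'] at h6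
    have h11 : EM p (fun c => s c ^ 4) ≤ C2 + dd 2 := by
      have h12 := (abs_le.mp m4).2
      have h13 : C2 / p ≤ C2 := div_le_self h20 hp1.le
      linarith
    linarith

end Pool.Agent.X280.HG
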