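import Pool.Agent.X280.HG.Rec

/-!
# Moments of the normal law
-/

set_option autoImplicit false

namespace Pool.Agent.X280.HG

open Finset Polynomial MeasureTheory ProbabilityTheory Pool.Agent.X280.UC

/-- The polynomials in the derivatives of `exp (t² / 2)`. -/
noncomputable def PP : ℕ → ℝ[X]
  | 0 => 1
  | n + 1 => derivative (PP n) + X * PP n

theorem iter_exp (n : ℕ) : iteratedDeriv n (fun t : ℝ => Real.exp (t ^ 2 / 2)) =
    fun t => (PP n).eval t * Real.exp (t ^ 2 / 2) := by
  induction n with
  | zero => funext t; simp [PP]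
  | succ n ih =>
    rw [iteratedDeriv_succ, ih]
    funext t
    have h1 : HasDerivAt (fun t => (PP n).eval t) ((derivative (PP n)).eval t) t :=
      (PP n).hasDerivAt t
    have h2 : HasDerivAt (fun t : ℝ => Real.exp (t ^ 2 / 2)) (Real.exp (t ^ 2 / 2) * t) t := by
      have h3 : HasDerivAt (fun t : ℝ => t ^ 2 / 2) t t := by
        have h4 := (hasDerivAt_pow 2 t).div_const 2
        have e4 : ((2 : ℕ) : ℝ) * t ^ (2 - 1) / 2 = t := by
          norm_num
        rw [e4] at h4
        exact h4
      exact h3.exp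
    have h5 : HasDerivAt (fun t => (PP n).eval t * Real.exp (t ^ 2 / 2))
        ((derivative (PP n)).eval t * Real.exp (t ^ 2 / 2) +
          (PP n).eval t * (Real.exp (t ^ 2 / 2) * t)) t := h1.mul h2
    rw [h5.deriv, PP]
    simp only [eval_add, eval_mul, eval_X]
    ring

theorem PP_deriv (n : ℕ) : derivative (PP (n + 1)) = C ((n : ℝ) + 1) * PP n := by
  induction n with
  | zero => simp [PP]
  | succ n ih =>
    rw [PP, derivative_add, derivative_mul, derivative_X, ih, derivative_mul, derivative_C, zero_mul,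
      zero_add, one_mul]
    have e : C ((n : ℝ) + 1) * derivative (PP n) + (PP (n + 1) + X * (C ((n : ℝ) + 1) * PP n)) =
        C ((n : ℝ) + 1) * (derivative (PP n) + X * PP n) + PP (n + 1) := by ring
    rw [e]
    have e2 : derivative (PP n) + X * PP n = PP (n + 1) := by rw [PP]
    rw [e2]
    push_cast
    rw [C_add, C_add, C_add]
    simp only [C_1]
    ring

theorem gm_rec (n : ℕ) : gm (n + 2) = (n + 1) * gm n := by
  rcases Nat.even_or_odd n with h | h
  · obtain ⟨k, rfl⟩ : ∃ k, n = 2 * k := by
      obtain ⟨a, ha⟩ := h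
      exact ⟨a, by omega⟩
    rw [show 2 * k + 2 = 2 * (k + 1) by ring, gm_even, gm_even, dd]
    push_cast
    ring
  · obtain ⟨k, rfl⟩ := h
    rw [show 2 * k + 1 + 2 = 2 * (k + 1) + 1 by ring, gm_odd, gm_odd, mul_zero]

theorem PP_zero (n : ℕ) : (PP n).eval 0 = gm n := by
  induction n using Nat.twoStepInduction with
  | zero => simp [PP, gm, dd]
  | one => simp [PP, gm_odd 0]
  | more n ih _ =>
    rw [PP, eval_add, eval_mul, eval_X, zero_mul, add_zero, PP_deriv, eval_mul, eval_C, ih, gm_rec]

/-- The moments of the standard normal law. -/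
theorem gauss_mom (n : ℕ) : ∫ x : ℝ, x ^ n ∂(gaussianReal 0 1) = gm n := by
  have h1 := iteratedDeriv_mgf_zero (X := fun x : ℝ => x) (μ := gaussianReal 0 1) (by simp) n
  have h2 : mgf (fun x : ℝ => x) (gaussianReal 0 1) = fun t => Real.exp (t ^ 2 / 2) := by
    rw [mgf_fun_id_gaussianReal]
    funext t
    simp
  rw [h2, iter_exp] at h1
  simp only [PP_zero] at h1
  have h3 : Real.exp ((0 : ℝ) ^ 2 / 2) = 1 := by simp
  rw [h3, mul_one] at h1
  rw [h1]
  rfl

theorem integrable_pow_gauss (n : ℕ) : Integrable (fun x : ℝ => x ^ n) (gaussianReal 0 1) := by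
  have h := (memLp_id_gaussianReal (μ := 0) (v := 1) (n : NNReal)).integrable_norm_pow' 
  refine (integrable_norm_iff (by fun_prop)).1 ?_
  simpa [norm_pow] using h

/-- The expectation of a polynomial of a standard normal variable. -/
noncomputable def GM (ψ : ℝ[X]) : ℝ := ∫ x, ψ.eval x ∂(gaussianReal 0 1)

theorem integrable_poly (ψ : ℝ[X]) : Integrable (fun x : ℝ => ψ.eval x) (gaussianReal 0 1) := by
  have e : (fun x : ℝ => ψ.eval x) = fun x => ∑ k ∈ range (ψ.natDegree + 1), ψ.coeff k * x ^ k := by
    funext x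
    exact eval_eq_sum_range x
  rw [e]
  exact integrable_finsetSum _ fun k _ => (integrable_pow_gauss k).const_mul _

theorem GM_eq (ψ : ℝ[X]) : GM ψ = ∑ k ∈ range (ψ.natDegree + 1), ψ.coeff k * gm k := by
  unfold GM
  have e : (fun x : ℝ => ψ.eval x) = fun x => ∑ k ∈ range (ψ.natDegree + 1), ψ.coeff k * x ^ k := by
    funext x
    exact eval_eq_sum_range x
  rw [e, integral_finsetSum _ fun k _ => (integrable_pow_gauss k).const_mul _]
  refine Finset.sum_congr rfl fun k _ => ?_
  rw [integral_const_mul, gauss_mom]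

/-- The variance of a polynomial which is not constant is positive. -/
theorem GM_var (φ : ℝ[X]) (hφ : 0 < φ.natDegree) : 0 < GM (φ ^ 2) - GM φ ^ 2 := by
  have h1 : GM (φ ^ 2) - GM φ ^ 2 = ∫ x, (φ.eval x - GM φ) ^ 2 ∂(gaussianReal 0 1) := by
    have e : (fun x : ℝ => (φ.eval x - GM φ) ^ 2) = fun x =>
        ((φ ^ 2).eval x - 2 * GM φ * φ.eval x) + GM φ ^ 2 := by
      funext x
      rw [eval_pow]; ring
    rw [e, integral_add, integral_sub, integral_const_mul, integral_const]
    · unfold GM
      simp
      ring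
    · exact integrable_poly _
    · exact (integrable_poly φ).const_mul _
    · exact (integrable_poly _).sub ((integrable_poly φ).const_mul _)
    · exact integrable_const _
  rw [h1]
  have hint : Integrable (fun x : ℝ => (φ.eval x - GM φ) ^ 2) (gaussianReal 0 1) := by
    have e : (fun x : ℝ => (φ.eval x - GM φ) ^ 2) = fun x => ((φ - C (GM φ)) ^ 2).eval x := by
      funext x
      simp
    rw [e]
    exact integrable_poly _
  rw [integral_pos_iff_support_of_nonneg (fun x => sq_nonneg _) hint]
  rw [pos_iff_ne_zero]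
  intro h0
  have hne : φ - C (GM φ) ≠ 0 := by
    intro h
    have : φ = C (GM φ) := sub_eq_zero.mp h
    rw [this, natDegree_C] at hφ
    exact lt_irrefl _ hφ
  have hfin : (Function.support fun x : ℝ => (φ.eval x - GM φ) ^ 2)ᶜ.Finite := by
    refine (Multiset.finite_toSet (φ - C (GM φ)).roots).subset ?_
    intro x hx
    simp only [Set.mem_compl_iff, Function.mem_support, not_not] at hx
    have hx2 : φ.eval x - GM φ = 0 := pow_eq_zero_iff (by norm_num) |>.mp hx
    simp only [Set.mem_ofPred_eq]
    rw [mem_roots hne, IsRoot.def, eval_sub, eval_C]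
    exact hx2
  have h2 : gaussianReal 0 1 (Function.support fun x : ℝ => (φ.eval x - GM φ) ^ 2)ᶜ = 0 := by
    have := nullSingletonClass_gaussianReal (μ := 0) (v := 1) one_ne_zero
    exact hfin.measure_zero _
  have h3 := measure_univ (μ := gaussianReal 0 1)
  rw [← Set.union_compl_self (Function.support fun x : ℝ => (φ.eval x - GM φ) ^ 2)] at h3
  have h4 := measure_union_le (μ := gaussianReal 0 1)
    (Function.support fun x : ℝ => (φ.eval x - GM φ) ^ 2)
    (Function.support fun x : ℝ => (φ.eval x - GM φ) ^ 2)ᶜ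
  rw [h3, h0, h2, add_zero] at h4
  exact absurd h4 (by norm_num)

end Pool.Agent.X280.HG
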