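import Pool.Agent.X280.HG.Form
import Pool.Agent.Y722.HS.Mom2

/-!
# The moments of the traces of Frobenius of hypersurfaces
-/

set_option autoImplicit false
set_option linter.unusedSectionVars false

namespace Pool.Agent.X280.HG

open Finset hiding val
open Pool.Agent.Y722.HS Pool.Agent.X280.BP Pool.Agent.X280.UC

/-- The trace of Frobenius on the primitive part of the middle cohomology of a hypersurface in
`ℙ^{2m+1}`, divided by `p^m`. -/
noncomputable def tt (m d p : ℕ) (c : Mon (2 * m + 1) d → ZMod p) : ℝ :=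
  ((cone c : ℝ) / (p - 1) - ∑ i ∈ range (2 * m + 1), (p : ℝ) ^ i) / (p : ℝ) ^ m

section
variable {p : ℕ} [hp : Fact p.Prime] {n d : ℕ}

theorem val_smul_pt (c : Mon n d → ZMod p) (t : ZMod p) (x : Fin (n + 1) → ZMod p) :
    val c (t • x) = t ^ d * val c x := by
  unfold val
  rw [Finset.mul_sum]
  refine Finset.sum_congr rfl fun m _ => ?_
  have : mev (t • x) m = t ^ d * mev x m := by
    unfold mev
    simp only [Pi.smul_apply, smul_eq_mul, mul_pow]
    rw [Finset.prod_mul_distrib, Finset.prod_pow_eq_pow_sum, m.2]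
  rw [this]
  ring

theorem sum_XX (f : (Fin (n + 1) → ZMod p) → ℝ) :
    ∑ v ∈ XX n p, f v = ∑ x : PS p n, ∑ u : (ZMod p)ˣ, f ((u : ZMod p) • x.rep) := by
  classical
  rw [← Finset.sum_product']
  symm
  refine Finset.sum_bij (fun xu _ => ((xu.2 : ZMod p) • xu.1.rep : Fin (n + 1) → ZMod p)) ?_ ?_ ?_ ?_
  · rintro ⟨x, u⟩ _
    rw [mem_XX]
    exact smul_ne_zero u.ne_zero x.rep_nonzero
  · rintro ⟨x, u⟩ _ ⟨y, v⟩ _ h
    simp only at h
    have hxy : x = y := by
      rw [← x.mk_rep, ← y.mk_rep, Projectivization.mk_eq_mk_iff']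
      refine ⟨(u : ZMod p)⁻¹ * v, ?_⟩
      rw [mul_smul, ← h, ← mul_smul, inv_mul_cancel₀ u.ne_zero, one_smul]
    subst hxy
    have huv : (u : ZMod p) = v := smul_left_injective _ x.rep_nonzero h
    rw [Units.ext huv]
  · intro v hv
    rw [mem_XX] at hv
    obtain ⟨a, ha⟩ := Projectivization.exists_smul_eq_mk_rep (ZMod p) v hv
    refine ⟨(Projectivization.mk (ZMod p) v hv, a⁻¹), Finset.mem_univ _, ?_⟩
    simp only
    rw [← ha, Units.smul_def, ← mul_smul, ← Units.val_mul, inv_mul_cancel, Units.val_one, one_smul]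
  · intro _ _
    rfl

theorem cone_div (c : Mon n d → ZMod p) :
    (cone c : ℝ) / (p - 1) = ∑ x : PS p n, if val c x.rep = 0 then (1 : ℝ) else 0 := by
  classical
  have hp1 : (1 : ℝ) < p := by exact_mod_cast hp.out.one_lt
  rw [cone_eq, sum_XX]
  have h1 : ∀ x : PS p n, ∀ u : (ZMod p)ˣ, (if val c ((u : ZMod p) • x.rep) = 0 then (1 : ℝ) else 0) =
      if val c x.rep = 0 then (1 : ℝ) else 0 := by
    intro x u
    rw [val_smul_pt]
    have hu : (u : ZMod p) ^ d ≠ 0 := pow_ne_zero _ u.ne_zero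
    simp [hu]
  simp only [h1, Finset.sum_const, Finset.card_univ, ZMod.card_units, nsmul_eq_mul]
  rw [← Finset.mul_sum, Nat.cast_sub hp.out.one_lt.le, Nat.cast_one, mul_comm, mul_div_assoc,
    div_self (by linarith), mul_one]

theorem card_PS : (Fintype.card (PS p n) : ℝ) = ∑ i ∈ range (n + 1), (p : ℝ) ^ i := by
  have h := Projectivization.card_of_finrank (k := ZMod p) (V := Fin (n + 1) → ZMod p)
    (n := n + 1) (by simp)
  rw [Nat.card_eq_fintype_card, Nat.card_zmod] at h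
  rw [show Fintype.card (PS p n) = _ from h]
  push_cast
  rfl

theorem tt_eq (m : ℕ) (c : Mon (2 * m + 1) d → ZMod p) :
    tt m d p c = SF univ c / (p : ℝ) ^ m + 1 / (p * (p : ℝ) ^ m) := by
  classical
  have hp0 : (0 : ℝ) < p := p_pos'
  have h1 : SF (univ : Finset (PS p (2 * m + 1))) c = (cone c : ℝ) / (p - 1) -
      (∑ i ∈ range (2 * m + 1 + 1), (p : ℝ) ^ i) / p := by
    rw [cone_div, ← card_PS]
    unfold SF zi
    rw [Finset.sum_sub_distrib, Finset.sum_const, Finset.card_univ, nsmul_eq_mul]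
    ring
  have h2 : (∑ i ∈ range (2 * m + 1 + 1), (p : ℝ) ^ i) / p =
      ∑ i ∈ range (2 * m + 1), (p : ℝ) ^ i + 1 / p := by
    rw [Finset.sum_range_succ', pow_zero, add_div]
    congr 1
    rw [Finset.sum_div]
    refine Finset.sum_congr rfl fun i _ => ?_
    rw [pow_succ]
    field_simp
  unfold tt
  rw [h1, h2]
  field_simp
  ring

end

/-- The moments of the main part. -/
theorem EM_s (j : ℕ) : ∃ C : ℝ, 0 ≤ C ∧ ∀ (m d : ℕ), 1 ≤ m → j ≤ d + 1 → ∀ p : ℕ, ∀ [Fact p.Prime],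
    |EM p (fun c : Mon (2 * m + 1) d → ZMod p => (SF univ c / (p : ℝ) ^ m) ^ j) - gm j| ≤ C / p := by
  obtain ⟨C, hC0, hC⟩ := exists_asy j
  refine ⟨C + |gm j| * j, by positivity, fun m d hm hj p hpf => ?_⟩
  have hp1 : (1 : ℝ) < p := by exact_mod_cast hpf.out.one_lt
  have hp0 : (0 : ℝ) < p := by linarith
  set G : ℕ := (univ : Finset (PS p (2 * m + 1))).card with hG
  have hGc : (G : ℝ) = ∑ i ∈ range (2 * m + 1 + 1), (p : ℝ) ^ i := by
    rw [hG, Finset.card_univ, card_PS]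
  have hGp : (G : ℝ) * (p - 1) = (p : ℝ) ^ (2 * m + 2) - 1 := by
    rw [hGc, geom_sum_mul]
  set R : ℝ := (p : ℝ) ^ (2 * m) with hR
  have hR0 : 0 < R := by positivity
  have hR1 : 1 ≤ R := one_le_pow₀ hp1.le
  have hpm : (p : ℝ) ≤ (p : ℝ) ^ m := by
    calc (p : ℝ) = (p : ℝ) ^ 1 := (pow_one _).symm
      _ ≤ _ := pow_le_pow_right₀ hp1.le hm
  have hRm : R = (p : ℝ) ^ m * (p : ℝ) ^ m := by rw [hR, two_mul, pow_add]
  have hpR : (p : ℝ) ≤ R := by
    rw [hRm]
    nlinarith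
  have hGq : (G : ℝ) * ((1 / p) * (1 - 1 / p)) = R - 1 / (p : ℝ) ^ 2 := by
    have e : (G : ℝ) * ((1 / p) * (1 - 1 / p)) = (G * (p - 1)) / (p : ℝ) ^ 2 := by
      field_simp
    rw [e, hGp, hR, pow_add]
    field_simp
  have hGR : (G : ℝ) * ((1 / p) * (1 - 1 / p)) ≤ R := by
    rw [hGq]
    have : (0 : ℝ) ≤ 1 / (p : ℝ) ^ 2 := by positivity
    linarith
  have h1 := hC (ez p) _ adm_ez G R hR1 hGR
  have e1 : EM p (fun c : Mon (2 * m + 1) d → ZMod p => (SF univ c / (p : ℝ) ^ m) ^ j) =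
      ME (ez p) G j / ((p : ℝ) ^ m) ^ j := by
    have e2 : (fun c : Mon (2 * m + 1) d → ZMod p => (SF univ c / (p : ℝ) ^ m) ^ j) =
        fun c => (1 / ((p : ℝ) ^ m) ^ j) * SF univ c ^ j := by
      funext c
      rw [div_pow]; ring
    rw [e2, EM_mul', EM_SF univ j hj]
    ring
  rw [e1]
  set M := ME (ez p) G j with hM
  rcases Nat.even_or_odd j with hj' | hj'
  · obtain ⟨h, rfl⟩ : ∃ h, j = 2 * h := by
      obtain ⟨a, ha⟩ := hj'
      exact ⟨a, by omega⟩
    rw [if_pos hj', show 2 * h / 2 = h by omega] at h1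
    have e3 : ((p : ℝ) ^ m) ^ (2 * h) = R ^ h := by
      rw [hR]; ring
    rw [e3]
    set x : ℝ := (G : ℝ) * ((1 / p) * (1 - 1 / p)) with hx
    have hx0 : 0 ≤ x := by
      have : (0 : ℝ) ≤ 1 - 1 / p := by
        rw [sub_nonneg, div_le_one hp0]; exact hp1.le
      positivity
    have hRh : 0 < R ^ h := by positivity
    have b1 : |M / R ^ h - gm (2 * h) * (x / R) ^ h| ≤ C / p := by
      have e4 : M / R ^ h - gm (2 * h) * (x / R) ^ h = (M - gm (2 * h) * x ^ h) / R ^ h := by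
        rw [div_pow]; field_simp
      rw [e4, abs_div, abs_of_pos hRh, div_le_iff₀ hRh]
      have h5 : |M - gm (2 * h) * x ^ h| * p ≤ C * R ^ h := by
        refine le_trans ?_ h1
        gcongr
      rw [div_mul_eq_mul_div, le_div_iff₀ hp0]
      exact h5
    have b2 : |gm (2 * h) * (x / R) ^ h - gm (2 * h)| ≤ |gm (2 * h)| * (2 * h : ℕ) / p := by
      have e5 : gm (2 * h) * (x / R) ^ h - gm (2 * h) = gm (2 * h) * ((x / R) ^ h - 1) := by ring
      rw [e5, abs_mul]
      suffices key : |(x / R) ^ h - 1| ≤ ((2 * h : ℕ) : ℝ) / p by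
        calc |gm (2 * h)| * |(x / R) ^ h - 1| ≤ |gm (2 * h)| * (((2 * h : ℕ) : ℝ) / p) :=
              mul_le_mul_of_nonneg_left key (abs_nonneg _)
          _ = _ := by ring
      have hxR : x / R ≤ 1 := by rw [div_le_one hR0]; exact hGR
      have hxR0 : 0 ≤ x / R := by positivity
      have h6 : (x / R) ^ h ≤ 1 := pow_le_one₀ hxR0 hxR
      rw [abs_sub_comm, abs_of_nonneg (by linarith)]
      have h7 := one_add_mul_le_pow (a := x / R - 1) (by linarith) h
      have e6 : 1 + (x / R - 1) = x / R := by ring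
      rw [e6] at h7
      have e7 : 1 - x / R = 1 / (R * (p : ℝ) ^ 2) := by
        rw [hGq]
        field_simp
        ring
      have h8 : 1 / (R * (p : ℝ) ^ 2) ≤ 1 / p := by
        apply one_div_le_one_div_of_le hp0
        calc (p : ℝ) ≤ R := hpR
          _ = R * 1 := (mul_one R).symm
          _ ≤ R * (p : ℝ) ^ 2 := mul_le_mul_of_nonneg_left (one_le_pow₀ hp1.le) hR0.le
      have h9 : (h : ℝ) * (1 - x / R) ≤ h * (1 / p) := by
        rw [e7]
        gcongr
      have h10 : (h : ℝ) * (1 / p) ≤ ((2 * h : ℕ) : ℝ) / p := by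
        rw [mul_one_div]
        gcongr
        omega
      linarith
    have e8 : M / R ^ h - gm (2 * h) = (M / R ^ h - gm (2 * h) * (x / R) ^ h) +
        (gm (2 * h) * (x / R) ^ h - gm (2 * h)) := by ring
    rw [e8, add_div]
    exact (abs_add_le _ _).trans (add_le_add b1 b2)
  · obtain ⟨h, rfl⟩ := hj'
    rw [if_neg (Nat.not_even_iff_odd.mpr ⟨h, rfl⟩), show (2 * h + 1) / 2 = h by omega, gm_odd,
      zero_mul, sub_zero, mul_one] at h1
    rw [gm_odd, sub_zero, abs_zero, zero_mul, add_zero]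
    have e3 : ((p : ℝ) ^ m) ^ (2 * h + 1) = R ^ h * (p : ℝ) ^ m := by
      rw [hR]; ring
    have hpos : 0 < R ^ h * (p : ℝ) ^ m := by positivity
    rw [e3, abs_div, abs_of_pos hpos, div_le_div_iff₀ hpos hp0]
    calc |M| * p ≤ (C * R ^ h) * (p : ℝ) ^ m := by gcongr
      _ = _ := by ring

/-- **The moments of the traces.** -/
theorem EM_tt (j : ℕ) : ∃ C : ℝ, 0 ≤ C ∧ ∀ (m d : ℕ), 1 ≤ m → j ≤ d + 1 → ∀ p : ℕ, ∀ [Fact p.Prime],
    |EM p (fun c : Mon (2 * m + 1) d → ZMod p => tt m d p c ^ j) - gm j| ≤ C / p := by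
  choose C hC0 hC using EM_s
  refine ⟨C j + ∑ k ∈ range j, (j.choose k : ℝ) * (C k + |gm k|), by
    have : 0 ≤ ∑ k ∈ range j, (j.choose k : ℝ) * (C k + |gm k|) :=
      Finset.sum_nonneg fun k _ => by have := hC0 k; positivity
    have := hC0 j
    positivity, fun m d hm hj p hpf => ?_⟩
  have hp1 : (1 : ℝ) < p := by exact_mod_cast hpf.out.one_lt
  have hp0 : (0 : ℝ) < p := by linarith
  set δ : ℝ := 1 / (p * (p : ℝ) ^ m) with hδ
  have hδ0 : 0 ≤ δ := by positivity
  have hpm : (1 : ℝ) ≤ (p : ℝ) ^ m := one_le_pow₀ hp1.le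
  have hδp : δ ≤ 1 / p := by
    rw [hδ]
    apply one_div_le_one_div_of_le hp0
    nlinarith
  have hδ1 : δ ≤ 1 := hδp.trans (by rw [div_le_one hp0]; exact hp1.le)
  set s : (Mon (2 * m + 1) d → ZMod p) → ℝ := fun c => SF univ c / (p : ℝ) ^ m with hs
  have e1 : EM p (fun c : Mon (2 * m + 1) d → ZMod p => tt m d p c ^ j) =
      EM p (fun c => s c ^ j) + ∑ k ∈ range j, (j.choose k : ℝ) * δ ^ (j - k) *
        EM p (fun c => s c ^ k) := by
    have e2 : (fun c : Mon (2 * m + 1) d → ZMod p => tt m d p c ^ j) = fun c =>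
        s c ^ j + ∑ k ∈ range j, (j.choose k : ℝ) * δ ^ (j - k) * s c ^ k := by
      funext c
      rw [tt_eq, add_pow, Finset.sum_range_succ, Nat.choose_self, Nat.sub_self, pow_zero, mul_one,
        Nat.cast_one, mul_one, add_comm]
      congr 1
      refine Finset.sum_congr rfl fun k _ => ?_
      ring
    rw [e2, EM_add', EM_sum']
    congr 1
    refine Finset.sum_congr rfl fun k _ => ?_
    rw [EM_mul']
  rw [e1]
  have b1 := hC j m d hm hj p
  have b2 : |∑ k ∈ range j, (j.choose k : ℝ) * δ ^ (j - k) * EM p (fun c => s c ^ k)| ≤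
      (∑ k ∈ range j, (j.choose k : ℝ) * (C k + |gm k|)) / p := by
    refine (Finset.abs_sum_le_sum_abs _ _).trans ?_
    rw [Finset.sum_div]
    refine Finset.sum_le_sum fun k hk => ?_
    rw [Finset.mem_range] at hk
    have h1 := hC k m d hm (by omega) p
    have h2 : |EM p (fun c => s c ^ k)| ≤ C k + |gm k| := by
      have h3 : C k / p ≤ C k := div_le_self (hC0 k) hp1.le
      have h4 := abs_add_le (EM p (fun c => s c ^ k) - gm k) (gm k)
      rw [sub_add_cancel] at h4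
      linarith [h1]
    have h5 : δ ^ (j - k) ≤ 1 / p := by
      refine le_trans ?_ hδp
      calc δ ^ (j - k) ≤ δ ^ 1 := pow_le_pow_of_le_one hδ0 hδ1 (by omega)
        _ = δ := pow_one δ
    rw [abs_mul, abs_of_nonneg (by positivity : (0 : ℝ) ≤ (j.choose k : ℝ) * δ ^ (j - k))]
    calc (j.choose k : ℝ) * δ ^ (j - k) * |EM p (fun c => s c ^ k)|
        ≤ (j.choose k : ℝ) * (1 / p) * (C k + |gm k|) := by gcongr
      _ = _ := by ring
  have e3 : EM p (fun c => s c ^ j) + ∑ k ∈ range j, (j.choose k : ℝ) * δ ^ (j - k) *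
        EM p (fun c => s c ^ k) - gm j = (EM p (fun c => s c ^ j) - gm j) +
        ∑ k ∈ range j, (j.choose k : ℝ) * δ ^ (j - k) * EM p (fun c => s c ^ k) := by ring
  rw [e3, add_div]
  exact (abs_add_le _ _).trans (add_le_add b1 b2)

end Pool.Agent.X280.HG
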