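import Pool.Agent.X280.HG.Main
import Pool.Agent.X280.HG.Local
import Pool.Agent.X280.HG.Gauss

/-!
# The normal law for polynomials in the traces of Frobenius of hypersurfaces
-/

set_option autoImplicit false

namespace Pool.Agent.X280.HG

open Finset hiding val
open Polynomial Filter Topology Pool.Agent.Y722.HS Pool.Agent.X280.BP Pool.Agent.X280.UC
  MeasureTheory ProbabilityTheory

/-- The mean value of a polynomial in the trace over all forms modulo `p`. -/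
theorem EM_poly (ψ : ℝ[X]) : ∃ C : ℝ, 0 ≤ C ∧ ∀ (m d : ℕ), 1 ≤ m → ψ.natDegree ≤ d + 1 → ∀ p : ℕ,
    ∀ [Fact p.Prime],
    |EM p (fun c : Mon (2 * m + 1) d → ZMod p => ψ.eval (tt m d p c)) - GM ψ| ≤ C / p := by
  choose C hC0 hC using EM_tt
  refine ⟨∑ k ∈ range (ψ.natDegree + 1), |ψ.coeff k| * C k,
    Finset.sum_nonneg fun k _ => mul_nonneg (abs_nonneg _) (hC0 k), fun m d hm hd p hpf => ?_⟩
  have e : (fun c : Mon (2 * m + 1) d → ZMod p => ψ.eval (tt m d p c)) = fun c =>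
      ∑ k ∈ range (ψ.natDegree + 1), ψ.coeff k * tt m d p c ^ k := by
    funext c
    exact eval_eq_sum_range _
  rw [e, EM_sum', GM_eq, ← Finset.sum_sub_distrib, Finset.sum_div]
  refine (Finset.abs_sum_le_sum_abs _ _).trans (Finset.sum_le_sum fun k hk => ?_)
  rw [Finset.mem_range] at hk
  rw [EM_mul', ← mul_sub, abs_mul, mul_div_assoc]
  exact mul_le_mul_of_nonneg_left (hC k m d hm (by omega) p) (abs_nonneg _)

/-- The local data. -/
theorem ld_poly (φ : ℝ[X]) : ∃ C : ℝ, ∀ (m d : ℕ), 1 ≤ m → 4 * φ.natDegree ≤ d + 1 →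
    LD (fun p (c : Mon (2 * m + 1) d → ZMod p) => φ.eval (tt m d p c)) (GM φ) (GM (φ ^ 2)) C := by
  obtain ⟨C1, h10, h1⟩ := EM_poly φ
  obtain ⟨C2, h20, h2⟩ := EM_poly (φ ^ 2)
  obtain ⟨C4, h40, h4⟩ := EM_poly (φ ^ 4)
  refine ⟨C1 + C2 + C4 + |GM (φ ^ 4)|, fun m d hm hd => ?_⟩
  have d2 : (φ ^ 2).natDegree ≤ d + 1 := by
    rw [natDegree_pow]; omega
  have d4 : (φ ^ 4).natDegree ≤ d + 1 := by
    rw [natDegree_pow]; exact hd
  have hle : ∀ p : ℕ, p.Prime → ∀ c : ℝ, c ≤ C1 + C2 + C4 + |GM (φ ^ 4)| →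
      c / p ≤ (C1 + C2 + C4 + |GM (φ ^ 4)|) / p := by
    intro p hp c hc
    have : (0 : ℝ) < p := by exact_mod_cast hp.pos
    gcongr
  have ha := abs_nonneg (GM (φ ^ 4))
  refine ⟨by positivity, fun p hp _ => ?_, fun p hp _ => ?_, fun p hp _ => ?_⟩
  · have : Fact p.Prime := ⟨hp⟩
    exact (h1 m d hm (by omega) p).trans (hle p hp _ (by linarith))
  · have : Fact p.Prime := ⟨hp⟩
    have h := (h2 m d hm d2 p).trans (hle p hp _ (by linarith))
    simp only [eval_pow] at h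
    exact h
  · have : Fact p.Prime := ⟨hp⟩
    have h := h4 m d hm d4 p
    simp only [eval_pow] at h
    have h5 := (abs_le.mp h).2
    have hp1 : (1 : ℝ) ≤ p := by exact_mod_cast hp.one_lt.le
    have h6 : C4 / p ≤ C4 := div_le_self h40 hp1
    have h7 := le_abs_self (GM (φ ^ 4))
    linarith

/-- The number of the points modulo `p` of the hypersurface `∑ c_μ x^μ = 0` in the projective space,
for `p` prime: the number of the nonzero vectors at which the form vanishes divided by `p - 1`. -/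
noncomputable def numPoints {n d : ℕ} (c : Mon n d → ℤ) (p : ℕ) : ℝ :=
  (Nat.card {x : Fin (n + 1) → ZMod p // x ≠ 0 ∧
    MvPolynomial.eval x (form fun μ => (c μ : ZMod p)) = 0} : ℝ) / (p - 1)

/-- The trace of Frobenius on the primitive part of `H^{2m}(X)(m)`, `X` the hypersurface in
`ℙ^{2m+1}`. -/
noncomputable def trace {m d : ℕ} (c : Mon (2 * m + 1) d → ℤ) (p : ℕ) : ℝ :=
  (numPoints c p - ∑ i ∈ range (2 * m + 1), (p : ℝ) ^ i) / (p : ℝ) ^ m

/-- **The normal law for the Sato–Tate sums of hypersurfaces.** -/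
theorem law_poly (φ : ℝ[X]) (hφ : 1 ≤ φ.natDegree) (m d : ℕ) (hm : 1 ≤ m)
    (hd : 4 * φ.natDegree ≤ d + 1) (δ : ℝ) (hδ : 0 < δ) (u ε : ℝ) (hε : 0 < ε) :
    ∃ K : ℕ, ∀ (P : Finset ℕ) (w : ℕ → ℝ) (y H : ℕ), (∀ p ∈ P, p.Prime ∧ p ≤ y) →
      (∀ p ∈ P, |w p| ≤ 1) → δ * P.card ≤ ∑ p ∈ P, w p ^ 2 → K ≤ P.card → y ^ K ≤ H →
      |({c : Mon (2 * m + 1) d → ℤ | (∀ μ, |c μ| ≤ H) ∧
        ∑ p ∈ P, w p * (φ.eval (trace c p) - GM φ) ≤
          u * √((GM (φ ^ 2) - GM φ ^ 2) * ∑ p ∈ P, w p ^ 2)}.ncard : ℝ) /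
        (2 * H + 1 : ℝ) ^ Fintype.card (Mon (2 * m + 1) d) -
          (gaussianReal 0 1).real (Set.Iic u)| ≤ ε := by
  classical
  obtain ⟨C, hC⟩ := ld_poly φ
  have hv := GM_var φ hφ
  obtain ⟨K, hK⟩ := abs_law (hC m d hm hd) hv hδ u hε
  refine ⟨max K 1, fun P w y H hP hw hvar hcard hH => ?_⟩
  have hc1 : 1 ≤ P.card := (le_max_right _ _).trans hcard
  have hy1 : 1 ≤ y := by
    obtain ⟨p, hp⟩ : P.Nonempty := by rw [← Finset.card_pos]; omega
    have h1 := (hP p hp).2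
    have h2 := (hP p hp).1.pos
    omega
  have hfin := hK P w y H hP hw hvar ((le_max_left _ _).trans hcard)
    ((Nat.pow_le_pow_right hy1 (le_max_left _ _)).trans hH)
  have hW0 : 0 < ∑ p ∈ P, w p ^ 2 := by
    have : (1 : ℝ) ≤ P.card := by exact_mod_cast hc1
    have h2 : 0 < δ * P.card := by positivity
    linarith
  have hs0 : 0 < √((GM (φ ^ 2) - GM φ ^ 2) * ∑ p ∈ P, w p ^ 2) :=
    Real.sqrt_pos.2 (mul_pos hv hW0)
  rw [measureReal_def, law_apply H _ _ measurableSet_Iic,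
    ENNReal.toReal_ofReal (by positivity)] at hfin
  rw [ncard_box]
  have e : ((Pool.Agent.Y722.HS.box (Mon (2 * m + 1) d) H).filter (fun c =>
      ∑ p ∈ P, w p * (φ.eval (trace c p) - GM φ) ≤
          u * √((GM (φ ^ 2) - GM φ ^ 2) * ∑ p ∈ P, w p ^ 2))) =
      (Pool.Agent.Y722.HS.box (Mon (2 * m + 1) d) H).filter (fun c =>
        (∑ p ∈ P, w p * (φ.eval (tt m d p (red p c)) - GM φ)) /
        √((GM (φ ^ 2) - GM φ ^ 2) * ∑ p ∈ P, w p ^ 2) ∈ Set.Iic u) := by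
    apply Finset.filter_congr
    intro c _
    rw [Set.mem_Iic, div_le_iff₀ hs0]
    rfl
  rw [e]
  exact hfin

end Pool.Agent.X280.HG
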