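import Pool.Agent.X280.HG.Rec
import Pool.Agent.Y722.HS.Mom

/-!
# Values of forms at points of the projective space
-/

set_option autoImplicit false
set_option linter.unusedSectionVars false

namespace Pool.Agent.X280.HG

open Finset hiding val
open Pool.Agent.Y722.HS Pool.Agent.X280.BP Pool.Agent.X280.UC

/-- The monomial `∏ x_{g i}`. -/
def mon {n d : ℕ} (g : Fin d → Fin (n + 1)) : Mon n d :=
  mkMon (fun l => (univ.filter fun i => g i = l).card) (by
    have := Finset.card_eq_sum_card_fiberwise (f := g) (s := univ) (t := univ)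
      (fun _ _ => Finset.mem_univ _)
    rw [← this, Finset.card_univ, Fintype.card_fin])

theorem mev_mon {n d : ℕ} {R : Type*} [CommRing R] (g : Fin d → Fin (n + 1))
    (x : Fin (n + 1) → R) : mev x (mon g) = ∏ i, x (g i) := by
  classical
  unfold mev mon
  simp only [mkMon_apply]
  rw [← Finset.prod_fiberwise_of_maps_to (s := univ) (t := univ) (g := g)
    (fun _ _ => Finset.mem_univ _)]
  refine Finset.prod_congr rfl fun l _ => ?_
  rw [Finset.prod_congr rfl (g := fun _ => x l) (fun i hi => by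
    rw [(Finset.mem_filter.mp hi).2]), Finset.prod_const]

/-- A product of linear forms is a form. -/
theorem exists_form {n d : ℕ} {R : Type*} [CommRing R] (a : Fin d → Fin (n + 1) → R) :
    ∃ c : Mon n d → R, ∀ x, val c x = ∏ i, ∑ l, a i l * x l := by
  classical
  refine ⟨∑ g : Fin d → Fin (n + 1), Pi.single (mon g) (∏ i, a i (g i)), fun x => ?_⟩
  have h1 : val (∑ g : Fin d → Fin (n + 1), (Pi.single (mon g) (∏ i, a i (g i)) : Mon n d → R)) x =
      ∑ g : Fin d → Fin (n + 1), val (Pi.single (mon g) (∏ i, a i (g i)) : Mon n d → R) x := by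
    unfold val
    simp only [Finset.sum_apply, Finset.sum_mul]
    rw [Finset.sum_comm]
  rw [h1, Finset.prod_univ_sum, Fintype.piFinset_univ]
  refine Finset.sum_congr rfl fun g _ => ?_
  rw [val_single, mev_mon, ← Finset.prod_mul_distrib]

variable {p : ℕ} [hp : Fact p.Prime] {n d : ℕ}

/-- The points of the projective space. -/
abbrev PS (p n : ℕ) [Fact p.Prime] : Type := Projectivization (ZMod p) (Fin (n + 1) → ZMod p)

instance (p n : ℕ) [Fact p.Prime] : Finite (PS p n) := inferInstance

noncomputable instance (p n : ℕ) [Fact p.Prime] : Fintype (PS p n) := Fintype.ofFinite _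

noncomputable instance (p n : ℕ) [Fact p.Prime] : DecidableEq (PS p n) := Classical.decEq _

/-- A linear form with value one at `x` and zero at `y`. -/
theorem sep (x y : PS p n) (h : y ≠ x) :
    ∃ a : Fin (n + 1) → ZMod p, ∑ l, a l * x.rep l = 1 ∧ ∑ l, a l * y.rep l = 0 := by
  have hx : x.rep ∉ Submodule.span (ZMod p) {y.rep} := by
    intro hmem
    rw [Submodule.mem_span_singleton] at hmem
    obtain ⟨t, ht⟩ := hmem
    apply h
    rw [← x.mk_rep, ← y.mk_rep]
    symm
    rw [Projectivization.mk_eq_mk_iff']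
    exact ⟨t, ht⟩
  obtain ⟨f, hf1, hf2⟩ := Submodule.exists_dual_map_eq_bot_of_notMem hx inferInstance
  have hf3 : f y.rep = 0 := by
    have : f y.rep ∈ (Submodule.span (ZMod p) {y.rep}).map f :=
      Submodule.mem_map_of_mem (Submodule.mem_span_singleton_self _)
    rw [hf2] at this
    simpa using this
  have hf4 : ∀ v : Fin (n + 1) → ZMod p, f v = ∑ l, f (Pi.single l 1) * v l := by
    intro v
    conv_lhs => rw [← Finset.univ_sum_single v]
    rw [map_sum]
    refine Finset.sum_congr rfl fun l _ => ?_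
    have : (Pi.single l (v l) : Fin (n + 1) → ZMod p) = v l • Pi.single l 1 := by
      rw [← Pi.single_smul, smul_eq_mul, mul_one]
    rw [this, map_smul, smul_eq_mul, mul_comm]
  refine ⟨fun l => (f x.rep)⁻¹ * f (Pi.single l 1), ?_, ?_⟩
  · simp only [mul_assoc]
    rw [← Finset.mul_sum, ← hf4, inv_mul_cancel₀ hf1]
  · simp only [mul_assoc]
    rw [← Finset.mul_sum, ← hf4, hf3, mul_zero]

/-- A form with value one at `x` and zero at the points `t i`. -/
theorem dirF {m : ℕ} (hm : m ≤ d) (x : PS p n) (t : Fin m → PS p n) (ht : ∀ i, t i ≠ x) :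
    ∃ c : Mon n d → ZMod p, val c x.rep = 1 ∧ ∀ i, val c (t i).rep = 0 := by
  classical
  have hone : ∃ a : Fin (n + 1) → ZMod p, ∑ l, a l * x.rep l = 1 := by
    obtain ⟨k, hk⟩ := Function.ne_iff.mp x.rep_nonzero
    refine ⟨Pi.single k (x.rep k)⁻¹, ?_⟩
    rw [Finset.sum_eq_single k]
    · rw [Pi.single_eq_same]
      exact inv_mul_cancel₀ hk
    · intro b _ hb
      rw [Pi.single_eq_of_ne hb, zero_mul]
    · intro h
      exact absurd (Finset.mem_univ _) h
  obtain ⟨a0, ha0⟩ := hone
  choose a ha1 ha2 using fun i => sep x (t i) (ht i)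
  obtain ⟨c, hc⟩ := exists_form (n := n) (d := d) (R := ZMod p)
    (fun i => if h : (i : ℕ) < m then a ⟨i, h⟩ else a0)
  refine ⟨c, ?_, fun i => ?_⟩
  · rw [hc]
    refine Finset.prod_eq_one fun i _ => ?_
    split_ifs with h
    · exact ha1 _
    · exact ha0
  · rw [hc]
    refine Finset.prod_eq_zero (Finset.mem_univ (⟨i, by have := i.2; omega⟩ : Fin d)) ?_
    rw [dif_pos (show ((⟨i, by have := i.2; omega⟩ : Fin d) : ℕ) < m from i.2)]
    exact ha2 i

open Classical in
/-- The centred indicator of zero. -/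
noncomputable def zi (p : ℕ) (u : ZMod p) : ℝ := (if u = 0 then 1 else 0) - 1 / p

/-- The moments of the centred indicator. -/
noncomputable def ez (p : ℕ) (k : ℕ) : ℝ := ((1 - 1 / p) ^ k + (p - 1) * (-(1 / p)) ^ k) / p

theorem sum_zi (k : ℕ) : (∑ u : ZMod p, zi p u ^ k) / p = ez p k := by
  classical
  unfold ez
  congr 1
  rw [← Finset.add_sum_erase univ _ (Finset.mem_univ (0 : ZMod p))]
  congr 1
  · unfold zi; simp
  · have h1 : ∀ u ∈ univ.erase (0 : ZMod p), zi p u ^ k = (-(1 / p) : ℝ) ^ k := by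
      intro u hu
      unfold zi
      rw [if_neg (Finset.ne_of_mem_erase hu), zero_sub]
    rw [Finset.sum_congr rfl h1, Finset.sum_const, Finset.card_erase_of_mem (Finset.mem_univ _),
      Finset.card_univ, ZMod.card, nsmul_eq_mul, Nat.cast_sub hp.out.one_lt.le]
    push_cast
    ring

theorem adm_ez : Adm (ez p) ((1 / p) * (1 - 1 / p)) := by
  have hp1 : (1 : ℝ) < p := by exact_mod_cast hp.out.one_lt
  have hp0 : (0 : ℝ) < p := by linarith
  have hi0 : (0 : ℝ) < 1 / p := by positivity
  have hi1 : (1 : ℝ) / p ≤ 1 := by rw [div_le_one hp0]; linarith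
  set t : ℝ := 1 / p with ht
  have hpt : (p : ℝ) * t = 1 := by rw [ht]; field_simp
  have e : ∀ k, ez p k = t * ((1 - t) ^ k + (p - 1) * (-t) ^ k) := by
    intro k
    unfold ez
    rw [ht]
    ring
  refine ⟨?_, ?_, ?_, fun k hk => ?_, ?_, ?_⟩
  · rw [e]
    have : t * ((1 - t) ^ 0 + (p - 1) * (-t) ^ 0) = p * t := by ring
    rw [this, hpt]
  · rw [e]
    have : t * ((1 - t) ^ 1 + (p - 1) * (-t) ^ 1) = t * (1 - p * t) := by ring
    rw [this, hpt]; ring
  · rw [e]
    have : t * ((1 - t) ^ 2 + (p - 1) * (-t) ^ 2) = t * (1 - 2 * t + p * t * t) := by ring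
    rw [this, hpt]; ring
  · rw [e, abs_mul, abs_of_pos hi0]
    refine mul_le_mul_of_nonneg_left ?_ hi0.le
    have h1 : |(1 - t) ^ k + (p - 1) * (-t) ^ k| ≤ (1 - t) ^ k + (p - 1) * t ^ k := by
      refine (abs_add_le _ _).trans (add_le_add ?_ ?_)
      · rw [abs_of_nonneg (pow_nonneg (by linarith) _)]
      · rw [abs_mul, abs_pow, abs_neg, abs_of_pos hi0, abs_of_pos (by linarith)]
    have h2 : (1 - t) ^ k ≤ (1 - t) ^ 2 := pow_le_pow_of_le_one (by linarith) (by linarith) hk
    have h3 : t ^ k ≤ t ^ 2 := pow_le_pow_of_le_one hi0.le hi1 hk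
    have h4 : ((p : ℝ) - 1) * t ^ k ≤ (p - 1) * t ^ 2 := by
      have : (0 : ℝ) ≤ p - 1 := by linarith
      gcongr
    have h5 : (1 - t) ^ 2 + ((p : ℝ) - 1) * t ^ 2 = 1 - 2 * t + p * t * t := by ring
    rw [hpt] at h5
    linarith
  · have : 0 ≤ 1 - t := by linarith
    positivity
  · have : 0 ≤ 1 - t := by linarith
    nlinarith

/-- The sum of the centred indicators over the points in `A`. -/
noncomputable def SF (A : Finset (PS p n)) (c : Mon n d → ZMod p) : ℝ :=
  ∑ x ∈ A, zi p (val c x.rep)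

theorem EM_splitF {ι : Type} [Fintype ι] [DecidableEq ι] (φ : ZMod p → ℝ)
    (F : (ι → ZMod p) → ZMod p) (h : (ι → ZMod p) → ℝ)
    (e : ι → ZMod p) (hF : ∀ c t, F (c + t • e) = F c + t)
    (hh : ∀ c (t : ZMod p), h (c + t • e) = h c) :
    EM p (fun c => φ (F c) * h c) = (∑ u, φ u) / p * EM p h := by
  have h1 := EM_dir e (fun c => φ (F c) * h c)
  have h4 : ∀ c, ∑ t : ZMod p, φ (F (c + t • e)) * h (c + t • e) = (∑ u, φ u) * h c := by
    intro c
    simp only [hF, hh]
    rw [← Finset.sum_mul]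
    congr 1
    exact Fintype.sum_equiv (Equiv.addLeft (F c)) _ _ fun t => rfl
  simp only [h4] at h1
  rw [EM_mul'] at h1
  have hp0 : (0 : ℝ) < p := p_pos'
  rw [div_mul_eq_mul_div, eq_div_iff hp0.ne']
  linarith

theorem EM_zi_SF (A : Finset (PS p n)) (x : PS p n) (hx : x ∉ A) (φ : ZMod p → ℝ) (m : ℕ)
    (hm : m ≤ d) :
    EM p (fun c : Mon n d → ZMod p => φ (val c x.rep) * SF A c ^ m) =
      (∑ u, φ u) / p * EM p (fun c : Mon n d → ZMod p => SF A c ^ m) := by
  classical
  have e : ∀ c : Mon n d → ZMod p, SF A c ^ m =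
      ∑ t ∈ Fintype.piFinset fun _ : Fin m => A, ∏ i, zi p (val c (t i).rep) := by
    intro c
    unfold SF
    rw [Finset.sum_pow']
  simp only [e]
  have e1 : ∀ c : Mon n d → ZMod p, φ (val c x.rep) * ∑ t ∈ Fintype.piFinset fun _ : Fin m => A,
      ∏ i, zi p (val c (t i).rep) = ∑ t ∈ Fintype.piFinset fun _ : Fin m => A,
        φ (val c x.rep) * ∏ i, zi p (val c (t i).rep) := fun c => Finset.mul_sum _ _ _
  simp only [e1]
  rw [EM_sum', EM_sum', Finset.mul_sum]
  refine Finset.sum_congr rfl fun t ht => ?_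
  rw [Fintype.mem_piFinset] at ht
  obtain ⟨b, hb1, hb2⟩ := dirF (d := d) hm x t (fun i h => hx (h ▸ ht i))
  refine EM_splitF φ (fun c => val c x.rep) (fun c => ∏ i, zi p (val c (t i).rep)) b ?_ ?_
  · intro c t'
    show val (c + t' • b) x.rep = val c x.rep + t'
    rw [val_add, val_smul, hb1, mul_one]
  · intro c t'
    show ∏ i, zi p (val (c + t' • b) (t i).rep) = ∏ i, zi p (val c (t i).rep)
    refine Finset.prod_congr rfl fun i _ => ?_
    rw [val_add, val_smul, hb2 i, mul_zero, add_zero]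

/-- **The moments of the number of points.** -/
theorem EM_SF (A : Finset (PS p n)) : ∀ j : ℕ, j ≤ d + 1 →
    EM p (fun c : Mon n d → ZMod p => SF A c ^ j) = ME (ez p) A.card j := by
  classical
  induction A using Finset.induction_on with
  | empty =>
    intro j _
    have e : (fun c : Mon n d → ZMod p => SF (∅ : Finset (PS p n)) c ^ j) =
        fun _ => (if j = 0 then (1 : ℝ) else 0) := by
      funext c
      unfold SF
      rw [Finset.sum_empty]
      split_ifs with h
      · rw [h, pow_zero]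
      · rw [zero_pow h]
    rw [e, EM_const', Finset.card_empty, ME]
  | insert x A hx ih =>
    intro j hj
    have e : (fun c : Mon n d → ZMod p => SF (insert x A) c ^ j) = fun c =>
        ∑ k ∈ range (j + 1), (j.choose k : ℝ) * (zi p (val c x.rep) ^ k * SF A c ^ (j - k)) := by
      funext c
      have e1 : SF (insert x A) c = zi p (val c x.rep) + SF A c := by
        unfold SF
        rw [Finset.sum_insert hx]
      rw [e1, add_pow]
      refine Finset.sum_congr rfl fun k _ => ?_
      ring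
    rw [e, EM_sum', Finset.card_insert_of_notMem hx, ME]
    refine Finset.sum_congr rfl fun k hk => ?_
    rw [Finset.mem_range] at hk
    rw [EM_mul']
    rcases Nat.eq_zero_or_pos k with rfl | hk0
    · simp only [pow_zero, one_mul, Nat.sub_zero, adm_ez.e0, mul_one]
      rw [ih j hj]
    · rw [EM_zi_SF A x hx (fun u => zi p u ^ k) (j - k) (by omega), ih _ (by omega), sum_zi]
      ring

end Pool.Agent.X280.HG
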