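import Pool.Agent.X280.HG.Var

/-!
# The normal law for sums of truncated local data
-/

set_option autoImplicit false
set_option linter.unusedSectionVars false

namespace Pool.Agent.X280.HG

open Finset Filter Topology Pool.Agent.Y722.HS Pool.Agent.X280.BP Pool.Agent.X280.UC MeasureTheory
  ProbabilityTheory

variable {ι : Type} [Fintype ι] [DecidableEq ι]

open Classical in
/-- The indicator of the event that `Q` and `R` differ by more than `η`. -/
noncomputable def far (Q R : (ι → ℤ) → ℝ) (η : ℝ) (c : ι → ℤ) : ℝ :=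
  if |Q c - R c| ≤ η then 0 else 1

theorem far_nonneg (Q R : (ι → ℤ) → ℝ) (η : ℝ) (c : ι → ℤ) : 0 ≤ far Q R η c := by
  unfold far; split_ifs <;> norm_num

theorem far_mono (Q R : (ι → ℤ) → ℝ) {η η' : ℝ} (h : η ≤ η') (c : ι → ℤ) :
    far Q R η' c ≤ far Q R η c := by
  unfold far
  split_ifs with h1 h2 h2
  · exact le_rfl
  · norm_num
  · exact absurd (h2.trans h) h1
  · exact le_rfl

/-- Data: a set of primes `P`, a bound `y`, a height `H`, local data `Z`, a statistic `Q`, a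
normalising constant `σ`. -/
structure Dat2 (ι : Type) where
  P : Finset ℕ
  y : ℕ
  H : ℕ
  Z : ∀ p : ℕ, (ι → ZMod p) → ℝ
  Q : (ι → ℤ) → ℝ
  σ : ℝ

/-- The data are admissible of level `k`. -/
structure Dat2.Ok (D : Dat2 ι) (k : ℕ) : Prop where
  prime : ∀ p ∈ D.P, p.Prime
  le : ∀ p ∈ D.P, p ≤ D.y
  pos : 0 < D.σ
  bound : ∀ p ∈ D.P, ∀ c, |D.Z p c| ≤ D.σ / (k + 1)
  mean : ∀ p ∈ D.P, ∀ [NeZero p], EM p (D.Z p) = 0
  var : |VP D.Z D.P - D.σ ^ 2| ≤ D.σ ^ 2 / (k + 1)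
  size : k ≤ D.y
  high : D.y ^ k ≤ D.H
  near : EB D.H (far D.Q (fun c => SP D.Z D.P c / D.σ) (1 / (k + 1))) ≤ 1 / (k + 1)

theorem Dat2.Ok.mono {D : Dat2 ι} {k l : ℕ} (h : D.Ok k) (hl : l ≤ k) : D.Ok l := by
  have h1 : (l : ℝ) ≤ k := by exact_mod_cast hl
  have h2 : (0 : ℝ) < (l : ℝ) + 1 := by positivity
  have h3 : 1 / ((k : ℝ) + 1) ≤ 1 / ((l : ℝ) + 1) := one_div_le_one_div_of_le h2 (by linarith)
  have hσ := h.pos
  refine ⟨h.prime, h.le, hσ, fun p hp c => (h.bound p hp c).trans ?_, h.mean, h.var.trans ?_,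
    hl.trans h.size, ?_, ?_⟩
  · exact div_le_div_of_nonneg_left hσ.le h2 (by linarith)
  · exact div_le_div_of_nonneg_left (by positivity) h2 (by linarith)
  · rcases Nat.eq_zero_or_pos k with rfl | hk0
    · have : l = 0 := by omega
      subst this
      exact h.high
    · have h4 : 1 ≤ D.y := by have := h.size; omega
      exact (Nat.pow_le_pow_right h4 hl).trans h.high
  · refine (EB_mono D.H _ _ fun c => ?_).trans (h.near.trans h3)
    exact far_mono _ _ h3 c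

/-- **Convergence of the characteristic functions, uniformly.** -/
theorem unif_char2 (t : ℝ) {ε : ℝ} (hε : 0 < ε) :
    ∃ k : ℕ, ∀ D : Dat2 ι, D.Ok k →
      ‖EBc D.H (fun c => Complex.exp ((t * D.Q c : ℝ) * Complex.I)) -
        ((Real.exp (-(t ^ 2 / 2)) : ℝ) : ℂ)‖ ≤ ε := by
  classical
  set n := Fintype.card ι with hn
  set T : ℝ := max 1 |t| with hT
  have hT1 : 1 ≤ T := le_max_left _ _
  have hT0 : 0 < T := by linarith
  set s : ℝ := t / T with hs
  have hs1 : |s| ≤ 1 := by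
    rw [hs, abs_div, abs_of_pos hT0, div_le_one hT0]
    exact le_max_right _ _
  have hsT : s * T = t := by rw [hs]; field_simp
  -- the number of moments
  obtain ⟨k, hk1, hk2, hk3⟩ : ∃ k : ℕ, 1 ≤ k ∧ T ^ 2 * 2 * Real.exp 1 * 2 ≤ k ∧
      4 * (1 / 2 : ℝ) ^ k ≤ ε / 5 := by
    have h1 : ∀ᶠ k : ℕ in atTop, T ^ 2 * 2 * Real.exp 1 * 2 ≤ k :=
      tendsto_natCast_atTop_atTop.eventually_ge_atTop _
    have h2 : Tendsto (fun k : ℕ => 4 * (1 / 2 : ℝ) ^ k) atTop (𝓝 (4 * 0)) :=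
      (tendsto_pow_atTop_nhds_zero_of_lt_one (by norm_num) (by norm_num)).const_mul _
    rw [mul_zero] at h2
    have h3 := h2.eventually (ge_mem_nhds (show (0 : ℝ) < ε / 5 by positivity))
    obtain ⟨k, hk⟩ := ((eventually_ge_atTop 1).and (h1.and h3)).exists
    exact ⟨k, hk.1, hk.2.1, hk.2.2⟩
  have hE : (0 : ℝ) < ε / 5 := by positivity
  -- the level
  have hz : ∀ K : ℝ, Tendsto (fun y : ℕ => K / (y : ℝ)) atTop (𝓝 0) := fun K =>
    tendsto_const_nhds.div_atTop tendsto_natCast_atTop_atTop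
  have hz1 : ∀ K : ℝ, Tendsto (fun y : ℕ => K * (1 / ((y : ℝ) + 1))) atTop (𝓝 0) := by
    intro K
    have := (tendsto_one_div_add_atTop_nhds_zero_nat (𝕜 := ℝ)).const_mul K
    rwa [mul_zero] at this
  obtain ⟨N, hN⟩ := (((eventually_ge_atTop (4 * k + 4)).and
    (((hz1 (|t| + 2)).eventually (ge_mem_nhds hE)).and
    ((hz1 (2 * (|t| ^ 3 + t ^ 4))).eventually (ge_mem_nhds hE)))).and
    (((hz1 (t ^ 2 / 2)).eventually (ge_mem_nhds hE)).and
    (((hz1 T).eventually (ge_mem_nhds one_pos)).and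
    ((hz (4 * 2 ^ n * 4 ^ (2 * k) : ℝ)).eventually (ge_mem_nhds hE))))).exists
  obtain ⟨⟨hN4, hN1, hN2⟩, hN3, hN6, hN5⟩ := hN
  refine ⟨N, fun D hD => ?_⟩
  set σ := D.σ with hσdef
  have hσ : 0 < σ := hD.pos
  set V := VP D.Z D.P with hV
  have hN0 : (0 : ℝ) < (N : ℝ) + 1 := by positivity
  have hNi1 : 1 / ((N : ℝ) + 1) ≤ 1 := by
    rw [div_le_one hN0]
    have : (0 : ℝ) ≤ N := Nat.cast_nonneg N
    linarith
  have hNi0 : 0 ≤ 1 / ((N : ℝ) + 1) := by positivity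
  have hVσ : |V / σ ^ 2 - 1| ≤ 1 / ((N : ℝ) + 1) := by
    have h1 := hD.var
    rw [← hV, ← hσdef] at h1
    have e : V / σ ^ 2 - 1 = (V - σ ^ 2) / σ ^ 2 := by field_simp
    rw [e, abs_div, abs_of_pos (by positivity : 0 < σ ^ 2), div_le_iff₀ (by positivity)]
    refine h1.trans (le_of_eq ?_)
    ring
  have hV0 : 0 ≤ V := Finset.sum_nonneg fun p _ => vv_nonneg _ _
  have hV2 : V / σ ^ 2 ≤ 2 := by
    have := (abs_le.mp hVσ).2
    linarith
  -- the bound y is large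
  have hyN : N ≤ D.y := hD.size
  set y := D.y with hy
  have hy0 : (0 : ℝ) < y := by exact_mod_cast (by omega : 0 < y)
  set I := (Ico 0 (y + 1)).filter Nat.Prime with hI
  have hPI : D.P ⊆ I := by
    intro p hp
    rw [hI, Finset.mem_filter, Finset.mem_Ico]
    have := hD.le p hp
    exact ⟨⟨by omega, by omega⟩, hD.prime p hp⟩
  -- the normalised system
  set Z' : ∀ p : ℕ, (ι → ZMod p) → ℝ := fun p c => if p ∈ D.P then D.Z p c / σ else 0 with hZ'
  have hZb : ∀ p c, |Z' p c| ≤ 1 / ((N : ℝ) + 1) := by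
    intro p c
    rw [hZ']; dsimp only
    split_ifs with h
    · rw [abs_div, abs_of_pos hσ, div_le_iff₀ hσ]
      refine (hD.bound p h c).trans (le_of_eq ?_)
      rw [← hσdef]
      ring
    · simpa using hNi0
  have hZm : ∀ p, ∀ [NeZero p], EM p (Z' p) = 0 := by
    intro p _
    rw [hZ']; dsimp only
    split_ifs with h
    · have e : (fun c => D.Z p c / σ) = fun c => (1 / σ) * D.Z p c := by
        funext c; ring
      rw [e, EM_mul', hD.mean p h, mul_zero]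
    · exact EM_const' p 0
  have hsum : ∀ F : ℕ → ℝ, ∑ p ∈ I, (if p ∈ D.P then F p else 0) = ∑ p ∈ D.P, F p := by
    intro F
    rw [← Finset.sum_filter]
    congr 1
    ext p
    rw [Finset.mem_filter]
    exact ⟨fun h => h.2, fun h => ⟨hPI h, h⟩⟩
  have hSS : ∀ c, SS Z' 0 (y + 1) c = SP D.Z D.P c / σ := by
    intro c
    unfold SS SP
    rw [← hI, Finset.sum_div]
    exact hsum (fun p => D.Z p (red p c) / σ)
  have hvv : ∑ p ∈ I, vv Z' p = V / σ ^ 2 := by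
    have e : ∑ p ∈ I, vv Z' p = ∑ p ∈ I, (if p ∈ D.P then vv D.Z p / σ ^ 2 else 0) := by
      refine Finset.sum_congr rfl fun p hp => ?_
      have hpp : p.Prime := (Finset.mem_filter.1 hp).2
      have : NeZero p := ⟨hpp.ne_zero⟩
      rw [vv_eq, vv_eq]
      by_cases h : p ∈ D.P
      · simp only [hZ', h, if_true]
        have e2 : (fun c => (D.Z p c / σ) ^ 2) = fun c => (1 / σ ^ 2) * D.Z p c ^ 2 := by
          funext c
          rw [div_pow]; ring
        rw [e2, EM_mul']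
        ring
      · simp only [hZ', h, if_false]
        have e2 : (fun _ : ι → ZMod p => (0 : ℝ) ^ 2) = fun _ => (0 : ℝ) := by
          funext c; simp
        rw [e2, EM_const']
    rw [e, hsum, ← Finset.sum_div]
    rfl
  have hvvT : ∑ p ∈ I, vv (fun p c => T * Z' p c) p ≤ T ^ 2 * 2 := by
    have e : ∑ p ∈ I, vv (fun p c => T * Z' p c) p = T ^ 2 * ∑ p ∈ I, vv Z' p := by
      rw [Finset.mul_sum]
      refine Finset.sum_congr rfl fun p hp => ?_
      have hpp : p.Prime := (Finset.mem_filter.1 hp).2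
      have : NeZero p := ⟨hpp.ne_zero⟩
      rw [vv_eq, vv_eq, ← EM_mul']
      congr 1
      funext c
      ring
    rw [e, hvv]
    gcongr
  have hcond : (y + 1) ^ (2 * k) ≤ 2 * D.H + 1 := by
    have h1 : (y + 1) ^ (2 * k) ≤ (2 * y) ^ (2 * k) := Nat.pow_le_pow_left (by omega) _
    have h2 : (2 * y) ^ (2 * k) ≤ y ^ (4 * k + 1) := by
      calc (2 * y) ^ (2 * k) ≤ (y * y) ^ (2 * k) := Nat.pow_le_pow_left
            (Nat.mul_le_mul_right y (by omega)) _
        _ = y ^ (4 * k) := by rw [← pow_two, ← pow_mul]; ring_nf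
        _ ≤ y ^ (4 * k + 1) := Nat.pow_le_pow_right (by omega) (by omega)
    have h3 : y ^ (4 * k + 1) ≤ y ^ N := Nat.pow_le_pow_right (by omega) (by omega)
    have h4 : y ^ N ≤ D.H := hD.high
    omega
  -- comparison with the model
  have hTN : T * (1 / ((N : ℝ) + 1)) ≤ 1 := hN6
  have hkN : (k : ℝ) ≤ ((N : ℝ) + 1) ^ 2 := by
    have h1 : (k : ℝ) ≤ N := by exact_mod_cast (by omega : k ≤ N)
    have h2 : (0 : ℝ) ≤ N := Nat.cast_nonneg N
    nlinarith
  have hA := charV (fun p c => T * Z' p c) (η := T * (1 / ((N : ℝ) + 1))) (by positivity) hTN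
    (x := y + 1) (H := D.H) (m := k) (by omega) hk1 hcond
    (fun p hp c => by rw [abs_mul, abs_of_pos hT0]; exact mul_le_mul_of_nonneg_left (hZb p c) hT0.le)
    (fun p hp _ => by rw [EM_mul', hZm p, mul_zero]) (s := s) (W := T ^ 2 * 2) hs1
    (by positivity) (by
      have e : (T * (1 / ((N : ℝ) + 1))) ^ 2 * k = T ^ 2 * (k / ((N : ℝ) + 1) ^ 2) := by
        field_simp
      rw [e]
      have h1 : (k : ℝ) / ((N : ℝ) + 1) ^ 2 ≤ 1 := by
        rw [div_le_one (by positivity)]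
        exact hkN
      have h2 : (0 : ℝ) ≤ T ^ 2 := by positivity
      nlinarith) hvvT
  rw [← hn, phi_scale, hsT] at hA
  have eA : ∀ c, s * SS (fun p c => T * Z' p c) 0 (y + 1) c = t * (SP D.Z D.P c / σ) := by
    intro c
    rw [SS_scale, ← mul_assoc, hsT, hSS]
  simp only [eA] at hA
  have hA1 : 4 * 2 ^ n * (((y + 1 : ℕ) : ℝ) ^ 2) ^ (2 * k) / (2 * D.H + 1) ≤ ε / 5 := by
    have h1 : (((y + 1 : ℕ) : ℝ) ^ 2) ^ (2 * k) ≤ (4 * (y : ℝ) ^ 2) ^ (2 * k) := by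
      apply pow_le_pow_left₀ (by positivity)
      have h2 : ((y + 1 : ℕ) : ℝ) ≤ 2 * y := by exact_mod_cast (by omega : y + 1 ≤ 2 * y)
      calc ((y + 1 : ℕ) : ℝ) ^ 2 ≤ (2 * y) ^ 2 := by gcongr
        _ = 4 * (y : ℝ) ^ 2 := by ring
    have h3 : (y : ℝ) ^ (4 * k + 1) ≤ 2 * D.H + 1 := by
      have h4 : (y : ℝ) ^ N ≤ D.H := by exact_mod_cast hD.high
      have h5 : (y : ℝ) ^ (4 * k + 1) ≤ (y : ℝ) ^ N :=
        pow_le_pow_right₀ (by exact_mod_cast (by omega : 1 ≤ y)) (by omega)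
      linarith
    have hpos : (0 : ℝ) < (y : ℝ) ^ (4 * k + 1) := by positivity
    have hyN' : (N : ℝ) ≤ y := by exact_mod_cast hyN
    have hN0' : (0 : ℝ) < N := by exact_mod_cast (by omega : 0 < N)
    calc 4 * 2 ^ n * (((y + 1 : ℕ) : ℝ) ^ 2) ^ (2 * k) / (2 * D.H + 1)
        ≤ 4 * 2 ^ n * (4 * (y : ℝ) ^ 2) ^ (2 * k) / (y : ℝ) ^ (4 * k + 1) := by gcongr
      _ = (4 * 2 ^ n * 4 ^ (2 * k) / (y : ℝ) : ℝ) := by
          rw [mul_pow, ← pow_mul, show 2 * (2 * k) = 4 * k by ring, pow_succ]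
          field_simp
      _ ≤ (4 * 2 ^ n * 4 ^ (2 * k) / (N : ℝ) : ℝ) := by gcongr
      _ ≤ ε / 5 := hN5
  have hA2 : 4 * (s ^ 2 * (T ^ 2 * 2) * Real.exp 1 / k) ^ k ≤ ε / 5 := by
    refine le_trans ?_ hk3
    have hk0 : (0 : ℝ) < k := by exact_mod_cast hk1
    have hs2 : s ^ 2 ≤ 1 := by rw [← sq_abs]; exact pow_le_one₀ (abs_nonneg _) hs1
    have h1 : s ^ 2 * (T ^ 2 * 2) * Real.exp 1 / k ≤ 1 / 2 := by
      rw [div_le_iff₀ hk0]
      have h6 : s ^ 2 * (T ^ 2 * 2) * Real.exp 1 ≤ (1 : ℝ) * (T ^ 2 * 2) * Real.exp 1 := by gcongr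
      linarith
    gcongr
  -- the model
  have hB' := phiV Z' (1 / ((N : ℝ) + 1)) (y + 1) (fun p _ c => hZb p c) (fun p _ => hZm p) t
  rw [← hI, hvv] at hB'
  have hB2 : (|t| ^ 3 * (1 / ((N : ℝ) + 1)) + t ^ 4 * (1 / ((N : ℝ) + 1)) ^ 2) * (V / σ ^ 2) ≤
      ε / 5 := by
    refine le_trans ?_ hN2
    have h1 : (1 / ((N : ℝ) + 1)) ^ 2 ≤ 1 / ((N : ℝ) + 1) := by
      rw [pow_two]
      exact mul_le_of_le_one_left hNi0 hNi1
    have h2 : (0 : ℝ) ≤ V / σ ^ 2 := by positivity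
    calc (|t| ^ 3 * (1 / ((N : ℝ) + 1)) + t ^ 4 * (1 / ((N : ℝ) + 1)) ^ 2) * (V / σ ^ 2)
        ≤ (|t| ^ 3 * (1 / ((N : ℝ) + 1)) + t ^ 4 * (1 / ((N : ℝ) + 1))) * 2 := by gcongr
      _ = _ := by ring
  have hB3 : ‖((Real.exp (-(t ^ 2 * (V / σ ^ 2) / 2)) : ℝ) : ℂ) -
      ((Real.exp (-(t ^ 2 / 2)) : ℝ) : ℂ)‖ ≤ ε / 5 := by
    rw [← Complex.ofReal_sub, Complex.norm_real, Real.norm_eq_abs]
    refine (exp_neg_lip (by positivity) (by positivity)).trans ?_
    have e : t ^ 2 * (V / σ ^ 2) / 2 - t ^ 2 / 2 = t ^ 2 / 2 * (V / σ ^ 2 - 1) := by ring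
    rw [e, abs_mul, abs_of_nonneg (by positivity : (0 : ℝ) ≤ t ^ 2 / 2)]
    exact (mul_le_mul_of_nonneg_left hVσ (by positivity)).trans hN3
  -- the remainder
  set R : (ι → ℤ) → ℝ := fun c => SP D.Z D.P c / σ with hRdef
  have hR : ‖EBc D.H (fun c => Complex.exp ((t * D.Q c : ℝ) * Complex.I)) -
      EBc D.H (fun c => Complex.exp ((t * R c : ℝ) * Complex.I))‖ ≤ ε / 5 := by
    rw [← EBc_sub]
    refine (norm_EBc_le D.H _ (fun c => |t| * (1 / ((N : ℝ) + 1)) +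
      2 * far D.Q R (1 / ((N : ℝ) + 1)) c) fun c => ?_).trans ?_
    · unfold far
      split_ifs with h
      · rw [mul_zero, add_zero]
        refine (norm_exp_sub _ _).trans ?_
        rw [← mul_sub, abs_mul]
        exact mul_le_mul_of_nonneg_left h (abs_nonneg _)
      · rw [mul_one]
        refine (norm_sub_le _ _).trans ?_
        rw [Complex.norm_exp_ofReal_mul_I, Complex.norm_exp_ofReal_mul_I]
        have : 0 ≤ |t| * (1 / ((N : ℝ) + 1)) := by positivity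
        linarith
    · have ea : EB D.H (fun c => |t| * (1 / ((N : ℝ) + 1)) + 2 * far D.Q R (1 / ((N : ℝ) + 1)) c) =
          |t| * (1 / ((N : ℝ) + 1)) + 2 * EB D.H (fun c => far D.Q R (1 / ((N : ℝ) + 1)) c) := by
        rw [← EB_mul_left]
        have h0 := Pool.Agent.X280.BP.EB_const (ι := ι) D.H (|t| * (1 / ((N : ℝ) + 1)))
        conv_rhs => rw [← h0]
        unfold EB
        rw [Finset.sum_add_distrib, add_div]
      rw [ea]
      have h1 := hD.near
      rw [← hσdef] at h1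
      refine le_trans ?_ hN1
      have : EB D.H (fun c => far D.Q R (1 / ((N : ℝ) + 1)) c) ≤ 1 / ((N : ℝ) + 1) := h1
      linarith
  set X := EBc D.H (fun c => Complex.exp ((t * R c : ℝ) * Complex.I)) with hX
  have e : EBc D.H (fun c => Complex.exp ((t * D.Q c : ℝ) * Complex.I)) -
      ((Real.exp (-(t ^ 2 / 2)) : ℝ) : ℂ) =
      (EBc D.H (fun c => Complex.exp ((t * D.Q c : ℝ) * Complex.I)) - X) +
      ((X - phi Z' (y + 1) t) + ((phi Z' (y + 1) t -
        ((Real.exp (-(t ^ 2 * (V / σ ^ 2) / 2)) : ℝ) : ℂ)) +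
      (((Real.exp (-(t ^ 2 * (V / σ ^ 2) / 2)) : ℝ) : ℂ) - ((Real.exp (-(t ^ 2 / 2)) : ℝ) : ℂ)))) := by
    ring
  rw [e]
  have h1 := hA.trans (add_le_add hA1 hA2)
  have h2 := hB'.trans hB2
  refine (norm_add_le _ _).trans ?_
  refine (add_le_add hR ((norm_add_le _ _).trans (add_le_add h1 ((norm_add_le _ _).trans
    (add_le_add h2 hB3))))).trans ?_
  linarith

/-- **The normal law, uniformly in the data.** -/
theorem unif_law2 (u : ℝ) {ε : ℝ} (hε : 0 < ε) :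
    ∃ k : ℕ, ∀ D : Dat2 ι, D.Ok k →
      |(law D.H D.Q).real (Set.Iic u) - (gaussianReal 0 1).real (Set.Iic u)| ≤ ε := by
  by_contra hcon
  push Not at hcon
  choose Ds h1 h2 using hcon
  set μ : ℕ → ProbabilityMeasure ℝ := fun j => ⟨law (Ds j).H (Ds j).Q, inferInstance⟩ with hμ
  set ν' : ProbabilityMeasure ℝ := ⟨gaussianReal 0 1, inferInstance⟩ with hν
  have hconv : Tendsto μ atTop (𝓝 ν') := by
    rw [ProbabilityMeasure.tendsto_iff_tendsto_charFun]
    intro t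
    rw [hν]
    change Tendsto (fun j => charFun (law (Ds j).H (Ds j).Q) t) atTop
      (𝓝 (charFun (gaussianReal 0 1) t))
    rw [Metric.tendsto_atTop]
    intro e he
    obtain ⟨k, hk⟩ := unif_char2 (ι := ι) t (half_pos he)
    refine ⟨k, fun j hj => ?_⟩
    rw [law_char, dist_eq_norm, charFun_gaussianReal]
    have e1 : Complex.exp ((t : ℂ) * ((0 : ℝ) : ℂ) * Complex.I - (((1 : NNReal) : ℝ) : ℂ) * t ^ 2 / 2) =
        ((Real.exp (-(t ^ 2 / 2)) : ℝ) : ℂ) := by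
      push_cast
      congr 1
      ring
    have e2 := hk (Ds j) ((h1 j).mono hj)
    rw [← e1] at e2
    exact lt_of_le_of_lt e2 (by linarith)
  have hfr : (ν' : Measure ℝ) (frontier (Set.Iic u)) = 0 := by
    rw [frontier_Iic]
    have := nullSingletonClass_gaussianReal (μ := 0) (v := 1) one_ne_zero
    exact measure_singleton (μ := gaussianReal 0 1) u
  have h4 := ProbabilityMeasure.tendsto_measure_of_null_frontier_of_tendsto' hconv hfr
  have h5 : Tendsto (fun j => (law (Ds j).H (Ds j).Q).real (Set.Iic u)) atTop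
      (𝓝 ((gaussianReal 0 1).real (Set.Iic u))) :=
    (ENNReal.tendsto_toReal (measure_ne_top _ _)).comp h4
  rw [Metric.tendsto_atTop] at h5
  obtain ⟨N, hN⟩ := h5 ε hε
  have h6 := hN N le_rfl
  rw [Real.dist_eq] at h6
  have h7 := h2 N
  linarith

end Pool.Agent.X280.HG
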