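import Pool.Agent.X280.HG.Tate

/-!
# Logarithmic weights
-/

set_option autoImplicit false

namespace Pool.Agent.X280.HG

open Finset Filter Topology

/-- The primes up to `T`. -/
def primesUpTo (T : ℕ) : Finset ℕ := (range (T + 1)).filter Nat.Prime

theorem mem_primesUpTo {T p : ℕ} : p ∈ primesUpTo T ↔ p ≤ T ∧ p.Prime := by
  unfold primesUpTo
  rw [Finset.mem_filter, Finset.mem_range]
  constructor
  · rintro ⟨h1, h2⟩; exact ⟨by omega, h2⟩
  · rintro ⟨h1, h2⟩; exact ⟨by omega, h2⟩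

theorem card_primesUpTo (T : ℕ) : (primesUpTo T).card = Nat.primeCounting T := by
  unfold primesUpTo Nat.primeCounting Nat.primeCounting'
  rw [Nat.count_eq_card_filter_range]

theorem many_primes : ∀ᶠ T : ℕ in atTop, 2 * √(T : ℝ) ≤ ((primesUpTo T).card : ℝ) := by
  have h1 : Tendsto (fun x : ℝ => Real.log x / x ^ ((1 : ℝ) / 4)) atTop (𝓝 0) :=
    (isLittleO_log_rpow_atTop (by norm_num : (0 : ℝ) < 1 / 4)).tendsto_div_nhds_zero
  have h2 : Tendsto (fun T : ℕ => Real.log T / (T : ℝ) ^ ((1 : ℝ) / 4)) atTop (𝓝 0) :=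
    h1.comp tendsto_natCast_atTop_atTop
  have h3 := h2.eventually (ge_mem_nhds (show (0 : ℝ) < 1 by norm_num))
  have h4 : Tendsto (fun T : ℕ => (T : ℝ) ^ ((1 : ℝ) / 4)) atTop atTop :=
    (tendsto_rpow_atTop (by norm_num)).comp tendsto_natCast_atTop_atTop
  filter_upwards [eventually_ge_atTop 3, h3, h4.eventually_ge_atTop 12] with T hT hlog hbig
  have hT0 : (0 : ℝ) < T := by exact_mod_cast (by omega : 0 < T)
  obtain ⟨a, ha⟩ : ∃ a : ℝ, a = (T : ℝ) ^ ((1 : ℝ) / 4) := ⟨_, rfl⟩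
  rw [← ha] at hlog hbig
  have ha0 : 0 < a := by linarith
  have ha4 : a ^ 4 = T := by
    rw [ha, ← Real.rpow_natCast, ← Real.rpow_mul hT0.le]
    norm_num
  have hs : √(T : ℝ) = a ^ 2 := by
    rw [← ha4, show a ^ 4 = (a ^ 2) ^ 2 by ring, Real.sqrt_sq (by positivity)]
  have hlogT : Real.log T ≤ a := by
    rw [div_le_one ha0] at hlog
    exact hlog
  have hlog1 : 1 ≤ Real.log T := by
    have h3 : Real.exp 1 < 3 := by
      have := Real.exp_one_lt_d9
      linarith
    have h4 : (3 : ℝ) ≤ T := by exact_mod_cast hT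
    have h5 := (Real.lt_log_iff_exp_lt hT0).mpr (lt_of_lt_of_le h3 h4)
    exact h5.le
  have h5 := Chebyshev.psi_ge T
  have h6 := Chebyshev.psi_le_primeCounting_mul_log T
  rw [← card_primesUpTo] at h6
  have h7 : Real.log ((T : ℝ) + 1) ≤ Real.log T + 1 := by
    have h8 : Real.log ((T : ℝ) + 1) ≤ Real.log (2 * T) := by
      apply Real.log_le_log (by positivity)
      have : (1 : ℝ) ≤ T := by exact_mod_cast (by omega : 1 ≤ T)
      linarith
    rw [Real.log_mul (by norm_num) hT0.ne'] at h8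
    have := Real.log_two_lt_d9
    linarith
  have h9 : (1 : ℝ) / 2 ≤ Real.log 2 := by
    have := Real.log_two_gt_d9
    linarith
  rw [hs]
  have h10 : (T : ℝ) * (1 / 2) - (a + 1) ≤ ((primesUpTo T).card : ℝ) * Real.log T := by
    have : (T : ℝ) * (1 / 2) ≤ T * Real.log 2 := by gcongr
    linarith
  have h10' : a ^ 4 * (1 / 2) - (a + 1) ≤ ((primesUpTo T).card : ℝ) * Real.log T := by
    rw [ha4]; exact h10
  have h11 : 2 * a ^ 2 * Real.log T ≤ 2 * a ^ 2 * a := by gcongr
  have h12 : 2 * a ^ 2 * a ≤ a ^ 4 * (1 / 2) - (a + 1) := by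
    have h13 : 12 * a ^ 3 ≤ a * a ^ 3 := by gcongr
    have h14 : 1 ≤ a ^ 3 := one_le_pow₀ (by linarith)
    have h15 : a ≤ a ^ 3 := le_self_pow₀ (by linarith) (by norm_num)
    nlinarith
  have h16 : 2 * a ^ 2 * Real.log T ≤ ((primesUpTo T).card : ℝ) * Real.log T := by linarith
  exact le_of_mul_le_mul_right h16 (by linarith)

theorem log_weights : ∀ᶠ T : ℕ in atTop, 1 / 8 * ((primesUpTo T).card : ℝ) ≤
    ∑ p ∈ primesUpTo T, (Real.log p / Real.log T) ^ 2 := by
  classical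
  filter_upwards [many_primes, eventually_ge_atTop 3] with T hT hT3
  have hT0 : (0 : ℝ) < T := by exact_mod_cast (by omega : 0 < T)
  have hlog : 0 < Real.log T := Real.log_pos (by exact_mod_cast (by omega : 1 < T))
  set A := (primesUpTo T).filter (fun p : ℕ => (p : ℝ) ^ 2 ≤ T) with hA
  set B := (primesUpTo T).filter (fun p : ℕ => ¬ (p : ℝ) ^ 2 ≤ T) with hB
  have hcard : (A.card : ℝ) + B.card = (primesUpTo T).card := by
    have h0 : A.card + B.card = (primesUpTo T).card := by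
      rw [hA, hB]
      exact Finset.card_filter_add_card_filter_not (s := primesUpTo T)
        (fun p : ℕ => (p : ℝ) ^ 2 ≤ T)
    exact_mod_cast h0
  have hAc : (A.card : ℝ) ≤ √(T : ℝ) := by
    have h1 : A ⊆ Finset.Icc 1 (Nat.sqrt T) := by
      intro p hp
      rw [hA, Finset.mem_filter, mem_primesUpTo] at hp
      rw [Finset.mem_Icc]
      refine ⟨hp.1.2.pos, ?_⟩
      rw [Nat.le_sqrt']
      exact_mod_cast hp.2
    have h2 := Finset.card_le_card h1
    rw [Nat.card_Icc, Nat.add_sub_cancel] at h2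
    have h3 : (A.card : ℝ) ≤ (Nat.sqrt T : ℕ) := by exact_mod_cast h2
    exact h3.trans Real.nat_sqrt_le_real_sqrt
  have hBc : 1 / 2 * ((primesUpTo T).card : ℝ) ≤ B.card := by linarith
  have h4 : ∀ p ∈ B, (1 : ℝ) / 4 ≤ (Real.log p / Real.log T) ^ 2 := by
    intro p hp
    rw [hB, Finset.mem_filter, mem_primesUpTo] at hp
    have hp0 : (0 : ℝ) < p := by exact_mod_cast hp.1.2.pos
    have h5 : Real.log T ≤ 2 * Real.log p := by
      have h6 : Real.log T ≤ Real.log ((p : ℝ) ^ 2) :=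
        Real.log_le_log hT0 (not_le.mp hp.2).le
      rw [Real.log_pow] at h6
      exact_mod_cast h6
    have h7 : (1 : ℝ) / 2 ≤ Real.log p / Real.log T := by
      rw [le_div_iff₀ hlog]; linarith
    calc (1 : ℝ) / 4 = (1 / 2) ^ 2 := by norm_num
      _ ≤ _ := pow_le_pow_left₀ (by norm_num) h7 2
  calc 1 / 8 * ((primesUpTo T).card : ℝ) = 1 / 2 * ((primesUpTo T).card : ℝ) * (1 / 4) := by ring
    _ ≤ B.card * (1 / 4) := by gcongr
    _ = ∑ _p ∈ B, (1 : ℝ) / 4 := by rw [Finset.sum_const, nsmul_eq_mul]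
    _ ≤ ∑ p ∈ B, (Real.log p / Real.log T) ^ 2 := Finset.sum_le_sum h4
    _ ≤ _ := Finset.sum_le_sum_of_subset_of_nonneg (Finset.filter_subset _ _)
        fun _ _ _ => sq_nonneg _

/-- The average `T⁻¹ ∑_{p ≤ T} b_p(V) log p / p`. -/
noncomputable def tateAverage {r : ℕ} {n d : Fin r → ℕ} (c : Coeff n d → ℤ) (T : ℕ) : ℝ :=
  (∑ p ∈ primesUpTo T, b2 c p * Real.log p / p) / T

/-- The sum of `log p` over the primes up to `T`, divided by `T`. -/
noncomputable def thetaAverage (T : ℕ) : ℝ := (∑ p ∈ primesUpTo T, Real.log p) / T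

open ProbabilityTheory in
/-- **The normal law of the Tauberian averages.** -/
theorem law_tate {r : ℕ} (n d : Fin r → ℕ) (hn : ∀ i, 1 ≤ n i) (hd : ∀ i, 3 ≤ d i)
    (hv : 1 ≤ vdim n) (u ε : ℝ) (hε : 0 < ε) :
    ∃ K : ℕ, ∀ T H : ℕ, K ≤ T → T ^ K ≤ H →
      |({c : Coeff n d → ℤ | (∀ μ, |c μ| ≤ H) ∧ tateAverage c T ≤
        r * thetaAverage T + u * (√(vdim n * ∑ p ∈ primesUpTo T, Real.log p ^ 2) / T)}.ncard : ℝ) /
        (2 * H + 1 : ℝ) ^ Fintype.card (Coeff n d) - (gaussianReal 0 1).real (Set.Iic u)| ≤ ε := by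
  obtain ⟨K1, hK1⟩ := law_b2 n d hn hd hv (1 / 8) (by norm_num) u ε hε
  obtain ⟨K2, hK2⟩ := eventually_atTop.1 (many_primes.and log_weights)
  refine ⟨max (max K1 K2) (K1 ^ 2 + 3), fun T H hT hH => ?_⟩
  have hT1 : K2 ≤ T := (le_max_right _ _).trans ((le_max_left _ _).trans hT)
  have hT2 : K1 ^ 2 + 3 ≤ T := (le_max_right _ _).trans hT
  have hT0 : (0 : ℝ) < T := by exact_mod_cast (by omega : 0 < T)
  obtain ⟨h1, h2⟩ := hK2 T hT1
  have hlog : 0 < Real.log T := Real.log_pos (by exact_mod_cast (by omega : 1 < T))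
  have hcard : K1 ≤ (primesUpTo T).card := by
    have h3 : (K1 : ℝ) ≤ √(T : ℝ) := by
      apply Real.le_sqrt_of_sq_le
      exact_mod_cast (by omega : K1 ^ 2 ≤ T)
    have h4 : 0 ≤ √(T : ℝ) := Real.sqrt_nonneg _
    have h5 : (K1 : ℝ) ≤ ((primesUpTo T).card : ℝ) := by linarith
    exact_mod_cast h5
  have hfin := hK1 (primesUpTo T) (fun p => Real.log p / Real.log T) T H
    (fun p hp => ((mem_primesUpTo.1 hp).symm)) (fun p hp => by
      have h3 := mem_primesUpTo.1 hp
      have hp1 : (1 : ℝ) ≤ p := by exact_mod_cast h3.2.one_lt.le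
      rw [abs_of_nonneg (div_nonneg (Real.log_nonneg hp1) hlog.le), div_le_one hlog]
      exact Real.log_le_log (by linarith) (by exact_mod_cast h3.1)) h2 hcard
    ((Nat.pow_le_pow_right (by omega) ((le_max_left _ _).trans (le_max_left _ _))).trans hH)
  have e : {c : Coeff n d → ℤ | (∀ μ, |c μ| ≤ H) ∧ tateAverage c T ≤
        r * thetaAverage T + u * (√(vdim n * ∑ p ∈ primesUpTo T, Real.log p ^ 2) / T)} =
      {c : Coeff n d → ℤ | (∀ μ, |c μ| ≤ H) ∧
        ∑ p ∈ primesUpTo T, Real.log p / Real.log T * (b2 c p / p - r) ≤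
          u * √(vdim n * ∑ p ∈ primesUpTo T, (Real.log p / Real.log T) ^ 2)} := by
    ext c
    simp only [Set.mem_ofPred_eq]
    refine and_congr_right fun _ => ?_
    have e1 : tateAverage c T - r * thetaAverage T =
        (∑ p ∈ primesUpTo T, Real.log p * (b2 c p / p - r)) / T := by
      unfold tateAverage thetaAverage
      rw [mul_div_assoc', ← sub_div, Finset.mul_sum, ← Finset.sum_sub_distrib]
      congr 1
      refine Finset.sum_congr rfl fun p _ => ?_
      ring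
    have e2 : ∑ p ∈ primesUpTo T, Real.log p / Real.log T * (b2 c p / p - r) =
        (∑ p ∈ primesUpTo T, Real.log p * (b2 c p / p - r)) / Real.log T := by
      rw [Finset.sum_div]
      refine Finset.sum_congr rfl fun p _ => ?_
      ring
    have e3 : √(vdim n * ∑ p ∈ primesUpTo T, (Real.log p / Real.log T) ^ 2) =
        √(vdim n * ∑ p ∈ primesUpTo T, Real.log p ^ 2) / Real.log T := by
      have e4 : (vdim n : ℝ) * ∑ p ∈ primesUpTo T, (Real.log p / Real.log T) ^ 2 =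
          (vdim n * ∑ p ∈ primesUpTo T, Real.log p ^ 2) / Real.log T ^ 2 := by
        simp only [div_pow]
        rw [← Finset.sum_div, mul_div_assoc]
      rw [e4, Real.sqrt_div' _ (sq_nonneg _), Real.sqrt_sq hlog.le]
    rw [e2, e3]
    obtain ⟨S, hS⟩ : ∃ S : ℝ, S = ∑ p ∈ primesUpTo T, Real.log p * (b2 c p / p - r) := ⟨_, rfl⟩
    obtain ⟨σ, hσ⟩ : ∃ σ : ℝ, σ = √(vdim n * ∑ p ∈ primesUpTo T, Real.log p ^ 2) := ⟨_, rfl⟩
    rw [← hS] at e1
    rw [← hS, ← hσ]
    have e5 : u * (σ / Real.log T) = (u * σ) / Real.log T := by ring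
    have e6 : u * (σ / T) = (u * σ) / T := by ring
    rw [e5, e6, div_le_div_iff_of_pos_right hlog]
    have e7 : tateAverage c T = S / T + r * thetaAverage T := by linarith
    rw [e7]
    constructor
    · intro h
      have h3 : S / T ≤ (u * σ) / T := by linarith
      rwa [div_le_div_iff_of_pos_right hT0] at h3
    · intro h
      have h3 : S / T ≤ (u * σ) / T := by rwa [div_le_div_iff_of_pos_right hT0]
      linarith
  rw [e]
  exact hfin

end Pool.Agent.X280.HG
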