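import Pool.Agent.X280.UC.Local

/-!
# Moments of sums of independent variables
-/

set_option autoImplicit false

namespace Pool.Agent.X280.HG

open Finset Pool.Agent.X280.UC

/-- The moments of a sum of `n` independent variables with the moments `e k`. -/
def ME (e : ℕ → ℝ) : ℕ → ℕ → ℝ
  | 0, j => if j = 0 then 1 else 0
  | n + 1, j => ∑ k ∈ range (j + 1), (j.choose k : ℝ) * e k * ME e n (j - k)

/-- The moments of a centred variable of variance `q`, at most one in absolute value. -/
structure Adm (e : ℕ → ℝ) (q : ℝ) : Prop where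
  e0 : e 0 = 1
  e1 : e 1 = 0
  e2 : e 2 = q
  le : ∀ k, 2 ≤ k → |e k| ≤ q
  q0 : 0 ≤ q
  q1 : q ≤ 1

theorem ME_succ {e : ℕ → ℝ} {q : ℝ} (h : Adm e q) (n j : ℕ) :
    ME e (n + 1) (j + 2) = ME e n (j + 2) + ((j + 2).choose 2 : ℝ) * q * ME e n j +
      ∑ k ∈ range j, ((j + 2).choose (k + 3) : ℝ) * e (k + 3) * ME e n (j - (k + 1)) := by
  rw [ME, Finset.sum_range_succ', Finset.sum_range_succ', Finset.sum_range_succ']
  simp only [h.e0, h.e1, h.e2, Nat.choose_zero_right, Nat.cast_one, one_mul, zero_add, mul_zero,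
    zero_mul, add_zero, Nat.sub_zero, mul_one]
  have e1 : j + 2 - (0 + 1 + 1) = j := by omega
  rw [show (0 + 1 + 1 : ℕ) = 2 by rfl] at *
  simp only [show j + 2 - 2 = j by omega]
  have e2 : ∀ k ∈ range j, ((j + 2).choose (k + 1 + 1 + 1) : ℝ) * e (k + 1 + 1 + 1) *
      ME e n (j + 2 - (k + 1 + 1 + 1)) =
      ((j + 2).choose (k + 3) : ℝ) * e (k + 3) * ME e n (j - (k + 1)) := by
    intro k _
    rw [show k + 1 + 1 + 1 = k + 3 by ring, show j + 2 - (k + 3) = j - (k + 1) by omega]
  rw [Finset.sum_congr rfl e2]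
  ring

theorem ME_one {e : ℕ → ℝ} {q : ℝ} (h : Adm e q) (n : ℕ) : ME e n 0 = 1 ∧ ME e n 1 = 0 := by
  induction n with
  | zero => simp [ME]
  | succ n ih =>
    constructor
    · rw [ME]; simp [h.e0, ih.1]
    · rw [ME, Finset.sum_range_succ', Finset.sum_range_succ']; simp [h.e0, h.e1, ih.2]

theorem pow_diff2 {a b R : ℝ} (ha : 0 ≤ a) (hb : 0 ≤ b) (hR : a + b ≤ R) (h : ℕ) :
    |(a + b) ^ (h + 1) - a ^ (h + 1) - (h + 1) * b * a ^ h| * R ≤
      ((h : ℝ) + 1) ^ 2 * b ^ 2 * R ^ h := by
  have hR0 : 0 ≤ R := by linarith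
  have haR : a ≤ R := by linarith
  induction h with
  | zero => 
    have e : (a + b) ^ (0 + 1) - a ^ (0 + 1) - (((0 : ℕ) : ℝ) + 1) * b * a ^ 0 = 0 := by
      push_cast; ring
    rw [e]
    simp only [abs_zero, zero_mul]
    positivity
  | succ h ih =>
    have e : (a + b) ^ (h + 1 + 1) - a ^ (h + 1 + 1) - ((h + 1 : ℕ) + 1) * b * a ^ (h + 1) =
        (a + b) * ((a + b) ^ (h + 1) - a ^ (h + 1) - (h + 1) * b * a ^ h) +
          (h + 1) * b ^ 2 * a ^ h := by
      push_cast
      ring
    rw [e]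
    set D := (a + b) ^ (h + 1) - a ^ (h + 1) - (h + 1) * b * a ^ h with hD
    have h1 : |(a + b) * D + (h + 1) * b ^ 2 * a ^ h| ≤ R * |D| + (h + 1) * b ^ 2 * R ^ h := by
      refine (abs_add_le _ _).trans (add_le_add ?_ ?_)
      · rw [abs_mul, abs_of_nonneg (by positivity)]
        exact mul_le_mul_of_nonneg_right hR (abs_nonneg _)
      · rw [abs_of_nonneg (by positivity)]
        gcongr
    calc _ ≤ (R * |D| + (h + 1) * b ^ 2 * R ^ h) * R := mul_le_mul_of_nonneg_right h1 hR0
      _ = R * (|D| * R) + (h + 1) * b ^ 2 * R ^ (h + 1) := by ring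
      _ ≤ R * (((h : ℝ) + 1) ^ 2 * b ^ 2 * R ^ h) + (h + 1) * b ^ 2 * R ^ (h + 1) := by gcongr
      _ = (((h : ℝ) + 1) ^ 2 + (h + 1)) * b ^ 2 * R ^ (h + 1) := by ring
      _ ≤ (((h + 1 : ℕ) : ℝ) + 1) ^ 2 * b ^ 2 * R ^ (h + 1) := by
          gcongr
          push_cast
          nlinarith [Nat.cast_nonneg (α := ℝ) h]

/-- The asymptotic formula for the moments. -/
def Asy (j : ℕ) (C : ℝ) : Prop :=
  ∀ (e : ℕ → ℝ) (q : ℝ), Adm e q → ∀ (n : ℕ) (R : ℝ), 1 ≤ R → n * q ≤ R →
    |ME e n j - gm j * (n * q) ^ (j / 2)| * (if Even j then R else 1) ≤ C * R ^ (j / 2)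

theorem Asy.bound {j : ℕ} {C : ℝ} (h : Asy j C) {e : ℕ → ℝ} {q : ℝ} (he : Adm e q) {n : ℕ} {R : ℝ}
    (hR : 1 ≤ R) (hn : n * q ≤ R) : |ME e n j| ≤ (C + |gm j|) * R ^ (j / 2) := by
  have h1 := h e q he n R hR hn
  have hq := he.q0
  have h2 : |ME e n j - gm j * (n * q) ^ (j / 2)| ≤ C * R ^ (j / 2) := by
    refine le_trans ?_ h1
    refine le_mul_of_one_le_right (abs_nonneg _) ?_
    split_ifs <;> linarith
  have h3 : |gm j * (n * q) ^ (j / 2)| ≤ |gm j| * R ^ (j / 2) := by
    rw [abs_mul, abs_of_nonneg (show (0 : ℝ) ≤ (n * q) ^ (j / 2) by positivity)]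
    gcongr
  have h4 := abs_add_le (ME e n j - gm j * (n * q) ^ (j / 2)) (gm j * (n * q) ^ (j / 2))
  rw [sub_add_cancel] at h4
  calc _ ≤ _ := h4
    _ ≤ C * R ^ (j / 2) + |gm j| * R ^ (j / 2) := add_le_add h2 h3
    _ = _ := by ring

theorem telescoping (f : ℕ → ℝ) (B : ℝ) (n : ℕ) (h0 : f 0 = 0)
    (h : ∀ i, i < n → |f (i + 1) - f i| ≤ B) : |f n| ≤ n * B := by
  induction n with
  | zero => simp [h0]
  | succ n ih =>
    have h1 := ih fun i hi => h i (by omega)
    have h2 := h n (by omega)
    have h3 := abs_add_le (f (n + 1) - f n) (f n)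
    rw [sub_add_cancel] at h3
    calc _ ≤ _ := h3
      _ ≤ B + n * B := add_le_add h2 h1
      _ = _ := by push_cast; ring

theorem gm_even (h : ℕ) : gm (2 * h) = dd h := by
  unfold gm
  rw [if_pos ⟨h, by ring⟩, show 2 * h / 2 = h by omega]

theorem gm_odd (h : ℕ) : gm (2 * h + 1) = 0 := by
  unfold gm
  rw [if_neg]
  exact Nat.not_even_iff_odd.mpr ⟨h, rfl⟩

/-- **The moments of the sum.** -/
theorem exists_asy (j : ℕ) : ∃ C : ℝ, 0 ≤ C ∧ Asy j C := by
  induction j using Nat.strong_induction_on with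
  | _ j ih =>
  rcases j with _ | _ | j
  · refine ⟨0, le_rfl, fun e q he n R hR hn => ?_⟩
    rw [(ME_one he n).1]
    simp [gm, dd]
  · refine ⟨0, le_rfl, fun e q he n R hR hn => ?_⟩
    rw [(ME_one he n).2]
    have : gm (0 + 1) = 0 := gm_odd 0
    rw [this]
    simp
  · choose C hC0 hC using ih
    -- bounds for the lower moments
    set E : ℕ → ℝ := fun i => if hi : i < j + 2 then C i hi + |gm i| else 0 with hE
    have hE0 : ∀ i, 0 ≤ E i := by
      intro i
      rw [hE]; dsimp only
      split_ifs with h1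
      · have := hC0 i h1
        positivity
      · exact le_rfl
    have hb : ∀ (e : ℕ → ℝ) (q : ℝ), Adm e q → ∀ (n : ℕ) (R : ℝ), 1 ≤ R → n * q ≤ R →
        ∀ i, i < j + 2 → |ME e n i| ≤ E i * R ^ (i / 2) := by
      intro e q he n R hR hn i hi
      have := (hC i hi).bound he hR hn
      rw [hE]; dsimp only
      rw [dif_pos hi]
      exact this
    set K3 : ℝ := ∑ k ∈ range j, ((j + 2).choose (k + 3) : ℝ) * E (j - (k + 1)) with hK3
    have hK30 : 0 ≤ K3 := Finset.sum_nonneg fun k _ => mul_nonneg (Nat.cast_nonneg _) (hE0 _)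
    have hrest : ∀ (e : ℕ → ℝ) (q : ℝ), Adm e q → ∀ (n : ℕ) (R : ℝ), 1 ≤ R → n * q ≤ R →
        |∑ k ∈ range j, ((j + 2).choose (k + 3) : ℝ) * e (k + 3) * ME e n (j - (k + 1))| ≤
          q * K3 * R ^ ((j - 1) / 2) := by
      intro e q he n R hR hn
      refine (Finset.abs_sum_le_sum_abs _ _).trans ?_
      rw [hK3, Finset.mul_sum, Finset.sum_mul]
      refine Finset.sum_le_sum fun k hk => ?_
      rw [Finset.mem_range] at hk
      rw [abs_mul, abs_mul, abs_of_nonneg (Nat.cast_nonneg _)]
      have h1 := he.le (k + 3) (by omega)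
      have h2 := hb e q he n R hR hn (j - (k + 1)) (by omega)
      have h3 : R ^ ((j - (k + 1)) / 2) ≤ R ^ ((j - 1) / 2) :=
        pow_le_pow_right₀ hR (by omega)
      have h4 := hE0 (j - (k + 1))
      have hq := he.q0
      calc ((j + 2).choose (k + 3) : ℝ) * |e (k + 3)| * |ME e n (j - (k + 1))|
          ≤ ((j + 2).choose (k + 3) : ℝ) * q * (E (j - (k + 1)) * R ^ ((j - 1) / 2)) := by
            gcongr
            exact h2.trans (mul_le_mul_of_nonneg_left h3 h4)
        _ = _ := by ring
    rcases Nat.even_or_odd j with hj | hj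
    · -- even
      obtain ⟨h, rfl⟩ : ∃ h, j = 2 * h := by
        obtain ⟨a, ha⟩ := hj
        exact ⟨a, by omega⟩
      have ev : Even (2 * h + 2) := ⟨h + 1, by ring⟩
      have ed : (2 * h + 2) / 2 = h + 1 := by omega
      have eg : gm (2 * h + 2) = (2 * h + 1) * dd h := by
        rw [show 2 * h + 2 = 2 * (h + 1) by ring, gm_even, dd]
      set c2 : ℝ := ((2 * h + 2).choose 2 : ℝ) with hc2
      have hc2e : c2 = ((h : ℝ) + 1) * (2 * h + 1) := by
        rw [hc2, Nat.cast_choose_two]
        push_cast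
        ring
      set Ch := C (2 * h) (by omega) with hCh
      have hCh0 : 0 ≤ Ch := hC0 _ _
      have hdd := dd_pos h
      refine ⟨c2 * Ch + K3 + (2 * h + 1) * dd h * ((h : ℝ) + 1) ^ 2, by positivity,
        fun e q he n R hR hn => ?_⟩
      rw [if_pos ev, ed, eg]
      have hq := he.q0
      have hR0 : 0 < R := by linarith
      have key := telescoping (fun i => (ME e i (2 * h + 2) -
        (2 * h + 1) * dd h * (i * q) ^ (h + 1)) * R)
        (q * (c2 * Ch + K3 + (2 * h + 1) * dd h * ((h : ℝ) + 1) ^ 2) * R ^ h) n (by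
          simp [ME]) (fun i hi => by
          have hiq : ((i : ℝ) + 1) * q ≤ R := by
            refine le_trans ?_ hn
            have : (i : ℝ) + 1 ≤ n := by exact_mod_cast hi
            gcongr
          have hiq' : (i : ℝ) * q ≤ R := by
            have : (i : ℝ) * q ≤ ((i : ℝ) + 1) * q := by gcongr; linarith
            linarith
          have h1 := hC (2 * h) (by omega) e q he i R hR hiq'
          rw [if_pos ⟨h, by ring⟩, show 2 * h / 2 = h by omega, gm_even, ← hCh] at h1
          have h2 := hrest e q he i R hR hiq'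
          have h3 := pow_diff2 (a := i * q) (b := q) (R := R) (by positivity) hq (by linarith) h
          rw [ME_succ he i (2 * h)]
          set X := ME e i (2 * h) with hX
          set Y := ∑ k ∈ range (2 * h), ((2 * h + 2).choose (k + 3) : ℝ) * e (k + 3) *
            ME e i (2 * h - (k + 1)) with hY
          have e1 : (ME e i (2 * h + 2) + ((2 * h + 2).choose 2 : ℝ) * q * X + Y -
              (2 * h + 1) * dd h * (((i + 1 : ℕ) : ℝ) * q) ^ (h + 1)) * R -
              (ME e i (2 * h + 2) - (2 * h + 1) * dd h * (i * q) ^ (h + 1)) * R =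
              c2 * q * ((X - dd h * (i * q) ^ h) * R) + Y * R -
              (2 * h + 1) * dd h * (((i * q + q) ^ (h + 1) - (i * q) ^ (h + 1) -
                (h + 1) * q * (i * q) ^ h) * R) := by
            rw [← hc2]
            push_cast
            have : ((i : ℝ) + 1) * q = i * q + q := by ring
            rw [this, hc2e]
            ring
          rw [e1]
          have b1 : |c2 * q * ((X - dd h * (i * q) ^ h) * R)| ≤ c2 * q * (Ch * R ^ h) := by
            rw [abs_mul, abs_mul _ R, abs_of_pos hR0, abs_of_nonneg (by positivity : 0 ≤ c2 * q)]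
            gcongr
          have b2 : |Y * R| ≤ q * K3 * R ^ h := by
            rw [abs_mul, abs_of_pos hR0]
            rcases Nat.eq_zero_or_pos h with hh | hh
            · have hY0 : Y = 0 := by rw [hY, hh]; simp
              rw [hY0]
              simp only [abs_zero, zero_mul]
              positivity
            · calc |Y| * R ≤ q * K3 * R ^ ((2 * h - 1) / 2) * R := by gcongr
                _ = q * K3 * R ^ h := by
                    have : (2 * h - 1) / 2 + 1 = h := by omega
                    rw [mul_assoc, ← pow_succ, this]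
          have b3 : |(2 * h + 1) * dd h * (((i * q + q) ^ (h + 1) - (i * q) ^ (h + 1) -
                (h + 1) * q * (i * q) ^ h) * R)| ≤
                (2 * h + 1) * dd h * (((h : ℝ) + 1) ^ 2 * q * R ^ h) := by
            rw [abs_mul, abs_mul _ R, abs_of_pos hR0, abs_of_nonneg (by positivity :
              (0 : ℝ) ≤ (2 * h + 1) * dd h)]
            refine mul_le_mul_of_nonneg_left (h3.trans ?_) (by positivity)
            have hqq : q ^ 2 ≤ q := by
              rw [pow_two]
              exact mul_le_of_le_one_left hq he.q1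
            gcongr
          refine (abs_sub _ _).trans ((add_le_add ((abs_add_le _ _).trans (add_le_add b1 b2)) b3).trans
            (le_of_eq ?_))
          ring)
      rw [abs_mul, abs_of_pos hR0] at key
      refine key.trans ?_
      set KK := c2 * Ch + K3 + (2 * h + 1) * dd h * ((h : ℝ) + 1) ^ 2 with hKK
      have hKK0 : 0 ≤ KK := by positivity
      calc (n : ℝ) * (q * KK * R ^ h) = (n * q) * (KK * R ^ h) := by ring
        _ ≤ R * (KK * R ^ h) := by gcongr
        _ = _ := by ring
    · -- odd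
      obtain ⟨h, rfl⟩ : ∃ h, j = 2 * h + 1 := hj
      have ev : ¬ Even (2 * h + 1 + 2) := Nat.not_even_iff_odd.mpr ⟨h + 1, by ring⟩
      have ed : (2 * h + 1 + 2) / 2 = h + 1 := by omega
      have eg : gm (2 * h + 1 + 2) = 0 := by
        rw [show 2 * h + 1 + 2 = 2 * (h + 1) + 1 by ring, gm_odd]
      set c2 : ℝ := ((2 * h + 1 + 2).choose 2 : ℝ) with hc2
      have hc20 : 0 ≤ c2 := Nat.cast_nonneg _
      have hEj := hE0 (2 * h + 1)
      refine ⟨c2 * E (2 * h + 1) + K3, by positivity, fun e q he n R hR hn => ?_⟩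
      rw [if_neg ev, ed, eg, zero_mul, sub_zero, mul_one]
      have hq := he.q0
      have hR0 : 0 < R := by linarith
      have key := telescoping (fun i => ME e i (2 * h + 1 + 2))
        (q * (c2 * E (2 * h + 1) + K3) * R ^ h) n (by simp [ME]) (fun i hi => by
          have hiq' : (i : ℝ) * q ≤ R := by
            refine le_trans ?_ hn
            have : (i : ℝ) ≤ n := by exact_mod_cast hi.le
            gcongr
          have h1 := hb e q he i R hR hiq' (2 * h + 1) (by omega)
          rw [show (2 * h + 1) / 2 = h by omega] at h1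
          have h2 := hrest e q he i R hR hiq'
          rw [show (2 * h + 1 - 1) / 2 = h by omega] at h2
          rw [ME_succ he i (2 * h + 1)]
          set X := ME e i (2 * h + 1) with hX
          set Y := ∑ k ∈ range (2 * h + 1), ((2 * h + 1 + 2).choose (k + 3) : ℝ) * e (k + 3) *
            ME e i (2 * h + 1 - (k + 1)) with hY
          have e1 : ME e i (2 * h + 1 + 2) + ((2 * h + 1 + 2).choose 2 : ℝ) * q * X + Y -
              ME e i (2 * h + 1 + 2) = c2 * q * X + Y := by
            rw [← hc2]; ring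
          rw [e1]
          have b1 : |c2 * q * X| ≤ c2 * q * (E (2 * h + 1) * R ^ h) := by
            rw [abs_mul, abs_of_nonneg (by positivity : 0 ≤ c2 * q)]
            gcongr
          refine (abs_add_le _ _).trans ((add_le_add b1 h2).trans (le_of_eq ?_))
          ring)
      refine key.trans ?_
      set KK := c2 * E (2 * h + 1) + K3 with hKK
      have hKK0 : 0 ≤ KK := by positivity
      calc (n : ℝ) * (q * KK * R ^ h) = (n * q) * (KK * R ^ h) := by ring
        _ ≤ R * (KK * R ^ h) := by gcongr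
        _ = _ := by ring

end Pool.Agent.X280.HG
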