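import Pool.Agent.X280.HG.Main

/-!
# Multilinear polynomials in independent local data
-/

set_option autoImplicit false
set_option linter.unusedSectionVars false

namespace Pool.Agent.X280.HG

open Finset hiding val
open Pool.Agent.Y722.HS Pool.Agent.X280.BP Pool.Agent.X280.UC

section
variable {r : ℕ} {κ : Fin r → Type} [∀ i, Fintype (κ i)] [∀ i, DecidableEq (κ i)]

/-- **Independence** of the components. -/
theorem EM_sigma (p : ℕ) [NeZero p] (f : ∀ i, (κ i → ZMod p) → ℝ) :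
    EM p (fun c : (Σ i, κ i) → ZMod p => ∏ i, f i (fun j => c ⟨i, j⟩)) = ∏ i, EM p (f i) := by
  classical
  unfold EM
  rw [Finset.prod_div_distrib, Finset.prod_univ_sum, Fintype.piFinset_univ]
  congr 1
  · exact Fintype.sum_equiv (Equiv.piCurry (fun (_ : Fin r) _ => ZMod p)) _ _ fun c => rfl
  · rw [Finset.prod_pow_eq_pow_sum, Fintype.card_sigma]

theorem prod_small {B η : ℝ} (hB : 1 ≤ B) (x : Fin r → ℝ) (hx : ∀ i, |x i| ≤ B) (i0 : Fin r)
    (h0 : |x i0| ≤ η) : |∏ i, x i| ≤ η * B ^ r := by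
  classical
  have hη : 0 ≤ η := (abs_nonneg _).trans h0
  rw [← Finset.mul_prod_erase univ _ (Finset.mem_univ i0), abs_mul, Finset.abs_prod]
  have h1 : ∏ i ∈ univ.erase i0, |x i| ≤ B ^ r := by
    calc ∏ i ∈ univ.erase i0, |x i| ≤ ∏ _i ∈ univ.erase i0, B :=
          Finset.prod_le_prod (fun i _ => abs_nonneg _) fun i _ => hx i
      _ = B ^ (univ.erase i0).card := by rw [Finset.prod_const]
      _ ≤ B ^ r := by
          apply pow_le_pow_right₀ hB
          have := Finset.card_erase_le (s := (univ : Finset (Fin r))) (a := i0)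
          rwa [Finset.card_univ, Fintype.card_fin] at this
  exact mul_le_mul h0 h1 (Finset.prod_nonneg fun i _ => abs_nonneg _) hη

theorem prod_near {B η : ℝ} (hB : 1 ≤ B) (hη : 0 ≤ η) (x : Fin r → ℝ) (hx : ∀ i, |x i| ≤ B)
    (h1 : ∀ i, |x i - 1| ≤ η) (s : Finset (Fin r)) :
    |∏ i ∈ s, x i - 1| ≤ s.card * B ^ s.card * η := by
  classical
  induction s using Finset.induction_on with
  | empty => simp
  | insert i s hi ih =>
    rw [Finset.prod_insert hi, Finset.card_insert_of_notMem hi]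
    have e : x i * ∏ j ∈ s, x j - 1 = x i * (∏ j ∈ s, x j - 1) + (x i - 1) := by ring
    rw [e]
    have hB0 : 0 ≤ B := by linarith
    have hBs : 1 ≤ B ^ (s.card + 1) := one_le_pow₀ hB
    calc |x i * (∏ j ∈ s, x j - 1) + (x i - 1)| ≤ |x i * (∏ j ∈ s, x j - 1)| + |x i - 1| :=
          abs_add_le _ _
      _ = |x i| * |∏ j ∈ s, x j - 1| + |x i - 1| := by rw [abs_mul]
      _ ≤ B * (s.card * B ^ s.card * η) + 1 * η := by
          rw [one_mul]
          exact add_le_add (mul_le_mul (hx i) ih (abs_nonneg _) hB0) (h1 i)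
      _ ≤ B * (s.card * B ^ s.card * η) + B ^ (s.card + 1) * η := by gcongr
      _ = ((s.card + 1 : ℕ) : ℝ) * B ^ (s.card + 1) * η := by push_cast; ring

/-- The exponents of a product. -/
def ex (S : Finset (Fin r)) (i : Fin r) : ℕ := if i ∈ S then 1 else 0

theorem prod_ex (S : Finset (Fin r)) (a : Fin r → ℝ) : ∏ i ∈ S, a i = ∏ i, a i ^ ex S i := by
  classical
  have h1 : ∀ i, a i ^ ex S i = if i ∈ S then a i else 1 := by
    intro i
    unfold ex
    split_ifs <;> simp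
  simp only [h1]
  rw [Finset.prod_ite_mem, Finset.univ_inter]

variable (a : ∀ i, ∀ p : ℕ, (κ i → ZMod p) → ℝ) (𝒜 : Finset (Finset (Fin r)))
  (k : Finset (Fin r) → ℝ)

/-- The product over `S`. -/
noncomputable def XS (S : Finset (Fin r)) (p : ℕ) (c : (Σ i, κ i) → ZMod p) : ℝ :=
  ∏ i ∈ S, a i p (fun j => c ⟨i, j⟩)

/-- The multilinear polynomial. -/
noncomputable def US (p : ℕ) (c : (Σ i, κ i) → ZMod p) : ℝ := ∑ S ∈ 𝒜, k S * XS a S p c

/-- Moments of the components. -/
structure CD (B : ℝ) : Prop where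
  one : 1 ≤ B
  m1 : ∀ i, ∀ p : ℕ, p.Prime → ∀ [NeZero p], |EM p (a i p)| ≤ B / p
  m2 : ∀ i, ∀ p : ℕ, p.Prime → ∀ [NeZero p], |EM p (fun c => a i p c ^ 2) - 1| ≤ B / p
  m4 : ∀ i, ∀ p : ℕ, p.Prime → ∀ [NeZero p], EM p (fun c => a i p c ^ 4) ≤ B

variable {a} {B : ℝ}

theorem CD.pow_le (h : CD a B) (i : Fin r) (p : ℕ) (hp : p.Prime) [NeZero p] (e : ℕ)
    (he : e ≤ 2) : |EM p (fun c => a i p c ^ e)| ≤ 1 + B := by
  have hB := h.one
  have hp1 : (1 : ℝ) ≤ p := by exact_mod_cast hp.one_lt.le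
  have hBp : B / p ≤ B := div_le_self (by linarith) hp1
  interval_cases e
  · simp only [pow_zero]
    rw [EM_const', abs_one]
    linarith
  · simp only [pow_one]
    have := h.m1 i p hp
    linarith
  · have h2 := h.m2 i p hp
    have h3 := abs_add_le (EM p (fun c => a i p c ^ 2) - 1) 1
    rw [sub_add_cancel, abs_one] at h3
    linarith

theorem CD.four_le (h : CD a B) (i : Fin r) (p : ℕ) (hp : p.Prime) [NeZero p]
    (S : Finset (Fin r)) :
    |EM p (fun c => a i p c ^ (4 * ex S i))| ≤ 1 + B := by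
  have hB := h.one
  unfold ex
  split_ifs with hi
  · have h4 := h.m4 i p hp
    have h0 : 0 ≤ EM p (fun c => a i p c ^ 4) := by
      unfold EM
      have : 0 ≤ ∑ c, a i p c ^ 4 := Finset.sum_nonneg fun c _ => by positivity
      positivity
    simp only [mul_one]
    rw [abs_of_nonneg h0]
    linarith
  · simp only [mul_zero, pow_zero]
    rw [EM_const', abs_one]
    linarith

theorem EM_XS (S : Finset (Fin r)) (p : ℕ) [NeZero p] :
    EM p (XS a S p) = ∏ i, EM p (fun c => a i p c ^ ex S i) := by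
  rw [← EM_sigma]
  congr 1
  funext c
  unfold XS
  rw [prod_ex]

theorem EM_XX (S S' : Finset (Fin r)) (p : ℕ) [NeZero p] :
    EM p (fun c => XS a S p c * XS a S' p c) =
      ∏ i, EM p (fun c => a i p c ^ (ex S i + ex S' i)) := by
  rw [← EM_sigma]
  congr 1
  funext c
  unfold XS
  rw [prod_ex S, prod_ex S', ← Finset.prod_mul_distrib]
  refine Finset.prod_congr rfl fun i _ => ?_
  rw [pow_add]

theorem EM_X4 (S : Finset (Fin r)) (p : ℕ) [NeZero p] :
    EM p (fun c => XS a S p c ^ 4) = ∏ i, EM p (fun c => a i p c ^ (4 * ex S i)) := by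
  rw [← EM_sigma]
  congr 1
  funext c
  unfold XS
  rw [prod_ex, ← Finset.prod_pow]
  refine Finset.prod_congr rfl fun i _ => ?_
  rw [← pow_mul, mul_comm]

theorem ex_le (S : Finset (Fin r)) (i : Fin r) : ex S i ≤ 1 := by
  unfold ex; split_ifs <;> omega

theorem CD.mean (h : CD a B) (S : Finset (Fin r)) (hS : S.Nonempty) (p : ℕ) (hp : p.Prime)
    [NeZero p] : |EM p (XS a S p)| ≤ B / p * (1 + B) ^ r := by
  obtain ⟨i0, hi0⟩ := hS
  rw [EM_XS]
  have hB := h.one
  refine prod_small (by linarith) _ (fun i => h.pow_le i p hp _ ((ex_le S i).trans (by norm_num)))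
    i0 ?_
  have e : ex S i0 = 1 := by unfold ex; rw [if_pos hi0]
  rw [e]
  simp only [pow_one]
  exact h.m1 i0 p hp

theorem CD.cross (h : CD a B) (S S' : Finset (Fin r)) (p : ℕ) (hp : p.Prime) [NeZero p] :
    |EM p (fun c => XS a S p c * XS a S' p c) - (if S = S' then 1 else 0)| ≤
      (r + 1) * (1 + B) ^ r * B / p := by
  classical
  have hB := h.one
  have hp0 : (0 : ℝ) < p := by exact_mod_cast hp.pos
  have hr0 : (0 : ℝ) ≤ r := Nat.cast_nonneg r
  rw [EM_XX]
  by_cases hSS : S = S'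
  · rw [if_pos hSS, ← hSS]
    have h1 := prod_near (η := B / p) (B := 1 + B) (by linarith) (by positivity)
      (fun i => EM p (fun c => a i p c ^ (ex S i + ex S i)))
      (fun i => h.pow_le i p hp _ (by have := ex_le S i; omega)) (fun i => by
        unfold ex
        split_ifs with hi
        · exact h.m2 i p hp
        · simp only [Nat.add_zero, pow_zero]
          rw [EM_const', sub_self, abs_zero]
          positivity) univ
    rw [Finset.card_univ, Fintype.card_fin] at h1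
    refine h1.trans ?_
    rw [mul_div_assoc]
    have : (0 : ℝ) ≤ (1 + B) ^ r := by positivity
    gcongr
    linarith
  · rw [if_neg hSS, sub_zero]
    obtain ⟨i0, hi0⟩ : ∃ i0, ex S i0 + ex S' i0 = 1 := by
      by_contra hcon
      push Not at hcon
      apply hSS
      ext i
      have := hcon i
      unfold ex at this
      by_cases h1 : i ∈ S <;> by_cases h2 : i ∈ S' <;> simp [h1, h2] at this ⊢
    have h1 := prod_small (η := B / p) (B := 1 + B) (by linarith)
      (fun i => EM p (fun c => a i p c ^ (ex S i + ex S' i)))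
      (fun i => h.pow_le i p hp _ (by have := ex_le S i; have := ex_le S' i; omega)) i0 (by
        simp only [hi0, pow_one]
        exact h.m1 i0 p hp)
    refine h1.trans ?_
    have h2 : (0 : ℝ) ≤ (1 + B) ^ r := by positivity
    calc B / p * (1 + B) ^ r = 1 * (1 + B) ^ r * B / p := by ring
      _ ≤ (r + 1) * (1 + B) ^ r * B / p := by gcongr; linarith

theorem four_sum {α : Type*} (s : Finset α) (x : α → ℝ) :
    (∑ i ∈ s, x i) ^ 4 ≤ (s.card : ℝ) ^ 3 * ∑ i ∈ s, x i ^ 4 := by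
  have h1 := sq_sum_le_card_mul_sum_sq (s := s) (f := x)
  have h2 := sq_sum_le_card_mul_sum_sq (s := s) (f := fun i => x i ^ 2)
  have h3 : (∑ i ∈ s, (x i ^ 2) ^ 2) = ∑ i ∈ s, x i ^ 4 := by
    refine Finset.sum_congr rfl fun i _ => ?_
    ring
  rw [h3] at h2
  calc (∑ i ∈ s, x i) ^ 4 = ((∑ i ∈ s, x i) ^ 2) ^ 2 := by ring
    _ ≤ (s.card * ∑ i ∈ s, x i ^ 2) ^ 2 := pow_le_pow_left₀ (sq_nonneg _) h1 2
    _ = (s.card : ℝ) ^ 2 * (∑ i ∈ s, x i ^ 2) ^ 2 := by ring
    _ ≤ (s.card : ℝ) ^ 2 * (s.card * ∑ i ∈ s, x i ^ 4) := by gcongr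
    _ = _ := by ring

/-- **The moments of a multilinear polynomial.** -/
theorem ld_multi (h : CD a B) (h𝒜 : ∅ ∉ 𝒜) :
    ∃ C : ℝ, LD (US a 𝒜 k) 0 (∑ S ∈ 𝒜, k S ^ 2) C := by
  classical
  have hB := h.one
  have hr0 : (0 : ℝ) ≤ r := Nat.cast_nonneg r
  set C1 : ℝ := ∑ S ∈ 𝒜, |k S| * (B * (1 + B) ^ r) with hC1
  set C2 : ℝ := ∑ S ∈ 𝒜, ∑ S' ∈ 𝒜, |k S| * |k S'| * ((r + 1) * (1 + B) ^ r * B) with hC2
  set C4 : ℝ := (𝒜.card : ℝ) ^ 3 * ∑ S ∈ 𝒜, k S ^ 4 * (1 + B) ^ r with hC4
  have h10 : 0 ≤ C1 := Finset.sum_nonneg fun S _ => by positivity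
  have h20 : 0 ≤ C2 := Finset.sum_nonneg fun S _ => Finset.sum_nonneg fun S' _ => by positivity
  have h40 : 0 ≤ C4 := by
    have : 0 ≤ ∑ S ∈ 𝒜, k S ^ 4 * (1 + B) ^ r := Finset.sum_nonneg fun S _ => by positivity
    positivity
  refine ⟨C1 + C2 + C4, by linarith, fun p hp _ => ?_, fun p hp _ => ?_, fun p hp _ => ?_⟩
  · have hpf : Fact p.Prime := ⟨hp⟩
    have hp0 : (0 : ℝ) < p := by exact_mod_cast hp.pos
    have e : US a 𝒜 k p = fun c => ∑ S ∈ 𝒜, k S * XS a S p c := rfl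
    rw [sub_zero, e, EM_sum']
    have h1 : |∑ S ∈ 𝒜, EM p (fun c => k S * XS a S p c)| ≤ C1 / p := by
      rw [hC1, Finset.sum_div]
      refine (Finset.abs_sum_le_sum_abs _ _).trans (Finset.sum_le_sum fun S hS => ?_)
      have hne : S.Nonempty := by
        rw [Finset.nonempty_iff_ne_empty]
        rintro rfl
        exact h𝒜 hS
      rw [EM_mul', abs_mul]
      calc |k S| * |EM p (fun c => XS a S p c)| ≤ |k S| * (B / p * (1 + B) ^ r) :=
            mul_le_mul_of_nonneg_left (h.mean S hne p hp) (abs_nonneg _)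
        _ = _ := by ring
    refine h1.trans ?_
    gcongr
    linarith
  · have hpf : Fact p.Prime := ⟨hp⟩
    have hp0 : (0 : ℝ) < p := by exact_mod_cast hp.pos
    have e : (fun c : (Σ i, κ i) → ZMod p => US a 𝒜 k p c ^ 2) = fun c =>
        ∑ S ∈ 𝒜, ∑ S' ∈ 𝒜, (k S * k S') * (XS a S p c * XS a S' p c) := by
      funext c
      unfold US
      rw [pow_two, Finset.sum_mul_sum]
      refine Finset.sum_congr rfl fun S _ => Finset.sum_congr rfl fun S' _ => ?_
      ring
    have e2 : ∑ S ∈ 𝒜, k S ^ 2 = ∑ S ∈ 𝒜, ∑ S' ∈ 𝒜, (k S * k S') * (if S = S' then 1 else 0) := by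
      refine Finset.sum_congr rfl fun S hS => ?_
      simp only [mul_ite, mul_one, mul_zero]
      rw [Finset.sum_ite_eq, if_pos hS, pow_two]
    have h1 : |EM p (fun c => US a 𝒜 k p c ^ 2) - ∑ S ∈ 𝒜, k S ^ 2| ≤ C2 / p := by
      rw [e, e2, EM_sum', ← Finset.sum_sub_distrib, hC2, Finset.sum_div]
      refine (Finset.abs_sum_le_sum_abs _ _).trans (Finset.sum_le_sum fun S _ => ?_)
      rw [EM_sum', ← Finset.sum_sub_distrib, Finset.sum_div]
      refine (Finset.abs_sum_le_sum_abs _ _).trans (Finset.sum_le_sum fun S' _ => ?_)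
      rw [EM_mul', ← mul_sub, abs_mul, abs_mul, mul_div_assoc]
      exact mul_le_mul_of_nonneg_left (h.cross S S' p hp) (by positivity)
    refine h1.trans ?_
    gcongr
    linarith
  · have hpf : Fact p.Prime := ⟨hp⟩
    have h1 : EM p (fun c => US a 𝒜 k p c ^ 4) ≤
        EM p (fun c => (𝒜.card : ℝ) ^ 3 * ∑ S ∈ 𝒜, k S ^ 4 * XS a S p c ^ 4) := by
      refine EM_monoV p _ _ fun c => ?_
      unfold US
      refine (four_sum 𝒜 _).trans (le_of_eq ?_)
      congr 1
      refine Finset.sum_congr rfl fun S _ => ?_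
      ring
    rw [EM_mul', EM_sum'] at h1
    have h2 : (𝒜.card : ℝ) ^ 3 * ∑ S ∈ 𝒜, EM p (fun c => k S ^ 4 * XS a S p c ^ 4) ≤ C4 := by
      rw [hC4]
      refine mul_le_mul_of_nonneg_left (Finset.sum_le_sum fun S _ => ?_) (by positivity)
      rw [EM_mul']
      refine mul_le_mul_of_nonneg_left ?_ (by positivity)
      rw [EM_X4]
      refine (le_abs_self _).trans ?_
      rw [Finset.abs_prod]
      calc ∏ i, |EM p (fun c => a i p c ^ (4 * ex S i))| ≤ ∏ _i : Fin r, (1 + B) :=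
            Finset.prod_le_prod (fun i _ => abs_nonneg _) fun i _ => h.four_le i p hp S
        _ = (1 + B) ^ r := by rw [Finset.prod_const, Finset.card_univ, Fintype.card_fin]
    linarith

end

end Pool.Agent.X280.HG
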