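import Pool.Agent.X280.HG.Sigma
import Pool.Agent.X280.HG.Dim
import Pool.Agent.X280.HG.Final

/-!
# The normal law of the Tauberian averages of products of hypersurfaces
-/

set_option autoImplicit false
set_option linter.unusedSectionVars false

namespace Pool.Agent.X280.HG

open Finset hiding val
open Filter Topology Pool.Agent.Y722.HS Pool.Agent.X280.BP Pool.Agent.X280.UC MeasureTheory
  ProbabilityTheory

variable {r : ℕ}

/-- The indices of the surfaces. -/
def surf (n : Fin r → ℕ) : Finset (Fin r) := univ.filter fun i => n i = 2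

/-- The pairs of curves. -/
def prs (n : Fin r → ℕ) : Finset (Fin r × Fin r) :=
  univ.filter fun q => q.1 < q.2 ∧ n q.1 = 1 ∧ n q.2 = 1

/-- The coefficient vectors of the forms `F_0, ..., F_{r-1}`, `F_i` of degree `d i` in `n i + 2`
variables. -/
abbrev Coeff (n d : Fin r → ℕ) : Type := Σ i, Mon (n i + 1) (d i)

/-- The trace of Frobenius on `H²` of the product `V` of the hypersurfaces `F_i = 0`. -/
noncomputable def b2 {n d : Fin r → ℕ} (c : Coeff n d → ℤ) (p : ℕ) : ℝ :=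
  r * p + ∑ i ∈ surf n, (numPoints (fun μ => c ⟨i, μ⟩) p - ((p : ℝ) ^ 2 + p + 1)) +
    ∑ q ∈ prs n, ((p : ℝ) + 1 - numPoints (fun μ => c ⟨q.1, μ⟩) p) *
      ((p : ℝ) + 1 - numPoints (fun μ => c ⟨q.2, μ⟩) p)

/-- The dimension of the varying part. -/
def vdim (n : Fin r → ℕ) : ℕ := (surf n).card + (prs n).card

/-- The sets of indices. -/
def sets (n : Fin r → ℕ) : Finset (Finset (Fin r)) :=
  (surf n).image (fun i => {i}) ∪ (prs n).image (fun q => {q.1, q.2})

theorem disj (n : Fin r → ℕ) : Disjoint ((surf n).image (fun i => ({i} : Finset (Fin r))))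
    ((prs n).image (fun q => ({q.1, q.2} : Finset (Fin r)))) := by
  rw [Finset.disjoint_left]
  intro S h1 h2
  rw [Finset.mem_image] at h1 h2
  obtain ⟨i, _, rfl⟩ := h1
  obtain ⟨q, hq, h⟩ := h2
  unfold prs at hq
  rw [Finset.mem_filter] at hq
  have h3 := congrArg Finset.card h
  rw [Finset.card_pair (ne_of_lt hq.2.1), Finset.card_singleton] at h3
  omega

theorem inj_surf (n : Fin r → ℕ) : Set.InjOn (fun i => ({i} : Finset (Fin r))) (surf n) := by
  intro i _ j _ h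
  exact Finset.singleton_injective h

theorem inj_prs (n : Fin r → ℕ) :
    Set.InjOn (fun q : Fin r × Fin r => ({q.1, q.2} : Finset (Fin r))) (prs n) := by
  rintro ⟨i, j⟩ hq ⟨i', j'⟩ hq' h
  unfold prs at hq hq'
  simp only [Finset.coe_filter, Finset.mem_univ, true_and, Set.mem_ofPred_eq] at hq hq'
  simp only at h
  have h1 : i ∈ ({i', j'} : Finset (Fin r)) := by rw [← h]; simp
  have h2 : j ∈ ({i', j'} : Finset (Fin r)) := by rw [← h]; simp
  rw [Finset.mem_insert, Finset.mem_singleton] at h1 h2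
  have hij := hq.1
  have hij' := hq'.1
  rcases h1 with h1 | h1 <;> rcases h2 with h2 | h2
  · rw [h1, h2] at hij; exact absurd hij (lt_irrefl _)
  · rw [h1, h2]
  · rw [h1, h2] at hij; exact absurd (hij.trans hij') (lt_irrefl _)
  · rw [h1, h2] at hij; exact absurd hij (lt_irrefl _)

theorem sum_sets (n : Fin r → ℕ) (f : Finset (Fin r) → ℝ) :
    ∑ S ∈ sets n, f S = ∑ i ∈ surf n, f {i} + ∑ q ∈ prs n, f {q.1, q.2} := by
  unfold sets
  rw [Finset.sum_union (disj n), Finset.sum_image (inj_surf n), Finset.sum_image (inj_prs n)]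

theorem empty_notMem (n : Fin r → ℕ) : ∅ ∉ sets n := by
  unfold sets
  rw [Finset.mem_union, Finset.mem_image, Finset.mem_image]
  rintro (⟨i, _, h⟩ | ⟨q, _, h⟩)
  · exact absurd h (Finset.singleton_ne_empty i)
  · exact absurd h (Finset.insert_ne_empty _ _)

/-- The components. -/
noncomputable def aC (n d : Fin r → ℕ) (i : Fin r) (p : ℕ) (c : Mon (n i + 1) (d i) → ZMod p) : ℝ :=
  at' (n i) (d i) p c

theorem cd_aC (n d : Fin r → ℕ) (hn : ∀ i, 1 ≤ n i) (hd : ∀ i, 3 ≤ d i) :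
    ∃ B : ℝ, CD (κ := fun i => Mon (n i + 1) (d i)) (aC n d) B := by
  obtain ⟨B, hB, h⟩ := EM_at
  refine ⟨B, hB, fun i p hp _ => ?_, fun i p hp _ => ?_, fun i p hp _ => ?_⟩
  · have : Fact p.Prime := ⟨hp⟩
    exact (h (n i) (d i) (hn i) (hd i) p).1
  · have : Fact p.Prime := ⟨hp⟩
    exact (h (n i) (d i) (hn i) (hd i) p).2.1
  · have : Fact p.Prime := ⟨hp⟩
    exact (h (n i) (d i) (hn i) (hd i) p).2.2

theorem b2_eq {n d : Fin r → ℕ} (c : Coeff n d → ℤ) (p : ℕ) (hp : p.Prime) :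
    b2 c p / p - r = US (κ := fun i => Mon (n i + 1) (d i)) (aC n d) (sets n) (fun _ => 1) p
      (red p c) := by
  classical
  have hp0 : (0 : ℝ) < p := by exact_mod_cast hp.pos
  unfold US
  rw [sum_sets]
  simp only [one_mul]
  have hnum : ∀ i, numPoints (fun μ => c ⟨i, μ⟩) p =
      (cone (fun μ : Mon (n i + 1) (d i) => red p c ⟨i, μ⟩) : ℝ) / (p - 1) := fun i => rfl
  have h1 : ∀ i ∈ surf n, XS (κ := fun i => Mon (n i + 1) (d i)) (aC n d) {i} p (red p c) =
      (numPoints (fun μ => c ⟨i, μ⟩) p - ((p : ℝ) ^ 2 + p + 1)) / p := by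
    intro i hi
    unfold surf at hi
    rw [Finset.mem_filter] at hi
    have e1 : ∑ j ∈ range (n i + 1), (p : ℝ) ^ j = (p : ℝ) ^ 2 + p + 1 := by
      rw [hi.2, Finset.sum_range_succ, Finset.sum_range_succ, Finset.sum_range_one]
      ring
    have e2 : √((p : ℝ) ^ (n i)) = p := by
      rw [hi.2]
      exact Real.sqrt_sq hp0.le
    unfold XS
    rw [Finset.prod_singleton]
    unfold aC at'
    rw [e1, e2, hnum]
  have h2 : ∀ i, n i = 1 → aC n d i p (fun μ => red p c ⟨i, μ⟩) =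
      -((p : ℝ) + 1 - numPoints (fun μ => c ⟨i, μ⟩) p) / √p := by
    intro i hi
    have e1 : ∑ j ∈ range (n i + 1), (p : ℝ) ^ j = (p : ℝ) + 1 := by
      rw [hi, Finset.sum_range_succ, Finset.sum_range_one]
      ring
    have e2 : √((p : ℝ) ^ (n i)) = √p := by
      rw [hi, pow_one]
    unfold aC at'
    rw [e1, e2, hnum]
    ring
  have h3 : ∀ q ∈ prs n, XS (κ := fun i => Mon (n i + 1) (d i)) (aC n d) {q.1, q.2} p (red p c) =
      ((p : ℝ) + 1 - numPoints (fun μ => c ⟨q.1, μ⟩) p) *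
      ((p : ℝ) + 1 - numPoints (fun μ => c ⟨q.2, μ⟩) p) / p := by
    intro q hq
    unfold prs at hq
    rw [Finset.mem_filter] at hq
    unfold XS
    rw [Finset.prod_pair (ne_of_lt hq.2.1), h2 q.1 hq.2.2.1, h2 q.2 hq.2.2.2]
    have hs : √(p : ℝ) * √(p : ℝ) = p := Real.mul_self_sqrt hp0.le
    rw [div_mul_div_comm, hs]
    ring
  rw [Finset.sum_congr rfl h1, Finset.sum_congr rfl h3, ← Finset.sum_div, ← Finset.sum_div]
  unfold b2
  field_simp
  ring

/-- **The normal law** with arbitrary sets of primes and weights. -/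
theorem law_b2 (n d : Fin r → ℕ) (hn : ∀ i, 1 ≤ n i) (hd : ∀ i, 3 ≤ d i) (hv : 1 ≤ vdim n)
    (δ : ℝ) (hδ : 0 < δ) (u ε : ℝ) (hε : 0 < ε) :
    ∃ K : ℕ, ∀ (P : Finset ℕ) (w : ℕ → ℝ) (y H : ℕ), (∀ p ∈ P, p.Prime ∧ p ≤ y) →
      (∀ p ∈ P, |w p| ≤ 1) → δ * P.card ≤ ∑ p ∈ P, w p ^ 2 → K ≤ P.card → y ^ K ≤ H →
      |({c : Coeff n d → ℤ | (∀ μ, |c μ| ≤ H) ∧
        ∑ p ∈ P, w p * (b2 c p / p - r) ≤ u * √(vdim n * ∑ p ∈ P, w p ^ 2)}.ncard : ℝ) /
        (2 * H + 1 : ℝ) ^ Fintype.card (Coeff n d) - (gaussianReal 0 1).real (Set.Iic u)| ≤ ε := by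
  classical
  obtain ⟨B, hB⟩ := cd_aC n d hn hd
  obtain ⟨C, hC⟩ := ld_multi (sets n) (fun _ => 1) hB (empty_notMem n)
  have hsum : ∑ S ∈ sets n, ((fun _ => 1 : Finset (Fin r) → ℝ) S) ^ 2 = vdim n := by
    rw [sum_sets]
    simp only [one_pow, Finset.sum_const, nsmul_eq_mul, mul_one]
    unfold vdim
    push_cast
    ring
  rw [hsum] at hC
  have hv0 : (0 : ℝ) < vdim n := by exact_mod_cast hv
  obtain ⟨K, hK⟩ := abs_law hC (by linarith : (0 : ℝ) < vdim n - 0 ^ 2) hδ u hε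
  refine ⟨max K 1, fun P w y H hP hw hvar hcard hH => ?_⟩
  have hc1 : 1 ≤ P.card := (le_max_right _ _).trans hcard
  have hy1 : 1 ≤ y := by
    obtain ⟨p, hp⟩ : P.Nonempty := by rw [← Finset.card_pos]; omega
    have h1 := (hP p hp).2
    have h2 := (hP p hp).1.pos
    omega
  have hfin := hK P w y H hP hw hvar ((le_max_left _ _).trans hcard)
    ((Nat.pow_le_pow_right hy1 (le_max_left _ _)).trans hH)
  have hW0 : 0 < ∑ p ∈ P, w p ^ 2 := by
    have : (1 : ℝ) ≤ P.card := by exact_mod_cast hc1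
    have h2 : 0 < δ * P.card := by positivity
    linarith
  have hs0 : 0 < √(vdim n * ∑ p ∈ P, w p ^ 2) := Real.sqrt_pos.2 (mul_pos hv0 hW0)
  rw [show (vdim n : ℝ) - 0 ^ 2 = vdim n by ring] at hfin
  rw [measureReal_def, law_apply H _ _ measurableSet_Iic,
    ENNReal.toReal_ofReal (by positivity)] at hfin
  rw [ncard_box]
  have e : ((Pool.Agent.Y722.HS.box (Coeff n d) H).filter (fun c =>
      ∑ p ∈ P, w p * (b2 c p / p - r) ≤ u * √(vdim n * ∑ p ∈ P, w p ^ 2))) =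
      (Pool.Agent.Y722.HS.box (Coeff n d) H).filter (fun c =>
        (∑ p ∈ P, w p * (US (κ := fun i => Mon (n i + 1) (d i)) (aC n d) (sets n) (fun _ => 1) p
          (red p c) - 0)) / √(vdim n * ∑ p ∈ P, w p ^ 2) ∈ Set.Iic u) := by
    apply Finset.filter_congr
    intro c _
    rw [Set.mem_Iic, div_le_iff₀ hs0]
    have e2 : ∑ p ∈ P, w p * (b2 c p / p - r) = ∑ p ∈ P, w p *
        (US (κ := fun i => Mon (n i + 1) (d i)) (aC n d) (sets n) (fun _ => 1) p (red p c) - 0) := by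
      refine Finset.sum_congr rfl fun p hp => ?_
      rw [b2_eq c p (hP p hp).1, sub_zero]
    rw [e2]
  rw [e]
  exact hfin

end Pool.Agent.X280.HG
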