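import Pool.Agent.X280.UC.Unif

/-!
# Comparison with the model and the normal law in terms of the variances
-/

set_option autoImplicit false
set_option linter.unusedSimpArgs false
set_option linter.unusedSectionVars false

namespace Pool.Agent.X280.HG

open Finset Filter Topology Pool.Agent.Y722.HS Pool.Agent.X280.BP MeasureTheory ProbabilityTheory

variable {ι : Type} [Fintype ι] [DecidableEq ι]

theorem EM_exp_var (p : ℕ) [NeZero p] (Z : (ι → ZMod p) → ℝ) (l : ℝ) (hb : ∀ c, |l * Z c| ≤ 1)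
    (h0 : EM p Z = 0) :
    EM p (fun c => Real.exp (l * Z c)) ≤ Real.exp (l ^ 2 * EM p (fun c => Z c ^ 2)) := by
  have h1 : EM p (fun c => Real.exp (l * Z c)) ≤
      EM p (fun c => (1 + l * Z c) + l ^ 2 * Z c ^ 2) := by
    unfold EM
    gcongr with c
    have h2 := Real.abs_exp_sub_one_sub_id_le (hb c)
    have h3 := (abs_le.mp h2).2
    have e : (l * Z c) ^ 2 = l ^ 2 * Z c ^ 2 := by ring
    linarith
  rw [EM_add', EM_add', EM_mul', EM_mul', EM_const', h0, mul_zero, add_zero] at h1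
  refine h1.trans ?_
  have := Real.add_one_le_exp (l ^ 2 * EM p (fun c => Z c ^ 2))
  linarith

/-- **The even moments.** -/
theorem mom_evenV (I : Finset ℕ) (x : ℕ) (hI : ∀ p ∈ I, p.Prime ∧ p ≤ x)
    (Z : ∀ p : ℕ, (ι → ZMod p) → ℝ) (b : ℕ → ℝ) (hb : ∀ p ∈ I, ∀ c, |Z p c| ≤ b p)
    (h0 : ∀ p ∈ I, ∀ [NeZero p], EM p (Z p) = 0) (W : ℝ) (hW : ∑ p ∈ I, vv Z p ≤ W)
    (l : ℝ) (hl : 0 < l) (hlb : ∀ p ∈ I, l * b p ≤ 1) (k H : ℕ) (hH : x ^ (2 * k) ≤ 2 * H + 1) :
    EB H (fun c => (∑ p ∈ I, Z p (red p c)) ^ (2 * k)) ≤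
      2 * ((2 * k).factorial : ℝ) / l ^ (2 * k) * Real.exp (l ^ 2 * W) +
      2 ^ Fintype.card ι * ((x : ℝ) ^ (2 * k) / (2 * H + 1)) * (∑ p ∈ I, b p) ^ (2 * k) := by
  set S : (ι → ℤ) → ℝ := fun c => ∑ p ∈ I, Z p (red p c) with hS
  have hle : ∀ l' : ℝ, |l'| = l →
      ∏ p ∈ I, (Ep p (fun c => (Real.exp (l' * Z p c) : ℂ))).re ≤ Real.exp (l ^ 2 * W) := by
    intro l' hl'
    have hl2 : l' ^ 2 = l ^ 2 := by rw [← hl', sq_abs]
    have h1 : ∀ p ∈ I, 0 ≤ (Ep p (fun c => (Real.exp (l' * Z p c) : ℂ))).re ∧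
        (Ep p (fun c => (Real.exp (l' * Z p c) : ℂ))).re ≤ Real.exp (l ^ 2 * vv Z p) := by
      intro p hp
      have : NeZero p := ⟨(hI p hp).1.ne_zero⟩
      rw [Ep_eq, EMc_ofReal, Complex.ofReal_re, ← hl2, vv_eq]
      refine ⟨?_, EM_exp_var p (Z p) l' (fun c => ?_) (h0 p hp)⟩
      · unfold EM
        positivity
      · rw [abs_mul, hl']
        exact (mul_le_mul_of_nonneg_left (hb p hp c) hl.le).trans (hlb p hp)
    refine (Finset.prod_le_prod (fun p hp => (h1 p hp).1) fun p hp => (h1 p hp).2).trans ?_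
    rw [← Real.exp_sum, ← Finset.mul_sum]
    exact Real.exp_le_exp.mpr (mul_le_mul_of_nonneg_left hW (by positivity))
  have hlim1 := lim_exp I (fun p hp => (hI p hp).1) Z l
  have hlim2 := lim_exp I (fun p hp => (hI p hp).1) Z (-l)
  have hlim3 : Tendsto (fun H' : ℕ => 2 ^ Fintype.card ι * ((x : ℝ) ^ (2 * k) / (2 * H + 1) +
      (x : ℝ) ^ (2 * k) / (2 * (H' : ℝ) + 1)) * (∑ p ∈ I, b p) ^ (2 * k)) atTop
      (𝓝 (2 ^ Fintype.card ι * ((x : ℝ) ^ (2 * k) / (2 * H + 1) + 0) *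
        (∑ p ∈ I, b p) ^ (2 * k))) :=
    ((tendsto_const_nhds.add (tendsto_ratio _)).const_mul _).mul_const _
  have hG := (((hlim1.add hlim2).const_mul (((2 * k).factorial : ℝ) / l ^ (2 * k)))).add hlim3
  have hlower : ∀ᶠ H' : ℕ in atTop, EB H (fun c => S c ^ (2 * k)) ≤
      ((2 * k).factorial : ℝ) / l ^ (2 * k) * (EB H' (fun c => Real.exp (l * S c)) +
        EB H' (fun c => Real.exp (-l * S c))) +
      2 ^ Fintype.card ι * ((x : ℝ) ^ (2 * k) / (2 * H + 1) +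
      (x : ℝ) ^ (2 * k) / (2 * (H' : ℝ) + 1)) * (∑ p ∈ I, b p) ^ (2 * k) := by
    filter_upwards [eventually_ge_atTop (x ^ (2 * k))] with H' hH'
    have h1 := mom_diff I x (fun p hp => ⟨(hI p hp).1.ne_zero, (hI p hp).2⟩) Z b hb (2 * k) H H' hH
      (by omega)
    have h2 := (abs_le.mp h1).2
    have h3 : EB H' (fun c => S c ^ (2 * k)) ≤ ((2 * k).factorial : ℝ) / l ^ (2 * k) *
        (EB H' (fun c => Real.exp (l * S c)) + EB H' (fun c => Real.exp (-l * S c))) := by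
      have h4 : ∀ c, S c ^ (2 * k) ≤ ((2 * k).factorial : ℝ) / l ^ (2 * k) *
          (Real.exp (l * S c) + Real.exp (-l * S c)) := by
        intro c
        have h5 := Real.pow_div_factorial_le_exp (|l * S c|) (abs_nonneg _) (2 * k)
        have h6 : Real.exp |l * S c| ≤ Real.exp (l * S c) + Real.exp (-l * S c) := by
          rcases abs_cases (l * S c) with ⟨h, _⟩ | ⟨h, _⟩
          · rw [h]; linarith [Real.exp_pos (-l * S c)]
          · rw [h, ← neg_mul]; linarith [Real.exp_pos (l * S c)]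
        have h7 : |l * S c| ^ (2 * k) = l ^ (2 * k) * S c ^ (2 * k) := by
          rw [pow_mul, sq_abs, ← pow_mul, mul_pow]
        rw [h7] at h5
        have hf : (0 : ℝ) < (2 * k).factorial := by exact_mod_cast Nat.factorial_pos _
        have hl2 : 0 < l ^ (2 * k) := by positivity
        have h8 := h5.trans h6
        rw [div_le_iff₀ hf] at h8
        rw [div_mul_eq_mul_div, le_div_iff₀ hl2]
        linarith
      refine (EB_mono H' _ _ h4).trans (le_of_eq ?_)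
      unfold EB
      rw [← Finset.mul_sum, Finset.sum_add_distrib]
      ring
    linarith
  have h9 := ge_of_tendsto hG hlower
  have h10 := hle l (abs_of_pos hl)
  have h11 := hle (-l) (by rw [abs_neg, abs_of_pos hl])
  have hf : (0 : ℝ) ≤ ((2 * k).factorial : ℝ) / l ^ (2 * k) := by positivity
  have h12 := mul_le_mul_of_nonneg_left (add_le_add h10 h11) hf
  rw [add_zero] at h9
  refine h9.trans (add_le_add (h12.trans (le_of_eq ?_)) le_rfl)
  ring

/-- **Comparison with the model** in terms of the variances. -/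
theorem charV (Z : ∀ p : ℕ, (ι → ZMod p) → ℝ) {η : ℝ} (hη0 : 0 ≤ η) (hη1 : η ≤ 1) {x H m : ℕ}
    (hx1 : 1 ≤ x) (hm : 1 ≤ m) (hH : x ^ (2 * m) ≤ 2 * H + 1)
    (hb : ∀ p ∈ (Ico 0 x).filter Nat.Prime, ∀ c, |Z p c| ≤ η)
    (hmean : ∀ p ∈ (Ico 0 x).filter Nat.Prime, ∀ [NeZero p], EM p (Z p) = 0)
    {s W : ℝ} (hs : |s| ≤ 1) (hW0 : 0 < W) (hηW : η ^ 2 * m ≤ W)
    (hW : ∑ p ∈ (Ico 0 x).filter Nat.Prime, vv Z p ≤ W) :
    ‖EBc H (fun c => Complex.exp ((s * SS Z 0 x c : ℝ) * Complex.I)) - phi Z x s‖ ≤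
      4 * 2 ^ Fintype.card ι * ((x : ℝ) ^ 2) ^ (2 * m) / (2 * H + 1) +
      4 * (s ^ 2 * W * Real.exp 1 / m) ^ m := by
  classical
  have hxR : (1 : ℝ) ≤ x := by exact_mod_cast hx1
  set I := (Ico 0 x).filter Nat.Prime with hI
  set n := Fintype.card ι with hn
  set S : (ι → ℤ) → ℝ := fun c => SS Z 0 x c with hS
  set b : ℕ → ℝ := fun _ => η with hbdef
  have hIp : ∀ p ∈ I, p.Prime ∧ p ≤ x := fun p hp => by
    rw [hI, Finset.mem_filter, Finset.mem_Ico] at hp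
    exact ⟨hp.2, by omega⟩
  have hsum : ∑ p ∈ I, b p ≤ x := by
    rw [hbdef, Finset.sum_const, nsmul_eq_mul]
    have hc : I.card ≤ x := by
      calc I.card ≤ (Ico 0 x).card := Finset.card_filter_le _ _
        _ = x := by simp
    have : (I.card : ℝ) ≤ x := by exact_mod_cast hc
    calc (I.card : ℝ) * η ≤ x * 1 := by gcongr
      _ = x := mul_one _
  have hsum0 : 0 ≤ ∑ p ∈ I, b p := Finset.sum_nonneg fun _ _ => hη0
  set q : ℝ := (x : ℝ) ^ 2 with hq
  have hq1 : 1 ≤ q := one_le_pow₀ hxR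
  have hxs : ∀ j : ℕ, (x : ℝ) ^ j * (∑ p ∈ I, b p) ^ j ≤ q ^ j := by
    intro j
    rw [← mul_pow]
    apply pow_le_pow_left₀ (by positivity)
    calc (x : ℝ) * ∑ p ∈ I, b p ≤ x * x := by gcongr
      _ = q := by rw [hq]; ring
  have hqj : ∀ j : ℕ, j ≤ 2 * m → q ^ j ≤ q ^ (2 * m) := fun j hj => pow_le_pow_right₀ hq1 hj
  -- the moments over the two boxes
  have hdiff : ∀ H' : ℕ, x ^ (2 * m) ≤ 2 * H' + 1 → ∀ j : ℕ, j ≤ 2 * m →
      |EB H (fun c => S c ^ j) - EB H' (fun c => S c ^ j)| ≤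
        2 ^ n * q ^ (2 * m) * (1 / (2 * H + 1) + 1 / (2 * H' + 1)) := by
    intro H' hH' j hj
    have hxj : x ^ j ≤ x ^ (2 * m) := Nat.pow_le_pow_right hx1 hj
    have h1 := mom_diff I x (fun p hp => ⟨(hIp p hp).1.ne_zero, (hIp p hp).2⟩) Z
      b hb j H H' (hxj.trans hH) (hxj.trans hH')
    refine h1.trans ?_
    rw [← hn]
    calc 2 ^ n * ((x : ℝ) ^ j / (2 * H + 1) + (x : ℝ) ^ j / (2 * H' + 1)) *
          (∑ p ∈ I, b p) ^ j
        = 2 ^ n * ((x : ℝ) ^ j * (∑ p ∈ I, b p) ^ j) *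
          (1 / (2 * H + 1) + 1 / (2 * H' + 1)) := by ring
      _ ≤ 2 ^ n * q ^ (2 * m) * (1 / (2 * H + 1) + 1 / (2 * H' + 1)) := by
          gcongr
          exact (hxs j).trans (hqj j hj)
  -- the even moment
  set l : ℝ := Real.sqrt (m / W) with hl
  have hm0 : (0 : ℝ) < m := by exact_mod_cast hm
  have hl0 : 0 < l := Real.sqrt_pos.2 (by positivity)
  have hl2 : l ^ 2 = m / W := Real.sq_sqrt (by positivity)
  have hl2m : l ^ (2 * m) = (m / W) ^ m := by rw [pow_mul, hl2]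
  have hlb : ∀ p ∈ I, l * b p ≤ 1 := by
    intro p _
    rw [hbdef]
    have h1 : (l * η) ^ 2 ≤ 1 ^ 2 := by
      rw [mul_pow, hl2, one_pow, div_mul_eq_mul_div, div_le_one hW0]
      linarith
    exact (abs_le_of_sq_le_sq' h1 (by norm_num)).2
  have heven : ∀ H' : ℕ, x ^ (2 * m) ≤ 2 * H' + 1 → EB H' (fun c => S c ^ (2 * m)) ≤
      ((2 * m).factorial : ℝ) * (2 * (W * Real.exp 1 / m) ^ m) +
        2 ^ n * q ^ (2 * m) * (1 / (2 * H' + 1)) := by
    intro H' hH'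
    have h1 := mom_evenV I x hIp Z b hb (fun p hp => hmean p hp) W hW l hl0 hlb m H' hH'
    refine h1.trans (add_le_add (le_of_eq ?_) ?_)
    · rw [hl2, hl2m, show (m : ℝ) / W * W = m by field_simp]
      have : Real.exp (m : ℝ) = Real.exp 1 ^ m := by rw [← Real.exp_nat_mul, mul_one]
      rw [this, div_pow, div_pow, mul_pow]
      field_simp
    · rw [← hn]
      calc 2 ^ n * ((x : ℝ) ^ (2 * m) / (2 * H' + 1)) * (∑ p ∈ I, b p) ^ (2 * m)
          = 2 ^ n * ((x : ℝ) ^ (2 * m) * (∑ p ∈ I, b p) ^ (2 * m)) * (1 / (2 * H' + 1)) := by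
            ring
        _ ≤ 2 ^ n * q ^ (2 * m) * (1 / (2 * H' + 1)) := by
            gcongr
            exact hxs (2 * m)
  -- comparison of the two boxes
  have hcmp : ∀ H' : ℕ, x ^ (2 * m) ≤ 2 * H' + 1 →
      ‖EBc H (fun c => Complex.exp ((s * S c : ℝ) * Complex.I)) -
        EBc H' (fun c => Complex.exp ((s * S c : ℝ) * Complex.I))‖ ≤
      4 * 2 ^ n * q ^ (2 * m) * (1 / (2 * H + 1) + 1 / (2 * H' + 1)) +
        4 * (s ^ 2 * W * Real.exp 1 / m) ^ m := by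
    intro H' hH'
    have h1 := char_moments H m S s
    have h2 := char_moments H' m S s
    set P := ∑ j ∈ range (2 * m), ((s : ℂ) * Complex.I) ^ j / (j.factorial : ℂ) *
      (EB H (fun c => S c ^ j) : ℝ) with hP
    set P' := ∑ j ∈ range (2 * m), ((s : ℂ) * Complex.I) ^ j / (j.factorial : ℂ) *
      (EB H' (fun c => S c ^ j) : ℝ) with hP'
    set D := 2 ^ n * q ^ (2 * m) * (1 / (2 * (H : ℝ) + 1) + 1 / (2 * (H' : ℝ) + 1)) with hD
    have hD0 : 0 ≤ D := by positivity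
    have h3 : ‖P - P'‖ ≤ Real.exp 1 * D := by
      rw [hP, hP', ← Finset.sum_sub_distrib]
      refine (norm_sum_le _ _).trans ?_
      have h4 : ∀ j ∈ range (2 * m), ‖((s : ℂ) * Complex.I) ^ j / (j.factorial : ℂ) *
          (EB H (fun c => S c ^ j) : ℝ) - ((s : ℂ) * Complex.I) ^ j / (j.factorial : ℂ) *
          (EB H' (fun c => S c ^ j) : ℝ)‖ ≤ 1 ^ j / (j.factorial : ℝ) * D := by
        intro j hj
        rw [Finset.mem_range] at hj
        rw [← mul_sub, ← Complex.ofReal_sub, norm_mul, norm_div, norm_pow, norm_mul,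
          Complex.norm_I, mul_one, Complex.norm_real, Complex.norm_real, Complex.norm_natCast,
          Real.norm_eq_abs, Real.norm_eq_abs]
        gcongr
        exact hdiff H' hH' j hj.le
      refine (Finset.sum_le_sum h4).trans ?_
      rw [← Finset.sum_mul]
      refine mul_le_mul_of_nonneg_right ?_ hD0
      exact Real.sum_le_exp_of_nonneg (by norm_num) (2 * m)
    have hfac : (0 : ℝ) < ((2 * m).factorial : ℝ) := by exact_mod_cast Nat.factorial_pos _
    have hs2m : |s| ^ (2 * m) = (s ^ 2) ^ m := by rw [pow_mul, sq_abs]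
    have hs1 : |s| ^ (2 * m) ≤ 1 := pow_le_one₀ (abs_nonneg _) hs
    have hfac1 : (1 : ℝ) ≤ ((2 * m).factorial : ℝ) := by exact_mod_cast Nat.factorial_pos (2 * m)
    have hrem : ∀ K : ℕ, x ^ (2 * m) ≤ 2 * K + 1 →
        |s| ^ (2 * m) / ((2 * m).factorial : ℝ) * EB K (fun c => S c ^ (2 * m)) ≤
        2 * (s ^ 2 * W * Real.exp 1 / m) ^ m + 2 ^ n * q ^ (2 * m) * (1 / (2 * K + 1)) := by
      intro K hK
      have h5 := heven K hK
      calc |s| ^ (2 * m) / ((2 * m).factorial : ℝ) * EB K (fun c => S c ^ (2 * m))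
          ≤ |s| ^ (2 * m) / ((2 * m).factorial : ℝ) * (((2 * m).factorial : ℝ) *
            (2 * (W * Real.exp 1 / m) ^ m) + 2 ^ n * q ^ (2 * m) * (1 / (2 * K + 1))) := by gcongr
        _ = 2 * ((s ^ 2) ^ m * (W * Real.exp 1 / m) ^ m) + (|s| ^ (2 * m) /
            ((2 * m).factorial : ℝ)) * (2 ^ n * q ^ (2 * m) * (1 / (2 * K + 1))) := by
            rw [hs2m]; field_simp
        _ ≤ 2 * (s ^ 2 * W * Real.exp 1 / m) ^ m + 1 * (2 ^ n * q ^ (2 * m) * (1 / (2 * K + 1))) := by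
            apply add_le_add
            · apply le_of_eq
              rw [← mul_pow]
              congr 2
              ring
            · apply mul_le_mul_of_nonneg_right _ (by positivity)
              rw [div_le_one hfac]
              exact hs1.trans hfac1
        _ = _ := by ring
    have h6 := hrem H hH
    have h7 := hrem H' hH'
    have hexp : Real.exp 1 ≤ 3 := by have := Real.exp_one_lt_d9; linarith
    have h8 : ‖EBc H (fun c => Complex.exp ((s * S c : ℝ) * Complex.I)) -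
        EBc H' (fun c => Complex.exp ((s * S c : ℝ) * Complex.I))‖ ≤
        ‖EBc H (fun c => Complex.exp ((s * S c : ℝ) * Complex.I)) - P‖ + ‖P - P'‖ +
        ‖EBc H' (fun c => Complex.exp ((s * S c : ℝ) * Complex.I)) - P'‖ := by
      have e : EBc H (fun c => Complex.exp ((s * S c : ℝ) * Complex.I)) -
        EBc H' (fun c => Complex.exp ((s * S c : ℝ) * Complex.I)) =
        (EBc H (fun c => Complex.exp ((s * S c : ℝ) * Complex.I)) - P) + (P - P') -
        (EBc H' (fun c => Complex.exp ((s * S c : ℝ) * Complex.I)) - P') := by ring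
      rw [e]
      exact (norm_sub_le _ _).trans (add_le_add (norm_add_le _ _) le_rfl)
    have h9 : Real.exp 1 * D ≤ 3 * D := by gcongr
    have h10 : 2 ^ n * q ^ (2 * m) * (1 / (2 * (H : ℝ) + 1)) +
        2 ^ n * q ^ (2 * m) * (1 / (2 * (H' : ℝ) + 1)) = D := by rw [hD]; ring
    have h11 : 4 * 2 ^ n * q ^ (2 * m) * (1 / (2 * (H : ℝ) + 1) + 1 / (2 * (H' : ℝ) + 1)) = 4 * D := by
      rw [hD]; ring
    rw [h11]
    linarith
  -- the limit
  have hlim := (tendsto_const_nhds (x := EBc H (fun c => Complex.exp ((s * S c : ℝ) * Complex.I)))).sub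
    (lim_char Z x s)
  have hlim2 : Tendsto (fun H' : ℕ => 4 * 2 ^ n * q ^ (2 * m) *
      (1 / (2 * (H : ℝ) + 1) + 1 / (2 * (H' : ℝ) + 1)) + 4 * (s ^ 2 * W * Real.exp 1 / m) ^ m) atTop
      (𝓝 (4 * 2 ^ n * q ^ (2 * m) * (1 / (2 * (H : ℝ) + 1) + 0) +
        4 * (s ^ 2 * W * Real.exp 1 / m) ^ m)) :=
    ((tendsto_const_nhds.add (tendsto_ratio 1)).const_mul _).add_const _
  have hfin := le_of_tendsto_of_tendsto hlim.norm hlim2 (by
    filter_upwards [eventually_ge_atTop (x ^ (2 * m))] with H' hH'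
    exact hcmp H' (by omega))
  refine hfin.trans (le_of_eq ?_)
  rw [add_zero]
  ring

theorem EM_monoV (p : ℕ) [NeZero p] (f g : (ι → ZMod p) → ℝ) (h : ∀ c, f c ≤ g c) :
    EM p f ≤ EM p g := by
  unfold EM
  gcongr with c
  exact h c

theorem norm_EMc_le_EM (p : ℕ) [NeZero p] (f : (ι → ZMod p) → ℂ) (g : (ι → ZMod p) → ℝ)
    (h : ∀ c, ‖f c‖ ≤ g c) : ‖EMc p f‖ ≤ EM p g := by
  unfold EMc EM
  have hM : (0 : ℝ) < p := by exact_mod_cast Nat.pos_of_ne_zero (NeZero.ne p)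
  have hpos : (0 : ℝ) < (p : ℝ) ^ Fintype.card ι := by positivity
  rw [norm_div, Complex.norm_real, Real.norm_eq_abs, abs_of_pos hpos]
  gcongr
  exact (norm_sum_le _ _).trans (Finset.sum_le_sum fun c _ => h c)

/-- One prime. -/
theorem one_charV (p : ℕ) [NeZero p] (Z : (ι → ZMod p) → ℝ) (b : ℝ) (hb : ∀ c, |Z c| ≤ b)
    (h0 : EM p Z = 0) (s : ℝ) :
    ‖EMc p (fun c => Complex.exp ((s * Z c : ℝ) * Complex.I)) -
      (Real.exp (-(s ^ 2 * EM p (fun c => Z c ^ 2) / 2)) : ℝ)‖ ≤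
      (|s| ^ 3 * b + s ^ 4 * b ^ 2) * EM p (fun c => Z c ^ 2) := by
  have hb0 : 0 ≤ b := (abs_nonneg _).trans (hb 0)
  set v := EM p (fun c => Z c ^ 2) with hv
  have hv0 : 0 ≤ v := by
    rw [hv]; unfold EM; positivity
  have hvb : v ≤ b ^ 2 := by
    rw [hv]
    refine EM_le_of_le p _ _ fun c => ?_
    exact sq_le_sq' (by have := (abs_le.mp (hb c)).1; linarith) (abs_le.mp (hb c)).2
  have e1 : EMc p (fun c => Complex.exp ((s * Z c : ℝ) * Complex.I)) =
      ((1 - s ^ 2 * v / 2 : ℝ) : ℂ) + EMc p (fun c => rem 3 (s * Z c)) := by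
    have e2 : (fun c => Complex.exp ((s * Z c : ℝ) * Complex.I)) = fun c =>
        (((1 + (-(s ^ 2) / 2) * Z c ^ 2 : ℝ) : ℂ) + ((s : ℂ) * Complex.I) * ((Z c : ℝ) : ℂ)) +
          rem 3 (s * Z c) := by
      funext c
      unfold rem
      rw [Finset.sum_range_succ, Finset.sum_range_succ, Finset.sum_range_one]
      have hI : Complex.I ^ 2 = -1 := Complex.I_sq
      simp only [Nat.factorial, pow_zero, pow_one, Nat.cast_one, div_one]
      push_cast
      ring_nf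
      rw [hI]
      ring
    rw [e2, EMc_add, EMc_add, EMc_mul, EMc_ofReal, EMc_ofReal, h0, EM_add', EM_const', EM_mul', ← hv]
    push_cast
    ring
  rw [e1]
  have h1 : ‖EMc p (fun c => rem 3 (s * Z c))‖ ≤ |s| ^ 3 * b * v := by
    refine (norm_EMc_le_EM p _ (fun c => |s| ^ 3 * b * Z c ^ 2) fun c => (rem_le 3 _).trans ?_).trans ?_
    · rw [abs_mul, mul_pow]
      have h2 : |Z c| ^ 3 ≤ b * Z c ^ 2 := by
        calc |Z c| ^ 3 = |Z c| * |Z c| ^ 2 := by ring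
          _ = |Z c| * Z c ^ 2 := by rw [sq_abs]
          _ ≤ b * Z c ^ 2 := mul_le_mul_of_nonneg_right (hb c) (sq_nonneg _)
      have h3 : (1 : ℝ) ≤ ((3).factorial : ℝ) := by norm_num [Nat.factorial]
      calc |s| ^ 3 * |Z c| ^ 3 / ((3).factorial : ℝ) ≤ |s| ^ 3 * |Z c| ^ 3 / 1 := by gcongr
        _ = |s| ^ 3 * |Z c| ^ 3 := div_one _
        _ ≤ |s| ^ 3 * (b * Z c ^ 2) := by gcongr
        _ = _ := by ring
    · rw [EM_mul']
  have h4 := exp_neg_taylor (y := s ^ 2 * v / 2) (by positivity)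
  have h5 : (s ^ 2 * v / 2) ^ 2 ≤ s ^ 4 * b ^ 2 * v := by
    calc (s ^ 2 * v / 2) ^ 2 = s ^ 4 * v * v / 4 := by ring
      _ ≤ s ^ 4 * b ^ 2 * v / 1 := by
          gcongr
          norm_num
      _ = _ := div_one _
  have e3 : ((1 - s ^ 2 * v / 2 : ℝ) : ℂ) + EMc p (fun c => rem 3 (s * Z c)) -
      (Real.exp (-(s ^ 2 * v / 2)) : ℝ) = EMc p (fun c => rem 3 (s * Z c)) -
        ((Real.exp (-(s ^ 2 * v / 2)) - (1 - s ^ 2 * v / 2) : ℝ) : ℂ) := by
    push_cast
    ring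
  rw [e3, add_mul]
  refine (norm_sub_le _ _).trans (add_le_add h1 ?_)
  rw [Complex.norm_real, Real.norm_eq_abs]
  exact h4.trans h5

/-- **The model characteristic function is nearly Gaussian** in terms of the variances. -/
theorem phiV (Z : ∀ p : ℕ, (ι → ZMod p) → ℝ) (b : ℝ) (x : ℕ)
    (hb : ∀ p ∈ (Ico 0 x).filter Nat.Prime, ∀ c, |Z p c| ≤ b)
    (hmean : ∀ p ∈ (Ico 0 x).filter Nat.Prime, ∀ [NeZero p], EM p (Z p) = 0) (s : ℝ) :
    ‖phi Z x s - (Real.exp (-(s ^ 2 * (∑ p ∈ (Ico 0 x).filter Nat.Prime, vv Z p) / 2)) : ℝ)‖ ≤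
      (|s| ^ 3 * b + s ^ 4 * b ^ 2) * ∑ p ∈ (Ico 0 x).filter Nat.Prime, vv Z p := by
  classical
  set I := (Ico 0 x).filter Nat.Prime with hI
  have h3 : ((Real.exp (-(s ^ 2 * (∑ p ∈ I, vv Z p) / 2)) : ℝ) : ℂ) =
      ∏ p ∈ I, ((Real.exp (-(s ^ 2 * vv Z p / 2)) : ℝ) : ℂ) := by
    rw [← Complex.ofReal_prod, ← Real.exp_sum]
    congr 2
    rw [Finset.sum_neg_distrib, Finset.mul_sum, Finset.sum_div]
  rw [h3, Finset.mul_sum]
  unfold phi
  refine (prod_sub_prod I _ _ ?_ ?_).trans ?_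
  · intro p hp
    have hpp : p.Prime := (Finset.mem_filter.mp hp).2
    have : NeZero p := ⟨hpp.ne_zero⟩
    rw [Ep_eq]
    refine norm_EMc_le p _ _ fun c => le_of_eq ?_
    exact Complex.norm_exp_ofReal_mul_I _
  · intro p _
    rw [Complex.norm_real, Real.norm_eq_abs, abs_of_pos (Real.exp_pos _)]
    exact Real.exp_le_one_iff.mpr (by have := vv_nonneg Z p; nlinarith [sq_nonneg s])
  · refine Finset.sum_le_sum fun p hp => ?_
    have hpp : p.Prime := (Finset.mem_filter.mp hp).2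
    have : NeZero p := ⟨hpp.ne_zero⟩
    rw [Ep_eq, vv_eq]
    exact one_charV p (Z p) b (hb p hp) (hmean p hp) s

end Pool.Agent.X280.HG
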